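import Pool.Agent.Lib_helper74.NE.Bridge

/-! Universal simulation of oracle programs, in polynomial time. -/

set_option autoImplicit false
set_option linter.unusedSectionVars false

namespace Pool.Agent.CKP

open Pool.Agent.CK

variable {O : Lang}
variable {α β γ δ : Type} [ToD α] [ToD β] [ToD γ] [ToD δ]

/-- unary numbers as trees -/
def tg (n : ℕ) : D := toD (List.replicate n ())

theorem size_tg (n : ℕ) : (tg n).size = 2 * n + 1 := size_units n

theorem toList_tg (n : ℕ) : (toList (tg n)).length = n := by
  unfold tg
  rw [toList_toD, List.length_map, List.length_replicate]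

/-- the code of a program -/
def cmdD : Cmd → D
  | .skip => .cons (tg 0) .nil
  | .push r b => .cons (tg 1) (.cons (tg r) (toD b))
  | .pop r => .cons (tg 2) (.cons (tg r) .nil)
  | .seq p q => .cons (tg 3) (.cons (cmdD p) (cmdD q))
  | .cond r p q s => .cons (tg 4) (.cons (tg r) (.cons (cmdD p) (.cons (cmdD q) (cmdD s))))
  | .loop r p => .cons (tg 5) (.cons (tg r) (cmdD p))
  | .ask r p q => .cons (tg 6) (.cons (tg r) (.cons (cmdD p) (cmdD q)))

/-- the tag of a code is `i` -/
def tagIs (c : D) (i : ℕ) : Bool := decide ((toList c.car).length = i)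

theorem PTime.tagIs {f : α → D} (hf : PTime O f) (i : ℕ) : PTime O (fun a => CKP.tagIs (f a) i) :=
  PTime.nat_eq (PTime.length hf.car.toList) (PTime.const i)

/-- the zipper for replacing an entry -/
def zipU (r : List D) (S : List (List Bool)) : List (List Bool) × List (List Bool) :=
  r.foldl (fun p _ => (p.2.headD [] :: p.1, p.2.tail)) ([], S)

/-- replace entry number `r` (unary) by `v`; missing entries are empty -/
def setU (S : List (List Bool)) (r : List D) (v : List Bool) : List (List Bool) :=
  (zipU r S).1.foldl (fun s a => a :: s) (v :: (zipU r S).2.tail)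

/-- entry number `r` -/
def getU (S : List (List Bool)) (r : List D) : List Bool := S.getD r.length []

theorem zipU_eq (r : List D) (S : List (List Bool)) :
    (zipU r S).1.reverse = (List.range r.length).map (fun i => S.getD i []) ∧
      (zipU r S).2 = S.drop r.length := by
  have key : ∀ (r : List D) (P S : List (List Bool)),
      (r.foldl (fun (p : List (List Bool) × List (List Bool)) _ =>
        (p.2.headD [] :: p.1, p.2.tail)) (P, S)) =
      (((List.range r.length).map (fun i => S.getD i [])).reverse ++ P, S.drop r.length) := by
    intro r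
    induction r with
    | nil => intro P S; simp
    | cons a t ih =>
      intro P S
      rw [List.foldl_cons, ih, List.length_cons, List.range_succ_eq_map]
      cases S with
      | nil => simp [Function.comp_def, List.map_const']
      | cons b s =>
        simp [Function.comp_def]
  have h := key r [] S
  unfold zipU
  rw [h]
  simp

theorem setU_getD (S : List (List Bool)) (r : List D) (v : List Bool) (i : ℕ) :
    (setU S r v).getD i [] = if i = r.length then v else S.getD i [] := by
  have hf : ∀ (A B : List (List Bool)), A.foldl (fun s a => a :: s) B = A.reverse ++ B := by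
    intro A
    induction A with
    | nil => intro B; rfl
    | cons a t ih => intro B; rw [List.foldl_cons, ih]; simp
  unfold setU
  rw [hf]
  obtain ⟨h1, h2⟩ := zipU_eq r S
  rw [h1, h2]
  rcases Nat.lt_trichotomy i r.length with h | h | h
  · rw [if_neg (by omega)]
    rw [List.getD_append _ _ _ _ (by simpa using h)]
    simp [List.getD_eq_getElem?_getD, h]
  · subst h
    rw [if_pos rfl, List.getD_append_right _ _ _ _ (by simp)]
    simp
  · rw [if_neg (by omega), List.getD_append_right _ _ _ _ (by simp; omega)]
    obtain ⟨j, rfl⟩ := Nat.exists_eq_add_of_lt h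
    have : r.length + j + 1 - (List.map (fun i => S.getD i []) (List.range r.length)).length =
      j + 1 := by simp; omega
    rw [this, List.getD_cons_succ]
    simp only [List.getD_eq_getElem?_getD, List.getElem?_tail, List.getElem?_drop]
    congr 2

theorem zipU_sz (r : List D) (S : List (List Bool)) :
    sz (zipU r S).1 + sz (zipU r S).2 ≤ sz S + 2 * r.length + 1 := by
  have key : ∀ (r : List D) (P S : List (List Bool)),
      sz (r.foldl (fun (p : List (List Bool) × List (List Bool)) _ =>
        (p.2.headD [] :: p.1, p.2.tail)) (P, S)).1 +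
      sz (r.foldl (fun (p : List (List Bool) × List (List Bool)) _ =>
        (p.2.headD [] :: p.1, p.2.tail)) (P, S)).2 ≤ sz P + sz S + 2 * r.length := by
    intro r
    induction r with
    | nil => intro P S; simp
    | cons a t ih =>
      intro P S
      rw [List.foldl_cons]
      refine (ih _ _).trans ?_
      rw [List.length_cons]
      cases S with
      | nil => simp; omega
      | cons b s => simp only [List.headD_cons, List.tail_cons, sz_cons]; omega
  have := key r [] S
  simp only [sz_nil] at this
  unfold zipU
  omega

theorem setU_sz (S : List (List Bool)) (r : List D) (v : List Bool) :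
    sz (setU S r v) ≤ sz S + 2 * r.length + sz v + 2 := by
  have hf : ∀ (A B : List (List Bool)), sz (A.foldl (fun s a => a :: s) B) + 1 = sz A + sz B := by
    intro A
    induction A with
    | nil => intro B; simp; omega
    | cons a t ih => intro B; rw [List.foldl_cons, ih, sz_cons, sz_cons]; omega
  unfold setU
  have h1 := hf (zipU r S).1 (v :: (zipU r S).2.tail)
  have h2 := zipU_sz r S
  have h3 := sz_tail_le (zipU r S).2
  rw [sz_cons] at h1
  omega

/-- replacing an entry `w` by `v` -/
theorem setU_sz' (S : List (List Bool)) (r : List D) (v : List Bool) :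
    sz (setU S r v) + sz (getU S r) ≤ sz S + 2 * r.length + sz v + 3 := by
  have hf : ∀ (A B : List (List Bool)), sz (A.foldl (fun s a => a :: s) B) + 1 = sz A + sz B := by
    intro A
    induction A with
    | nil => intro B; simp; omega
    | cons a t ih => intro B; rw [List.foldl_cons, ih, sz_cons, sz_cons]; omega
  unfold setU getU
  have h1 := hf (zipU r S).1 (v :: (zipU r S).2.tail)
  have h2 := zipU_sz r S
  have h4 := (zipU_eq r S).2
  rw [sz_cons] at h1
  have h5 : sz (zipU r S).2.tail + sz (S.getD r.length []) ≤ sz (zipU r S).2 + 1 := by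
    rw [h4]
    have h6 : S.getD r.length [] = (S.drop r.length).headD [] := by
      generalize r.length = n
      induction n generalizing S with
      | zero => cases S <;> rfl
      | succ n ih =>
        cases S with
        | nil => simp
        | cons a t => simp
    rw [h6]
    cases S.drop r.length with
    | nil => simp
    | cons a t => simp only [List.tail_cons, List.headD_cons, sz_cons]; omega
  omega

theorem PTime.setU {S : γ → List (List Bool)} {r : γ → List D} {v : γ → List Bool}
    (hS : PTime O S) (hr : PTime O r) (hv : PTime O v) :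
    PTime O (fun x => CKP.setU (S x) (r x) (v x)) := by
  obtain ⟨PS, hPS⟩ := hS.size_le
  obtain ⟨Pr, hPr⟩ := hr.size_le
  have hz : PTime O (fun x => zipU (r x) (S x)) := by
    unfold zipU
    refine PTime.foldl (l := r) (i := fun x => (([] : List (List Bool)), S x))
      (s := fun _ p _ => (p.2.headD [] :: p.1, p.2.tail)) hr ((PTime.const _).pair hS) ?_
      (PS + 2 * Pr + 3) ?_
    · exact (PTime.cons (PTime.headD PTime.id.snd.fst.snd (PTime.const _))
        PTime.id.snd.fst.fst).pair (PTime.tail PTime.id.snd.fst.snd)
    · intro x l' hl'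
      have h1 := zipU_sz l' (S x)
      unfold zipU at h1
      rw [sz_pair]
      have h2 := hPS x
      have h3 : l'.length ≤ Pr.eval (sz x) :=
        (hl'.length_le.trans (length_le_sz _)).trans (hPr x)
      simp only [Polynomial.eval_add, Polynomial.eval_mul, Polynomial.eval_ofNat]
      omega
  unfold CKP.setU
  have hrev : PTime O (fun x => (zipU (r x) (S x)).1.reverse ++ (v x :: (zipU (r x) (S x)).2.tail)) :=
    PTime.append (PTime.reverse hz.fst) (PTime.cons hv (PTime.tail hz.snd))
  refine hrev.of_eq fun x => ?_
  have hf : ∀ (A B : List (List Bool)), A.foldl (fun s a => a :: s) B = A.reverse ++ B := by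
    intro A
    induction A with
    | nil => intro B; rfl
    | cons a t ih => intro B; rw [List.foldl_cons, ih]; simp
  exact (hf _ _).symm

theorem PTime.getU {S : γ → List (List Bool)} {r : γ → List D}
    (hS : PTime O S) (hr : PTime O r) : PTime O (fun x => CKP.getU (S x) (r x)) :=
  PTime.getD hr hS (PTime.const [])

/-- registers mentioned in a code -/
def regU (c : D) : List D := toList c.cdr.car

/-- One simulated step: `c` is the current command, `K` the remaining ones, `S` the stacks. -/
def stepC (O : Lang) (c : D) (K : List D) (S : List (List Bool)) : List D × List (List Bool) :=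
  if tagIs c 1 = true then (K, setU S (regU c) (toBool c.cdr.cdr :: getU S (regU c)))
  else if tagIs c 2 = true then (K, setU S (regU c) (getU S (regU c)).tail)
  else if tagIs c 3 = true then (c.cdr.car :: c.cdr.cdr :: K, S)
  else if tagIs c 4 = true then
    ((if (getU S (regU c)).isEmpty = true then c.cdr.cdr.car
      else if (getU S (regU c)).headD false = true then c.cdr.cdr.cdr.cdr
      else c.cdr.cdr.cdr.car) :: K, S)
  else if tagIs c 5 = true then
    (if (getU S (regU c)).isEmpty = true then (K, S) else (c.cdr.cdr :: c :: K, S))
  else if tagIs c 6 = true then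
    ((if O (getU S (regU c)) = true then c.cdr.cdr.cdr else c.cdr.cdr.car) :: K, S)
  else (K, S)

/-- One simulated step. -/
def stepU (O : Lang) (q : List D × List (List Bool)) : List D × List (List Bool) :=
  lcase q.1 q fun c K => stepC O c K q.2

theorem stepU_ptime : PTime O (stepU O) := by
  unfold stepU
  refine PTime.lcase (l := fun q : List D × List (List Bool) => q.1) (n := fun q => q)
    (c := fun q c K => stepC O c K q.2) PTime.id.fst PTime.id ?_
  have hS : PTime O (fun p : (List D × List (List Bool)) × D × List D => p.1.2) :=
    PTime.id.fst.snd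
  have hc : PTime O (fun p : (List D × List (List Bool)) × D × List D => p.2.1) :=
    PTime.id.snd.fst
  have hK : PTime O (fun p : (List D × List (List Bool)) × D × List D => p.2.2) :=
    PTime.id.snd.snd
  have hr : PTime O (fun p : (List D × List (List Bool)) × D × List D => regU p.2.1) :=
    hc.cdr.car.toList
  have hg := PTime.getU hS hr
  unfold stepC
  refine PTime.ite (hc.tagIs 1) (hK.pair (PTime.setU hS hr (PTime.cons hc.cdr.cdr.toBool hg))) ?_
  refine PTime.ite (hc.tagIs 2) (hK.pair (PTime.setU hS hr (PTime.tail hg))) ?_
  refine PTime.ite (hc.tagIs 3) ((hc.cdr.car.cons (hc.cdr.cdr.cons hK)).pair hS) ?_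
  refine PTime.ite (hc.tagIs 4) (((PTime.ite (PTime.isNil hg) hc.cdr.cdr.car
    (PTime.ite (PTime.headD hg (PTime.const false)) hc.cdr.cdr.cdr.cdr
      hc.cdr.cdr.cdr.car)).cons hK).pair hS) ?_
  refine PTime.ite (hc.tagIs 5) (PTime.ite (PTime.isNil hg) (hK.pair hS)
    ((hc.cdr.cdr.cons (hc.cons hK)).pair hS)) ?_
  exact PTime.ite (hc.tagIs 6) (((PTime.ite (PTime.ask hg) hc.cdr.cdr.cdr
    hc.cdr.cdr.car).cons hK).pair hS) (hK.pair hS)

/-- the simulation relation -/
def RelU (q : List D × List (List Bool)) (c : Config) : Prop :=
  q.1 = c.1.map cmdD ∧ ∀ i, q.2.getD i [] = c.2 i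

theorem relU_step {q : List D × List (List Bool)} {c : Config} (h : RelU q c) :
    RelU (stepU O q) (step O c) := by
  obtain ⟨k, s⟩ := c
  obtain ⟨K, S⟩ := q
  obtain ⟨h1, h2⟩ := h
  simp only at h1 h2
  subst h1
  cases k with
  | nil => exact ⟨rfl, h2⟩
  | cons c k =>
    have hset : ∀ (r : ℕ) (v : List Bool) (i : ℕ),
        (setU S (toList (tg r)) v).getD i [] = Function.update s r v i := by
      intro r v i
      rw [setU_getD, toList_tg, Function.update_apply]
      split
      · rfl
      · exact h2 i
    have hget : ∀ r : ℕ, getU S (toList (tg r)) = s r := by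
      intro r
      unfold getU
      rw [toList_tg]
      exact h2 r
    have htag : ∀ (i j : ℕ) (d : D), tagIs (.cons (tg i) d) j = decide (i = j) := by
      intro i j d
      unfold tagIs
      rw [show (D.cons (tg i) d).car = tg i from rfl, toList_tg]
    show RelU (stepC O (cmdD c) (k.map cmdD) S) (step O (c :: k, s))
    cases c with
    | skip =>
      simp only [stepC, cmdD, htag, step]
      exact ⟨rfl, h2⟩
    | push r b =>
      simp only [stepC, cmdD, htag, step]
      refine ⟨rfl, fun i => ?_⟩
      show (setU S (toList (tg r)) (toBool (toD b) :: getU S (toList (tg r)))).getD i [] = _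
      rw [hset, hget, toBool_toD]
    | pop r =>
      simp only [stepC, cmdD, htag, step]
      refine ⟨rfl, fun i => ?_⟩
      show (setU S (toList (tg r)) (getU S (toList (tg r))).tail).getD i [] = _
      rw [hset, hget]
    | seq p q =>
      simp only [stepC, cmdD, htag, step]
      exact ⟨rfl, h2⟩
    | cond r a b d =>
      simp only [stepC, cmdD, htag, step]
      refine ⟨?_, h2⟩
      show (if (getU S (toList (tg r))).isEmpty = true then cmdD a
        else if (getU S (toList (tg r))).headD false = true then cmdD d else cmdD b) ::
          k.map cmdD = _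
      rw [hget]
      cases hs : s r with
      | nil => rfl
      | cons x l => cases x <;> rfl
    | loop r p =>
      simp only [stepC, cmdD, htag, step]
      show RelU (if (getU S (toList (tg r))).isEmpty = true then (k.map cmdD, S) else
        (cmdD p :: cmdD (.loop r p) :: k.map cmdD, S)) _
      rw [hget]
      cases hs : s r with
      | nil => exact ⟨rfl, h2⟩
      | cons x l => exact ⟨rfl, h2⟩
    | ask r p q =>
      simp only [stepC, cmdD, htag, step]
      refine ⟨?_, h2⟩
      show (if O (getU S (toList (tg r))) = true then cmdD q else cmdD p) :: k.map cmdD = _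
      rw [hget]
      cases hs : O (s r) <;> simp

/-- run the simulation for `|N|` steps -/
def runU (O : Lang) (q : List D × List (List Bool)) (N : List Unit) :
    List D × List (List Bool) :=
  N.foldl (fun q _ => stepU O q) q

theorem relU_run {q : List D × List (List Bool)} {c : Config} (h : RelU q c) (N : List Unit) :
    RelU (runU O q N) ((step O)^[N.length] c) := by
  unfold runU
  induction N generalizing q c with
  | nil => exact h
  | cons a t ih =>
    rw [List.foldl_cons, List.length_cons, Function.iterate_succ_apply]
    exact ih (relU_step h)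

/-- bounds for the simulation: all commands have size at most `s` -/
theorem stepU_bound (s : ℕ) (q : List D × List (List Bool)) (h : ∀ c ∈ q.1, sz c ≤ s) :
    (∀ c ∈ (stepU O q).1, sz c ≤ s) ∧ (stepU O q).1.length ≤ q.1.length + 1 ∧
      sz (stepU O q).2 ≤ sz q.2 + 2 * s + 8 := by
  obtain ⟨K, S⟩ := q
  cases K with
  | nil => exact ⟨h, by simp [stepU], by simp [stepU]; omega⟩
  | cons c K =>
    have hc : sz c ≤ s := h c (by simp)
    have hK : ∀ d ∈ K, sz d ≤ s := fun d hd => h d (by simp [hd])
    have hcar : ∀ d : D, sz d.car ≤ sz d := by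
      intro d; cases d with
      | nil => exact le_rfl
      | cons a b => show a.size ≤ a.size + b.size + 1; omega
    have hcdr : ∀ d : D, sz d.cdr ≤ sz d := by
      intro d; cases d with
      | nil => exact le_rfl
      | cons a b => show b.size ≤ a.size + b.size + 1; omega
    have hreg : (regU c).length ≤ s := by
      have h1 : sz (regU c) = sz c.cdr.car := congrArg D.size (toD_toList _)
      have h2 := length_le_sz (regU c)
      have h3 := hcar c.cdr
      have h4 := hcdr c
      omega
    show (∀ d ∈ (stepC O c K S).1, sz d ≤ s) ∧ (stepC O c K S).1.length ≤ K.length + 1 + 1 ∧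
      sz (stepC O c K S).2 ≤ sz S + 2 * s + 8
    have a1 := hcdr c
    have a2 := hcar c.cdr
    have a3 := hcdr c.cdr
    have a4 := hcar c.cdr.cdr
    have a5 := hcdr c.cdr.cdr
    have a6 := hcar c.cdr.cdr.cdr
    have a7 := hcdr c.cdr.cdr.cdr
    unfold stepC
    split
    · refine ⟨hK, by simp only; omega, ?_⟩
      have g1 := setU_sz' S (regU c) (toBool c.cdr.cdr :: getU S (regU c))
      rw [sz_cons] at g1
      have g2 := (num_bool_sz (toBool c.cdr.cdr)).2
      simp only
      omega
    split
    · refine ⟨hK, by simp only; omega, ?_⟩
      have g1 := setU_sz' S (regU c) (getU S (regU c)).tail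
      have g2 := sz_tail_le (getU S (regU c))
      simp only
      omega
    split
    · refine ⟨?_, by simp, by simp only; omega⟩
      intro d hd
      simp only [List.mem_cons] at hd
      rcases hd with rfl | rfl | hd
      · omega
      · omega
      · exact hK d hd
    split
    · refine ⟨?_, by simp, by simp only; omega⟩
      intro d hd
      simp only [List.mem_cons] at hd
      rcases hd with rfl | hd
      · split
        · omega
        · split <;> omega
      · exact hK d hd
    split
    · split
      · exact ⟨hK, by simp only; omega, by simp only; omega⟩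
      · refine ⟨?_, by simp, by simp only; omega⟩
        intro d hd
        simp only [List.mem_cons] at hd
        rcases hd with rfl | rfl | hd
        · omega
        · exact hc
        · exact hK d hd
    split
    · refine ⟨?_, by simp, by simp only; omega⟩
      intro d hd
      simp only [List.mem_cons] at hd
      rcases hd with rfl | hd
      · split <;> omega
      · exact hK d hd
    · exact ⟨hK, by simp only; omega, by simp only; omega⟩

theorem runU_bound (s : ℕ) (N : List Unit) (q : List D × List (List Bool))
    (h : ∀ c ∈ q.1, sz c ≤ s) :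
    (∀ c ∈ (runU O q N).1, sz c ≤ s) ∧ (runU O q N).1.length ≤ q.1.length + N.length ∧
      sz (runU O q N).2 ≤ sz q.2 + N.length * (2 * s + 8) := by
  unfold runU
  induction N generalizing q with
  | nil => exact ⟨h, by simp, by simp⟩
  | cons a t ih =>
    rw [List.foldl_cons, List.length_cons]
    obtain ⟨h1, h2, h3⟩ := stepU_bound (O := O) s q h
    obtain ⟨g1, g2, g3⟩ := ih (stepU O q) h1
    refine ⟨g1, by omega, ?_⟩
    rw [Nat.succ_mul]
    omega

theorem sz_list_le {s : ℕ} (l : List α) (h : ∀ c ∈ l, sz c ≤ s) :
    sz l ≤ l.length * (s + 1) + 1 := by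
  induction l with
  | nil => simp
  | cons a t ih =>
    rw [sz_cons, List.length_cons, Nat.succ_mul]
    have h1 := h a (by simp)
    have h2 := ih (fun c hc => h c (by simp [hc]))
    omega

/-- The universal simulation is polynomial. -/
theorem PTime.runU {c : γ → D} {S : γ → List (List Bool)} {N : γ → List Unit}
    (hc : PTime O c) (hS : PTime O S) (hN : PTime O N) :
    PTime O (fun x => CKP.runU O ([c x], S x) (N x)) := by
  obtain ⟨Pc, hPc⟩ := hc.size_le
  obtain ⟨PS, hPS⟩ := hS.size_le
  obtain ⟨PN, hPN⟩ := hN.size_le
  unfold CKP.runU
  refine PTime.foldl (l := N) (i := fun x => ([c x], S x)) (s := fun _ q _ => stepU O q) hN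
    ((PTime.cons hc (PTime.const [])).pair hS) (stepU_ptime.comp PTime.id.snd.fst)
    ((1 + PN) * (Pc + 1) + 1 + (PS + PN * (2 * Pc + 8)) + 1) ?_
  intro x l' hl'
  have h1 := runU_bound (O := O) (sz (c x)) l' ([c x], S x) (by
    intro d hd
    simp only [List.mem_singleton] at hd
    rw [hd])
  unfold CKP.runU at h1
  obtain ⟨g1, g2, g3⟩ := h1
  generalize l'.foldl (fun q _ => stepU O q) ([c x], S x) = q at g1 g2 g3
  have h2 : l'.length ≤ PN.eval (sz x) :=
    (hl'.length_le.trans (length_le_sz _)).trans (hPN x)
  have h3 := sz_list_le q.1 g1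
  have h4 := hPc x
  have h5 := hPS x
  have h6 : q.1.length * (sz (c x) + 1) ≤ (1 + PN.eval (sz x)) * (Pc.eval (sz x) + 1) := by
    apply Nat.mul_le_mul
    · simp only [List.length_singleton] at g2; omega
    · omega
  have h7 : l'.length * (2 * sz (c x) + 8) ≤ PN.eval (sz x) * (2 * Pc.eval (sz x) + 8) := by
    apply Nat.mul_le_mul h2
    omega
  have h8 : sz q = sz q.1 + sz q.2 + 1 := rfl
  simp only [Polynomial.eval_add, Polynomial.eval_mul, Polynomial.eval_ofNat,
    Polynomial.eval_one]
  simp only at g3
  omega

/-! ### consequences -/

theorem relU_init (c : Cmd) (x y : List Bool) : RelU ([cmdD c], [x, y]) ([c], init x y) := by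
  refine ⟨rfl, fun i => ?_⟩
  match i with
  | 0 => rfl
  | 1 => rfl
  | n + 2 => simp [init]

/-- the content of stack `0` after the run -/
def outU (O : Lang) (c : D) (x y : List Bool) (N : List Unit) : List Bool :=
  (runU O ([c], [x, y]) N).2.headD []

/-- the run has halted and accepts -/
def accU (O : Lang) (c : D) (x y : List Bool) (N : List Unit) : Bool :=
  (runU O ([c], [x, y]) N).1.isEmpty && (outU O c x y N).headD false

theorem outU_eq (c : Cmd) (x y : List Bool) (N : List Unit) :
    outU O (cmdD c) x y N = (run O c x y N.length).2 0 := by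
  have h := relU_run (O := O) (relU_init c x y) N
  have h2 := h.2 0
  unfold outU run
  rw [← h2]
  cases (runU O ([cmdD c], [x, y]) N).2 <;> rfl

theorem accU_iff (c : Cmd) (x y : List Bool) (N : List Unit) :
    accU O (cmdD c) x y N = true ↔ Accepts O c x y N.length := by
  have h := relU_run (O := O) (relU_init c x y) N
  unfold accU Accepts
  rw [outU_eq, Bool.and_eq_true]
  have h1 : (runU O ([cmdD c], [x, y]) N).1.isEmpty = true ↔ (run O c x y N.length).1 = [] := by
    rw [h.1]
    unfold run
    generalize ((step O)^[N.length] ([c], init x y)).1 = k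
    cases k <;> simp
  rw [h1]
  refine and_congr Iff.rfl ?_
  generalize (run O c x y N.length).2 0 = l
  cases l with
  | nil => simp
  | cons a t => simp

theorem PTime.outU {c : γ → D} {x y : γ → List Bool} {N : γ → List Unit} (hc : PTime O c)
    (hx : PTime O x) (hy : PTime O y) (hN : PTime O N) :
    PTime O (fun a => CKP.outU O (c a) (x a) (y a) (N a)) :=
  PTime.headD (PTime.runU hc (PTime.cons hx (PTime.cons hy (PTime.const []))) hN).snd
    (PTime.const [])

theorem PTime.accU {c : γ → D} {x y : γ → List Bool} {N : γ → List Unit} (hc : PTime O c)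
    (hx : PTime O x) (hy : PTime O y) (hN : PTime O N) :
    PTime O (fun a => CKP.accU O (c a) (x a) (y a) (N a)) :=
  (PTime.isNil (PTime.runU hc (PTime.cons hx (PTime.cons hy (PTime.const []))) hN).fst).and
    (PTime.headD (PTime.outU hc hx hy hN) (PTime.const false))

/-- the time bound `(n + 2) ^ k`, in unary -/
theorem UPoly.tb (k : ℕ) : UPoly O (fun n => (n + 2) ^ k) :=
  ((UPoly.id).add (UPoly.const 2)).pow k

theorem ptime_of_inFP {f : List Bool → List Bool} (hf : InFP O f) : PTime O f := by
  obtain ⟨c, k, h⟩ := hf
  refine (PTime.outU (c := fun _ => cmdD c) (x := fun x => x) (y := fun _ => [])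
    (N := fun x : List Bool => List.replicate ((x.length + 2) ^ k) ()) (PTime.const _) PTime.id
    (PTime.const _) ((UPoly.tb k).comp PTime.id)).of_eq fun x => ?_
  rw [outU_eq, List.length_replicate]
  exact (h x).2

theorem ptime_of_inP {A : Lang} (hA : InP O A) : PTime O A := by
  obtain ⟨c, k, h⟩ := hA
  refine (PTime.accU (c := fun _ => cmdD c) (x := fun x => x) (y := fun _ => [])
    (N := fun x : List Bool => List.replicate ((x.length + 2) ^ k) ()) (PTime.const _) PTime.id
    (PTime.const _) ((UPoly.tb k).comp PTime.id)).of_eq fun x => ?_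
  have h1 := accU_iff (O := O) c x [] (List.replicate ((x.length + 2) ^ k) ())
  rw [List.length_replicate, (h x).2] at h1
  rw [Bool.eq_iff_iff]
  exact h1

end Pool.Agent.CKP
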