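import Pool.Agent.Lib_helper74.NE.Mach

/-! From typed polynomial time to the classes `P^O`, `FP^O`, `NP^O`. -/

set_option autoImplicit false
set_option linter.unusedSectionVars false

namespace Pool.Agent.CKP

open Pool.Agent.CK

variable {O : Lang}
variable {α β γ δ : Type} [ToD α] [ToD β] [ToD γ] [ToD δ]

theorem exists_pow (P : Polynomial ℕ) : ∃ k, ∀ n, P.eval n ≤ (n + 2) ^ k := by
  induction P using Polynomial.induction_on' with
  | add p q hp hq =>
    obtain ⟨k, hk⟩ := hp
    obtain ⟨l, hl⟩ := hq
    refine ⟨max k l + 1, fun n => ?_⟩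
    rw [Polynomial.eval_add]
    have h1 : (n + 2) ^ k ≤ (n + 2) ^ max k l := Nat.pow_le_pow_right (by omega) (le_max_left _ _)
    have h2 : (n + 2) ^ l ≤ (n + 2) ^ max k l := Nat.pow_le_pow_right (by omega) (le_max_right _ _)
    have h3 : (n + 2) ^ (max k l + 1) = (n + 2) ^ max k l * (n + 2) := pow_succ _ _
    have h4 : (n + 2) ^ max k l * 2 ≤ (n + 2) ^ max k l * (n + 2) :=
      Nat.mul_le_mul_left _ (by omega)
    have := hk n
    have := hl n
    omega
  | monomial d c =>
    refine ⟨c + d, fun n => ?_⟩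
    rw [Polynomial.eval_monomial, pow_add]
    have h1 : c ≤ (n + 2) ^ c := le_trans (Nat.lt_two_pow_self).le
      (Nat.pow_le_pow_left (by omega) c)
    exact Nat.mul_le_mul h1 (Nat.pow_le_pow_left (by omega) d)

theorem size_bits (l : List Bool) : (toD l).size ≤ 4 * l.length + 1 := (num_list_sz l).2

theorem size_units (n : ℕ) : (toD (List.replicate n ())).size = 2 * n + 1 := by
  induction n with
  | zero => rfl
  | succ n ih =>
    have : (toD (List.replicate (n + 1) ())).size = 1 + (toD (List.replicate n ())).size + 1 := rfl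
    rw [this, ih]
    ring

theorem UPoly.bound {g : ℕ → ℕ} (hg : UPoly O g) : ∃ P : Polynomial ℕ, ∀ n, g n ≤ P.eval n := by
  obtain ⟨P, hP⟩ := PTime.size_le hg
  refine ⟨P.comp (2 * Polynomial.X + 1), fun n => ?_⟩
  have h := hP (List.replicate n ())
  have h1 : sz (List.replicate n ()) = 2 * n + 1 := size_units n
  have h2 : sz (List.replicate (g n) ()) = 2 * g n + 1 := size_units (g n)
  rw [List.length_replicate, h1, h2] at h
  simp only [Polynomial.eval_comp, Polynomial.eval_add, Polynomial.eval_mul,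
    Polynomial.eval_ofNat, Polynomial.eval_X, Polynomial.eval_one]
  omega

theorem init_pos (x y : List Bool) (r : ℕ) (hr : 2 ≤ r) : init x y r = [] := by
  obtain ⟨s, rfl⟩ := Nat.exists_eq_add_of_le' hr
  rfl

theorem init_nil (x : List Bool) (r : ℕ) (hr : 1 ≤ r) : init x [] r = [] := by
  rcases Nat.eq_or_lt_of_le hr with h | h
  · subst h; rfl
  · exact init_pos x [] r h

theorem inP_of {A : Lang} (hA : PTime O A) : InP O A := by
  obtain ⟨F, ⟨p, m, P, hp, hm, h⟩, hF⟩ := hA
  obtain ⟨k, hk⟩ := exists_pow (16 * Polynomial.X + 11 + P.comp (4 * Polynomial.X + 1))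
  refine ⟨.seq toDP p, k, fun x => ?_⟩
  have e1 := toDP_ex (O := O) x (init x []) rfl rfl
  have e2 : Ex O p (Function.update (init x []) 0 (toD x).enc)
      (Function.update (Function.update (init x []) 0 (toD x).enc) 0 (F (toD x)).enc)
      (P.eval (toD x).size) :=
    h (toD x) _ ⟨x, rfl⟩ (by simp) (fun r hr _ => by
      rw [Function.update_of_ne (by omega), init_nil x r hr])
  obtain ⟨t, ht, he⟩ := e1.seq e2
  have hT : t ≤ (x.length + 2) ^ k := by
    refine ht.trans (le_trans ?_ (hk x.length))
    have h1 := poly_mono P (size_bits x)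
    simp only [Polynomial.eval_comp, Polynomial.eval_add, Polynomial.eval_mul,
      Polynomial.eval_ofNat, Polynomial.eval_X, Polynomial.eval_one]
    omega
  have hrun := he.run hT
  unfold Halts Accepts
  rw [hrun]
  refine ⟨rfl, ?_⟩
  simp only [true_and, Function.update_self]
  rw [hF]
  cases A x <;> simp [ToD.toD, D.enc]

theorem inFP_of {f : List Bool → List Bool} (hf : PTime O f) : InFP O f := by
  obtain ⟨Q, hQ⟩ := hf.size_le
  obtain ⟨F, ⟨p, m, P, hp, hm, h⟩, hF⟩ := hf
  obtain ⟨k, hk⟩ := exists_pow (16 * Polynomial.X + 22 + P.comp (4 * Polynomial.X + 1) +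
    17 * Q.comp (4 * Polynomial.X + 1))
  refine ⟨.seq toDP (.seq p unDP), k, fun x => ?_⟩
  have e1 := toDP_ex (O := O) x (init x []) rfl rfl
  have e2 : Ex O p (Function.update (init x []) 0 (toD x).enc)
      (Function.update (Function.update (init x []) 0 (toD x).enc) 0 (F (toD x)).enc)
      (P.eval (toD x).size) :=
    h (toD x) _ ⟨x, rfl⟩ (by simp) (fun r hr _ => by
      rw [Function.update_of_ne (by omega), init_nil x r hr])
  rw [hF] at e2
  have e3 := unDP_ex (O := O) (f x) (Function.update (Function.update (init x []) 0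
    (toD x).enc) 0 (toD (f x)).enc) (by simp) (by simp [init])
  obtain ⟨t, ht, he⟩ := e1.seq (e2.seq e3)
  have hT : t ≤ (x.length + 2) ^ k := by
    refine ht.trans (le_trans ?_ (hk x.length))
    have h1 := poly_mono P (size_bits x)
    have h2 := hQ x
    have h3 := poly_mono Q (size_bits x)
    have h4 : (f x).length ≤ sz (f x) := length_le_sz _
    have h5 : Q.eval (sz x) = Q.eval (toD x).size := rfl
    simp only [Polynomial.eval_comp, Polynomial.eval_add, Polynomial.eval_mul,
      Polynomial.eval_ofNat, Polynomial.eval_X, Polynomial.eval_one]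
    omega
  have hrun := he.run hT
  unfold Halts
  rw [hrun]
  exact ⟨rfl, by simp⟩

/-! ### renaming registers -/

/-- rename the registers of a program -/
def ren (ρ : ℕ → ℕ) : Cmd → Cmd
  | .skip => .skip
  | .push r b => .push (ρ r) b
  | .pop r => .pop (ρ r)
  | .seq p q => .seq (ren ρ p) (ren ρ q)
  | .cond r p q s => .cond (ρ r) (ren ρ p) (ren ρ q) (ren ρ s)
  | .loop r p => .loop (ρ r) (ren ρ p)
  | .ask r p q => .ask (ρ r) (ren ρ p) (ren ρ q)

theorem ren_exec {ρ : ℕ → ℕ} (hρ : Function.Injective ρ) {p : Cmd} {σ σ' : Store} {t : ℕ}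
    (h : Exec O p σ σ' t) : ∀ τ : Store, (∀ r, τ (ρ r) = σ r) →
      ∃ τ' : Store, Exec O (ren ρ p) τ τ' t ∧ (∀ r, τ' (ρ r) = σ' r) ∧
        ∀ j, (∀ s, ρ s ≠ j) → τ' j = τ j := by
  have key : ∀ (τ : Store) (σ : Store) (r : ℕ) (l : List Bool), (∀ r, τ (ρ r) = σ r) →
      ∀ s, Function.update τ (ρ r) l (ρ s) = Function.update σ r l s := by
    intro τ σ r l hτ s
    by_cases hs : s = r
    · subst hs; simp
    · rw [Function.update_of_ne hs, Function.update_of_ne (fun h => hs (hρ h)), hτ]
  induction h with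
  | skip σ => intro τ hτ; exact ⟨τ, Exec.skip τ, hτ, fun _ _ => rfl⟩
  | push r b σ =>
    intro τ hτ
    refine ⟨_, Exec.push (ρ r) b τ, ?_, fun j hj => Function.update_of_ne (hj r).symm _ _⟩
    rw [hτ]
    exact key τ σ r _ hτ
  | pop r σ =>
    intro τ hτ
    refine ⟨_, Exec.pop (ρ r) τ, ?_, fun j hj => Function.update_of_ne (hj r).symm _ _⟩
    rw [hτ]
    exact key τ σ r _ hτ
  | seq _ _ ih1 ih2 =>
    intro τ hτ
    obtain ⟨τ1, h1, h2, h3⟩ := ih1 τ hτ
    obtain ⟨τ2, h4, h5, h6⟩ := ih2 τ1 h2
    exact ⟨τ2, Exec.seq h1 h4, h5, fun j hj => (h6 j hj).trans (h3 j hj)⟩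
  | loop_nil hr =>
    intro τ hτ
    exact ⟨τ, Exec.loop_nil (by rw [hτ, hr]), hτ, fun _ _ => rfl⟩
  | loop_cons hr _ _ ih1 ih2 =>
    intro τ hτ
    obtain ⟨τ1, h1, h2, h3⟩ := ih1 τ hτ
    obtain ⟨τ2, h4, h5, h6⟩ := ih2 τ1 h2
    exact ⟨τ2, Exec.loop_cons (by rw [hτ]; exact hr) h1 h4, h5,
      fun j hj => (h6 j hj).trans (h3 j hj)⟩
  | case_nil hr _ ih =>
    intro τ hτ
    obtain ⟨τ1, h1, h2, h3⟩ := ih τ hτ
    exact ⟨τ1, Exec.case_nil (by rw [hτ, hr]) h1, h2, h3⟩
  | case_false hr _ ih =>
    intro τ hτ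
    obtain ⟨τ1, h1, h2, h3⟩ := ih τ hτ
    exact ⟨τ1, Exec.case_false (by rw [hτ, hr]) h1, h2, h3⟩
  | case_true hr _ ih =>
    intro τ hτ
    obtain ⟨τ1, h1, h2, h3⟩ := ih τ hτ
    exact ⟨τ1, Exec.case_true (by rw [hτ, hr]) h1, h2, h3⟩
  | ask_false hr _ ih =>
    intro τ hτ
    obtain ⟨τ1, h1, h2, h3⟩ := ih τ hτ
    exact ⟨τ1, Exec.ask_false (by rw [hτ, hr]) h1, h2, h3⟩
  | ask_true hr _ ih =>
    intro τ hτ
    obtain ⟨τ1, h1, h2, h3⟩ := ih τ hτ
    exact ⟨τ1, Exec.ask_true (by rw [hτ, hr]) h1, h2, h3⟩

/-- the renaming that avoids register `1` -/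
def ren1 (r : ℕ) : ℕ := if r = 0 then 0 else r + 1

theorem ren1_inj : Function.Injective ren1 := by
  intro a b h
  unfold ren1 at h
  split at h <;> split at h <;> omega

/-- running a program of a typed function with register `1` in use -/
theorem ren_run {F : D → D} {p : Cmd} {m : ℕ} {P : Polynomial ℕ} {V : D → Prop}
    (h : ∀ (x : D) (σ : Store), V x → σ 0 = x.enc → (∀ r, 1 ≤ r → r < m → σ r = []) →
      ∃ t ≤ P.eval x.size, Exec O p σ (Function.update σ 0 (F x).enc) t)
    (x : D) (hx : V x) (τ : Store) (h0 : τ 0 = x.enc) (h2 : ∀ r, 2 ≤ r → τ r = []) :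
    Ex O (ren ren1 p) τ (Function.update τ 0 (F x).enc) (P.eval x.size) := by
  obtain ⟨t, ht, he⟩ := h x (fun r => τ (ren1 r)) hx (by simpa [ren1] using h0)
    (fun r hr _ => by
      show τ (ren1 r) = []
      rw [ren1, if_neg (by omega)]
      exact h2 (r + 1) (by omega))
  obtain ⟨τ', h3, h4, h5⟩ := ren_exec ren1_inj he τ (fun _ => rfl)
  refine ⟨t, ht, ?_⟩
  have : τ' = Function.update τ 0 (F x).enc := by
    funext j
    by_cases hj : j = 0
    · subst hj
      have := h4 0
      simpa [ren1] using this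
    · rw [Function.update_of_ne hj]
      by_cases hj1 : j = 1
      · subst hj1
        refine h5 1 (fun s hs => ?_)
        unfold ren1 at hs
        split at hs <;> omega
      · have h6 := h4 (j - 1)
        have h7 : ren1 (j - 1) = j := by
          unfold ren1
          rw [if_neg (by omega)]
          omega
        rw [h7, Function.update_of_ne (by omega)] at h6
        rw [h6, h7]
  rw [← this]
  exact h3

/-! ### NP -/

/-- move as many bits from register `1` to register `2` as the unary code at the beginning of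
register `0` says -/
def takeB : Cmd :=
  .loop 3 (.cond 0 .skip (.seq (.pop 0) (.pop 3)) (.seq (.pop 0) (.seq (.pop 0)
    (.cond 1 .skip (.seq (.pop 1) (.push 2 false)) (.seq (.pop 1) (.push 2 true))))))

/-- stores with four active registers -/
def S4 (σ : Store) (a b c d : List Bool) : Store
  | 0 => a
  | 1 => b
  | 2 => c
  | 3 => d
  | n + 4 => σ (n + 4)

theorem S4_u0 (σ : Store) (a b c d l : List Bool) :
    Function.update (S4 σ a b c d) 0 l = S4 σ l b c d := by
  funext k
  match k with
  | 0 => simp [S4]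
  | 1 => simp [S4]
  | 2 => simp [S4]
  | 3 => simp [S4]
  | n + 4 => simp [S4]

theorem S4_u1 (σ : Store) (a b c d l : List Bool) :
    Function.update (S4 σ a b c d) 1 l = S4 σ a l c d := by
  funext k
  match k with
  | 0 => simp [S4]
  | 1 => simp [S4]
  | 2 => simp [S4]
  | 3 => simp [S4]
  | n + 4 => simp [S4]

theorem S4_u2 (σ : Store) (a b c d l : List Bool) :
    Function.update (S4 σ a b c d) 2 l = S4 σ a b l d := by
  funext k
  match k with
  | 0 => simp [S4]
  | 1 => simp [S4]
  | 2 => simp [S4]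
  | 3 => simp [S4]
  | n + 4 => simp [S4]

theorem S4_u3 (σ : Store) (a b c d l : List Bool) :
    Function.update (S4 σ a b c d) 3 l = S4 σ a b c l := by
  funext k
  match k with
  | 0 => simp [S4]
  | 1 => simp [S4]
  | 2 => simp [S4]
  | 3 => simp [S4]
  | n + 4 => simp [S4]

theorem takeB_ex (σ : Store) : ∀ (N : ℕ) (w y c : List Bool),
    Ex O takeB (S4 σ ((toD (List.replicate N ())).enc ++ w) y c [true])
      (S4 σ w (y.drop N) ((y.take N).reverse ++ c) []) (12 * N + 10)
  | 0, w, y, c => by
    have h0 : S4 σ ((toD (List.replicate 0 ())).enc ++ w) y c [true] 0 = false :: w := rfl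
    refine (Ex.loop_cons (by simp [S4]) (Ex.case_false h0 ((Ex.pop 0 _).seq (Ex.pop 3 _)))
      (Ex.loop_nil ?_)).cast' ?_ (by norm_num)
    · simp [S4]
    · rw [h0, S4_u0, S4_u3]
      simp [S4]
  | N + 1, w, y, c => by
    have h0 : S4 σ ((toD (List.replicate (N + 1) ())).enc ++ w) y c [true] 0 =
      true :: false :: ((toD (List.replicate N ())).enc ++ w) := rfl
    have h1 : S4 σ ((toD (List.replicate (N + 1) ())).enc ++ w) y c [true] =
      S4 σ (true :: false :: ((toD (List.replicate N ())).enc ++ w)) y c [true] := rfl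
    have e2 := takeB_ex σ N w
    cases y with
    | nil =>
      have e3 := e2 [] c
      refine (Ex.loop_cons (by simp [S4]) (Ex.case_true h0 ((Ex.pop 0 _).seq ((Ex.pop 0 _).seq
        (Ex.case_nil (by simp [S4]) (Ex.skip _))))) ?_).cast' (σ' := S4 σ w ([].drop N)
          (([].take N).reverse ++ c) []) (T := 7 + (12 * N + 10) + 1) (by simp) (by omega)
      rw [h1, S4_u0, S4_u0]
      exact e3
    | cons b y' =>
      have e3 := e2 y' (b :: c)
      refine (Ex.loop_cons (by simp [S4]) (Ex.case_true h0 ((Ex.pop 0 _).seq ((Ex.pop 0 _).seq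
        (σ2 := S4 σ ((toD (List.replicate N ())).enc ++ w) y' (b :: c) [true]) (T2 := 4) ?_)))
        e3).cast' (by simp) (by omega)
      rw [h1, S4_u0, S4_u0]
      cases b with
      | false =>
        refine (Ex.case_false (l := y') rfl ((Ex.pop 1 _).seq (Ex.push 2 false _))).cast' ?_
          (by norm_num)
        rw [S4_u1, S4_u2]
        rfl
      | true =>
        refine (Ex.case_true (l := y') rfl ((Ex.pop 1 _).seq (Ex.push 2 true _))).cast' ?_
          (by norm_num)
        rw [S4_u1, S4_u2]
        rfl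

/-- the program of `inNP_of` -/
def npP (pU pV : Cmd) : Cmd :=
  .seq (mv 0 2) (.seq (.push 0 false) (.seq (conv 2) (.seq (ren ren1 pU)
    (.seq (.pop 0) (.seq (.push 3 true) (.seq takeB (.seq (.push 0 false) (.seq (conv 2)
    (.seq (.push 0 true) (ren ren1 pV))))))))))

theorem inNP_of {A : Lang} {V : List Bool × List Bool → Bool} (hV : PTime O V) {B : ℕ → ℕ}
    (hB : UPoly O B)
    (h1 : ∀ x, A x = true → ∃ y, y.length ≤ B x.length ∧ V (x, y) = true)
    (h2 : ∀ x y, V (x, y) = true → A x = true) : InNP O A := by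
  have hV' : PTime O (fun q : List Bool × List Bool => V (q.2, q.1)) :=
    hV.comp (PTime.id.snd.pair PTime.id.fst)
  have hU : PTime O (fun x : List Bool => (List.replicate (B x.length) (), x)) :=
    (hB.comp (PTime.id (α := List Bool))).pair PTime.id
  obtain ⟨QB, hQB⟩ := hB.bound
  obtain ⟨FV, ⟨pV, mV, PV, _, _, hV1⟩, hFV⟩ := hV'
  obtain ⟨FU, ⟨pU, mU, PU, _, _, hU1⟩, hFU⟩ := hU
  obtain ⟨k, hk⟩ := exists_pow (16 * Polynomial.X + 40 + 23 * QB +
    PU.comp (4 * Polynomial.X + 1) + PV.comp (4 * QB + 4 * Polynomial.X + 3))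
  refine ⟨npP pU pV, k, ?_⟩
  -- the run
  have hrun : ∀ x y : List Bool, ∃ t ≤ (x.length + 2) ^ k, ∃ σ' : Store, Exec O
      (npP pU pV) (init x y) σ' t ∧
      σ' 0 = (toD (V (x, y.take (B x.length)))).enc := by
    intro x y
    have hi : init x y = S4 (fun _ => []) x y [] [] := by
      funext r
      match r with
      | 0 => rfl
      | 1 => rfl
      | 2 => rfl
      | 3 => rfl
      | n + 4 => rfl
    have hS : ∀ a b r, 2 ≤ r → S4 (fun _ => []) a b [] [] r = [] := by
      intro a b r hr
      match r, hr with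
      | 2, _ => rfl
      | 3, _ => rfl
      | n + 4, _ => rfl
    set N := B x.length with hN
    have e1 : Ex O (mv 0 2) (init x y) (S4 (fun _ => []) [] y x.reverse []) (5 * x.length + 1) := by
      have := mv_ex (O := O) (r := 0) (s := 2) (by decide) x (init x y) rfl
      rw [hi, S4_u2, S4_u0] at this
      rw [hi]
      simpa [S4] using this
    have e2 : Ex O (.push 0 false) (S4 (fun _ => []) [] y x.reverse [])
        (S4 (fun _ => []) [false] y x.reverse []) 1 := by
      have := Ex.push (O := O) 0 false (S4 (fun _ => []) [] y x.reverse [])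
      rw [S4_u0] at this
      exact this
    have e3 : Ex O (conv 2) (S4 (fun _ => []) [false] y x.reverse [])
        (S4 (fun _ => []) (toD x).enc y [] []) (11 * x.length + 1) := by
      have := conv_ex (O := O) (r := 2) (by decide) x.reverse [] []
        (S4 (fun _ => []) [false] y x.reverse []) rfl rfl
      rw [S4_u2, S4_u0] at this
      simpa using this
    have e4 : Ex O (ren ren1 pU) (S4 (fun _ => []) (toD x).enc y [] [])
        (S4 (fun _ => []) (true :: ((toD (List.replicate N ())).enc ++ (toD x).enc)) y [] [])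
        (PU.eval (toD x).size) := by
      have := ren_run hU1 (toD x) ⟨x, rfl⟩ (S4 (fun _ => []) (toD x).enc y [] []) rfl
        (hS _ _)
      rw [S4_u0, hFU] at this
      exact this
    have e5 : Ex O (.pop 0)
        (S4 (fun _ => []) (true :: ((toD (List.replicate N ())).enc ++ (toD x).enc)) y [] [])
        (S4 (fun _ => []) ((toD (List.replicate N ())).enc ++ (toD x).enc) y [] []) 1 := by
      have := Ex.pop (O := O) 0 (S4 (fun _ => [])
        (true :: ((toD (List.replicate N ())).enc ++ (toD x).enc)) y [] [])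
      rw [S4_u0] at this
      exact this
    have e6 : Ex O (.push 3 true)
        (S4 (fun _ => []) ((toD (List.replicate N ())).enc ++ (toD x).enc) y [] [])
        (S4 (fun _ => []) ((toD (List.replicate N ())).enc ++ (toD x).enc) y [] [true]) 1 := by
      have := Ex.push (O := O) 3 true (S4 (fun _ => [])
        ((toD (List.replicate N ())).enc ++ (toD x).enc) y [] [])
      rw [S4_u3] at this
      exact this
    have e7 := takeB_ex (O := O) (fun _ => []) N (toD x).enc y []
    rw [List.append_nil] at e7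
    have e8 : Ex O (.push 0 false)
        (S4 (fun _ => []) (toD x).enc (y.drop N) (y.take N).reverse [])
        (S4 (fun _ => []) (false :: (toD x).enc) (y.drop N) (y.take N).reverse []) 1 := by
      have := Ex.push (O := O) 0 false (S4 (fun _ => [])
        (toD x).enc (y.drop N) (y.take N).reverse [])
      rw [S4_u0] at this
      exact this
    have e9 : Ex O (conv 2)
        (S4 (fun _ => []) (false :: (toD x).enc) (y.drop N) (y.take N).reverse [])
        (S4 (fun _ => []) ((toD (y.take N)).enc ++ (toD x).enc) (y.drop N) [] [])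
        (11 * N + 1) := by
      have := conv_ex (O := O) (r := 2) (by decide) (y.take N).reverse [] (toD x).enc
        (S4 (fun _ => []) (false :: (toD x).enc) (y.drop N) (y.take N).reverse []) rfl rfl
      rw [S4_u2, S4_u0, List.reverse_reverse, List.append_nil] at this
      refine this.mono ?_
      rw [List.length_reverse, List.length_take]
      omega
    have e10 : Ex O (.push 0 true)
        (S4 (fun _ => []) ((toD (y.take N)).enc ++ (toD x).enc) (y.drop N) [] [])
        (S4 (fun _ => []) (toD (y.take N, x)).enc (y.drop N) [] []) 1 := by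
      have := Ex.push (O := O) 0 true (S4 (fun _ => [])
        ((toD (y.take N)).enc ++ (toD x).enc) (y.drop N) [] [])
      rw [S4_u0] at this
      exact this
    have e11 : Ex O (ren ren1 pV) (S4 (fun _ => []) (toD (y.take N, x)).enc (y.drop N) [] [])
        (S4 (fun _ => []) (toD (V (x, y.take N))).enc (y.drop N) [] [])
        (PV.eval (toD (y.take N, x)).size) := by
      have := ren_run hV1 (toD (y.take N, x)) ⟨_, rfl⟩
        (S4 (fun _ => []) (toD (y.take N, x)).enc (y.drop N) [] []) rfl (hS _ _)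
      rw [S4_u0, hFV] at this
      exact this
    obtain ⟨t, ht, he⟩ := e1.seq (e2.seq (e3.seq (e4.seq (e5.seq (e6.seq (e7.seq (e8.seq
      (e9.seq (e10.seq e11)))))))))
    refine ⟨t, ht.trans (le_trans ?_ (hk x.length)), _, he, rfl⟩
    have g1 := poly_mono PU (size_bits x)
    have g2 : (toD (y.take N, x)).size ≤ 4 * QB.eval x.length + 4 * x.length + 3 := by
      have g3 : (toD (y.take N, x)).size = (toD (y.take N)).size + (toD x).size + 1 := rfl
      have g4 := size_bits x
      have g5 := size_bits (y.take N)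
      have g6 : (y.take N).length ≤ N := by rw [List.length_take]; omega
      have g7 := hQB x.length
      omega
    have g3 := poly_mono PV g2
    have g4 := hQB x.length
    simp only [Polynomial.eval_comp, Polynomial.eval_add, Polynomial.eval_mul,
      Polynomial.eval_ofNat, Polynomial.eval_X, Polynomial.eval_one]
    omega
  have hacc : ∀ x y : List Bool, Halts O (npP pU pV) x y ((x.length + 2) ^ k) ∧
      (Accepts O (npP pU pV) x y ((x.length + 2) ^ k) ↔
        V (x, y.take (B x.length)) = true) := by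
    intro x y
    obtain ⟨t, ht, σ', he, h0⟩ := hrun x y
    have := he.run ht
    unfold Halts Accepts
    rw [this]
    refine ⟨rfl, ?_⟩
    simp only [true_and]
    rw [h0]
    cases V (x, y.take (B x.length)) <;> simp [ToD.toD, D.enc]
  have hBk : ∀ x : List Bool, B x.length ≤ (x.length + 2) ^ k := by
    intro x
    refine le_trans ?_ (hk x.length)
    have g4 := hQB x.length
    simp only [Polynomial.eval_comp, Polynomial.eval_add, Polynomial.eval_mul,
      Polynomial.eval_ofNat, Polynomial.eval_X, Polynomial.eval_one]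
    omega
  refine ⟨fun x y _ => (hacc x y).1, fun x => ⟨fun hx => ?_, fun hx => ?_⟩⟩
  · obtain ⟨y, hy, hVy⟩ := h1 x hx
    refine ⟨y, hy.trans (hBk x), ((hacc x y).2).mpr ?_⟩
    rw [List.take_of_length_le hy]
    exact hVy
  · obtain ⟨y, _, hy⟩ := hx
    exact h2 x _ (((hacc x y).2).mp hy)

end Pool.Agent.CKP
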