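import Pool.Agent.Lib_helper74.NE.ExtB

/-! Machine level: conversions between raw bit strings and codes, oracle queries. -/

set_option autoImplicit false
set_option linter.unusedSectionVars false

namespace Pool.Agent.CKP

open Pool.Agent.CK

variable {O : Lang}
variable {α β γ δ : Type} [ToD α] [ToD β] [ToD γ] [ToD δ]

theorem Ex.ask_false {r : ℕ} {pf pt : Cmd} {σ σ' : Store} {T : ℕ} (hr : O (σ r) = false)
    (h : Ex O pf σ σ' T) : Ex O (.ask r pf pt) σ σ' (T + 1) := by
  obtain ⟨t, ht, he⟩ := h
  exact ⟨t + 1, by omega, Exec.ask_false hr he⟩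

theorem Ex.ask_true {r : ℕ} {pf pt : Cmd} {σ σ' : Store} {T : ℕ} (hr : O (σ r) = true)
    (h : Ex O pt σ σ' T) : Ex O (.ask r pf pt) σ σ' (T + 1) := by
  obtain ⟨t, ht, he⟩ := h
  exact ⟨t + 1, by omega, Exec.ask_true hr he⟩

/-! ### from raw bits to codes -/

/-- push the bits of register `r` as a coded list on register `0` -/
def conv (r : ℕ) : Cmd :=
  .loop r (.cond r .skip (.seq (.pop r) (.seq (.push 0 false) (.push 0 true)))
    (.seq (.pop r) (.seq (.push 0 false) (.seq (.push 0 false)
      (.seq (.push 0 true) (.push 0 true))))))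

theorem conv_bdd {r m : ℕ} (hr : r < m) : Bdd m (conv r) := by
  have h0 : 0 < m := by omega
  simp [conv, Bdd, hr, h0]

theorem enc_false (l : List Bool) : (toD (false :: l)).enc = true :: false :: (toD l).enc := rfl
theorem enc_true (l : List Bool) :
    (toD (true :: l)).enc = true :: true :: false :: false :: (toD l).enc := rfl

theorem conv_ex {r : ℕ} (hr : r ≠ 0) : ∀ (l acc w : List Bool) (σ : Store), σ r = l →
    σ 0 = (toD acc).enc ++ w →
    Ex O (conv r) σ (Function.update (Function.update σ r []) 0
      ((toD (l.reverse ++ acc)).enc ++ w)) (11 * l.length + 1)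
  | [], acc, w, σ, h, h0 => by
    refine (Ex.loop_nil h).cast ?_
    rw [List.reverse_nil, List.nil_append, ← h0, ← h, Function.update_eq_self,
      Function.update_eq_self]
  | b :: l, acc, w, σ, h, h0 => by
    have hne : σ r ≠ [] := by simp [h]
    have hr' : (0 : ℕ) ≠ r := hr.symm
    set σ1 : Store := Function.update (Function.update σ r l) 0 ((toD (b :: acc)).enc ++ w)
      with hσ1
    have h1 : Ex O (.cond r .skip (.seq (.pop r) (.seq (.push 0 false) (.push 0 true)))
      (.seq (.pop r) (.seq (.push 0 false) (.seq (.push 0 false)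
      (.seq (.push 0 true) (.push 0 true)))))) σ σ1 10 := by
      cases b with
      | false =>
        refine (Ex.case_false h ((Ex.pop r σ).seq ((Ex.push 0 false _).seq
          (Ex.push 0 true _)))).cast' ?_ (by norm_num)
        rw [hσ1, enc_false]
        simp [h, Function.update_of_ne hr', h0]
      | true =>
        refine (Ex.case_true h ((Ex.pop r σ).seq ((Ex.push 0 false _).seq
          ((Ex.push 0 false _).seq ((Ex.push 0 true _).seq (Ex.push 0 true _)))))).cast' ?_
          (by norm_num)
        rw [hσ1, enc_true]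
        simp [h, Function.update_of_ne hr', h0]
    have h2 := conv_ex hr l (b :: acc) w σ1 (by rw [hσ1]; simp [Function.update_of_ne hr])
      (by rw [hσ1]; simp)
    refine (Ex.loop_cons hne h1 h2).cast' ?_ (by rw [List.length_cons]; omega)
    funext k
    by_cases g1 : k = 0
    · subst g1; simp
    · by_cases g2 : k = r
      · subst g2; simp [Function.update_of_ne g1]
      · simp [hσ1, Function.update_of_ne g1, Function.update_of_ne g2]

/-- raw content of register `0` to a coded list (uses register `1`) -/
def toDP : Cmd := .seq (mv 0 1) (.seq (.push 0 false) (conv 1))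

theorem toDP_bdd {m : ℕ} (h : 1 < m) : Bdd m toDP :=
  ⟨mv_bdd (by omega) h, by show 0 < m; omega, conv_bdd h⟩

theorem toDP_ex (l : List Bool) (σ : Store) (h0 : σ 0 = l) (h1 : σ 1 = []) :
    Ex O toDP σ (Function.update σ 0 (toD l).enc) (16 * l.length + 10) := by
  have e1 := mv_ex (O := O) (r := 0) (s := 1) (by decide) l σ h0
  set σ1 : Store := Function.update (Function.update σ 1 (l.reverse ++ σ 1)) 0 [] with hσ1
  have e2 := Ex.push (O := O) 0 false σ1
  set σ2 : Store := Function.update σ1 0 (false :: σ1 0) with hσ2
  have e3 := conv_ex (O := O) (r := 1) (by decide) l.reverse [] [] σ2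
    (by rw [hσ2, hσ1]; simp [h1]) (by rw [hσ2, hσ1]; simp; rfl)
  refine (e1.seq (e2.seq e3)).cast' ?_ (by simp; omega)
  rw [List.reverse_reverse, List.append_nil, List.append_nil]
  funext k
  by_cases g1 : k = 0
  · subst g1; simp
  · by_cases g2 : k = 1
    · subst g2; simp [h1]
    · simp [hσ2, hσ1, Function.update_of_ne g1, Function.update_of_ne g2]

/-- the prefix code as a list of bits -/
theorem PTime.enc {f : α → D} (hf : PTime O f) : PTime O (fun a => (f a).enc) := by
  have h : PTime O (fun d : D => d.enc) := by
    refine ⟨fun d => toD d.enc, ?_, fun d => rfl⟩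
    refine CD.mk toDP 2 (16 * Polynomial.X + 10) (toDP_bdd (by omega)) (by omega)
      (fun x σ _ h0 he => ?_)
    refine (toDP_ex x.enc σ h0 (he 1 le_rfl (by omega))).mono ?_
    simp
  exact h.comp hf

/-! ### from codes to raw bits -/

/-- decode the coded list in register `0` to register `1`, reversed -/
def unDB : Cmd :=
  .loop 0 (.cond 0 .skip (.pop 0) (.seq (.pop 0) (.cond 0 .skip
    (.seq (.pop 0) (.push 1 false))
    (.seq (.pop 0) (.seq (.pop 0) (.seq (.pop 0) (.push 1 true)))))))

theorem unDB_ex : ∀ (l : List Bool) (σ : Store), σ 0 = (toD l).enc →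
    Ex O unDB σ (Function.update (Function.update σ 1 (l.reverse ++ σ 1)) 0 [])
      (12 * l.length + 5)
  | [], σ, h => by
    have h0 : σ 0 = [false] := h
    have e1 : Ex O (.cond 0 .skip (.pop 0) (.seq (.pop 0) (.cond 0 .skip
        (.seq (.pop 0) (.push 1 false))
        (.seq (.pop 0) (.seq (.pop 0) (.seq (.pop 0) (.push 1 true))))))) σ
        (Function.update σ 0 []) 2 := by
      refine (Ex.case_false h0 (Ex.pop 0 σ)).cast ?_
      rw [h0]; rfl
    refine (Ex.loop_cons (by rw [h0]; simp) e1 (Ex.loop_nil (by simp))).cast' ?_ (by simp)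
    funext k
    by_cases g1 : k = 0
    · subst g1; simp
    · by_cases g2 : k = 1
      · subst g2; simp
      · simp [Function.update_of_ne g1, Function.update_of_ne g2]
  | b :: l, σ, h => by
    have hne : σ 0 ≠ [] := by rw [h]; cases b <;> simp [enc_false, enc_true]
    set σ1 : Store := Function.update (Function.update σ 1 (b :: σ 1)) 0 (toD l).enc with hσ1
    have e1 : Ex O (.cond 0 .skip (.pop 0) (.seq (.pop 0) (.cond 0 .skip
        (.seq (.pop 0) (.push 1 false))
        (.seq (.pop 0) (.seq (.pop 0) (.seq (.pop 0) (.push 1 true))))))) σ σ1 11 := by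
      cases b with
      | false =>
        rw [enc_false] at h
        refine (Ex.case_true h ((Ex.pop 0 σ).seq (Ex.case_false (l := (toD l).enc) ?_
          ((Ex.pop 0 _).seq (Ex.push 1 false _))))).cast' ?_ (by norm_num)
        · simp [h]
        · rw [hσ1]
          funext k
          by_cases g1 : k = 0
          · subst g1; simp [h]
          · by_cases g2 : k = 1
            · subst g2; simp
            · simp [Function.update_of_ne g1, Function.update_of_ne g2]
      | true =>
        rw [enc_true] at h
        refine (Ex.case_true h ((Ex.pop 0 σ).seq (Ex.case_true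
          (l := false :: false :: (toD l).enc) ?_
          ((Ex.pop 0 _).seq ((Ex.pop 0 _).seq ((Ex.pop 0 _).seq (Ex.push 1 true _))))))).cast' ?_
          (by norm_num)
        · simp [h]
        · rw [hσ1]
          funext k
          by_cases g1 : k = 0
          · subst g1; simp [h]
          · by_cases g2 : k = 1
            · subst g2; simp
            · simp [Function.update_of_ne g1, Function.update_of_ne g2]
    have h2 := unDB_ex l σ1 (by rw [hσ1]; simp)
    refine (Ex.loop_cons hne e1 h2).cast' ?_ (by rw [List.length_cons]; omega)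
    funext k
    by_cases g1 : k = 0
    · subst g1; simp
    · by_cases g2 : k = 1
      · subst g2; simp [hσ1]
      · simp [hσ1, Function.update_of_ne g1, Function.update_of_ne g2]

/-- coded list in register `0` to its raw content (uses register `1`) -/
def unDP : Cmd := .seq unDB (mv 1 0)

theorem unDP_bdd {m : ℕ} (h : 1 < m) : Bdd m unDP := by
  have h0 : 0 < m := by omega
  refine ⟨?_, mv_bdd h h0⟩
  simp [unDB, Bdd, h, h0]

theorem unDP_ex (l : List Bool) (σ : Store) (h0 : σ 0 = (toD l).enc) (h1 : σ 1 = []) :
    Ex O unDP σ (Function.update σ 0 l) (17 * l.length + 10) := by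
  have e1 := unDB_ex (O := O) l σ h0
  set σ1 : Store := Function.update (Function.update σ 1 (l.reverse ++ σ 1)) 0 [] with hσ1
  have e2 := mv_ex (O := O) (r := 1) (s := 0) (by decide) l.reverse σ1
    (by rw [hσ1]; simp [h1])
  refine (e1.seq e2).cast' ?_ (by simp; omega)
  funext k
  by_cases g1 : k = 1
  · subst g1; simp [h1]
  · by_cases g2 : k = 0
    · subst g2; simp [hσ1]
    · simp [hσ1, Function.update_of_ne g1, Function.update_of_ne g2]

/-- The oracle query. -/
theorem PTime.ask {f : α → List Bool} (hf : PTime O f) : PTime O (fun a => O (f a)) := by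
  have h : PTime O (fun l : List Bool => O l) := by
    refine ⟨fun d => toD (O (CKP.toBits d)), ?_, fun l => by
      show toD (O (CKP.toBits (toD l))) = _
      rw [toBits_toD]⟩
    refine CD.mk (.seq unDP (.ask 0 (.seq (clr 0) (pushAll 0 (toD false).enc))
      (.seq (clr 0) (pushAll 0 (toD true).enc)))) 2 (19 * Polynomial.X + 30)
      ⟨unDP_bdd (by omega), by omega, ⟨clr_bdd (by omega), pushAll_bdd (by omega) _⟩,
        ⟨clr_bdd (by omega), pushAll_bdd (by omega) _⟩⟩ (by omega) (fun x σ hx h0 he => ?_)
    obtain ⟨l, rfl⟩ := hx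
    have e1 := unDP_ex (O := O) l σ h0 (he 1 le_rfl (by omega))
    have hlen : l.length ≤ (toD l).size := length_le_sz l
    have hend : ∀ b : Bool, O l = b → Ex O (.seq (clr 0) (pushAll 0 (toD b).enc))
        (Function.update σ 0 l) (Function.update σ 0 (toD b).enc) (2 * l.length + 10) := by
      intro b _
      have e2 := clr_ex (O := O) 0 l (Function.update σ 0 l) (by simp)
      have e3 := pushAll_ex (O := O) 0 (toD b).enc (Function.update (Function.update σ 0 l) 0 [])
      refine (e2.seq e3).cast' (by simp) ?_
      cases b <;> simp [show (toD true).enc.length = 3 from rfl,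
        show (toD false).enc.length = 1 from rfl, show (toD true).size = 3 from rfl,
        show (toD false).size = 1 from rfl]
    rw [toBits_toD]
    cases hO : O l with
    | false =>
      refine (e1.seq (Ex.ask_false (by simpa using hO) (hend false hO))).mono ?_
      simp only [Polynomial.eval_add, Polynomial.eval_mul, Polynomial.eval_X,
        Polynomial.eval_ofNat]
      omega
    | true =>
      refine (e1.seq (Ex.ask_true (by simpa using hO) (hend true hO))).mono ?_
      simp only [Polynomial.eval_add, Polynomial.eval_mul, Polynomial.eval_X,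
        Polynomial.eval_ofNat]
      omega
  exact h.comp hf

/-! ### more oracles -/

/-- the program that asks only the first part of a joined oracle -/
def liftP : Cmd → Cmd
  | .skip => .skip
  | .push r b => .push r b
  | .pop r => .pop r
  | .seq p q => .seq (liftP p) (liftP q)
  | .cond r p q s => .cond r (liftP p) (liftP q) (liftP s)
  | .loop r p => .loop r (liftP p)
  | .ask r p q => .seq (.push r false) (.ask r (.seq (.pop r) (liftP p))
      (.seq (.pop r) (liftP q)))

theorem liftP_bdd {m : ℕ} : ∀ {p : Cmd}, Bdd m p → Bdd m (liftP p)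
  | .skip, _ => trivial
  | .push _ _, h => h
  | .pop _, h => h
  | .seq _ _, h => ⟨liftP_bdd h.1, liftP_bdd h.2⟩
  | .cond _ _ _ _, h => ⟨h.1, liftP_bdd h.2.1, liftP_bdd h.2.2.1, liftP_bdd h.2.2.2⟩
  | .loop _ _, h => ⟨h.1, liftP_bdd h.2⟩
  | .ask _ _ _, h => ⟨h.1, h.1, ⟨h.1, liftP_bdd h.2.1⟩, ⟨h.1, liftP_bdd h.2.2⟩⟩

theorem liftP_ex {B : Lang} {p : Cmd} {σ σ' : Store} {t : ℕ} (h : Exec O p σ σ' t) :
    Ex (join O B) (liftP p) σ σ' (6 * t) := by
  induction h with
  | skip σ => exact (Ex.skip σ).mono (by omega)
  | push r b σ => exact (Ex.push r b σ).mono (by omega)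
  | pop r σ => exact (Ex.pop r σ).mono (by omega)
  | seq _ _ ih1 ih2 => exact (ih1.seq ih2).mono (by omega)
  | loop_nil hr => exact (Ex.loop_nil hr).mono (by omega)
  | loop_cons hr _ _ ih1 ih2 => exact (Ex.loop_cons hr ih1 ih2).mono (by omega)
  | case_nil hr _ ih => exact (Ex.case_nil hr ih).mono (by omega)
  | @case_false r p0 pf pt σ σ' t hr _ ih =>
    obtain ⟨l, hl⟩ : ∃ l, σ r = false :: l := by
      cases h : σ r with
      | nil => simp [h] at hr
      | cons a l => simp [h] at hr; exact ⟨l, by rw [hr]⟩
    exact (Ex.case_false hl ih).mono (by omega)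
  | @case_true r p0 pf pt σ σ' t hr _ ih =>
    obtain ⟨l, hl⟩ : ∃ l, σ r = true :: l := by
      cases h : σ r with
      | nil => simp [h] at hr
      | cons a l => simp [h] at hr; exact ⟨l, by rw [hr]⟩
    exact (Ex.case_true hl ih).mono (by omega)
  | @ask_false r pf pt σ σ' t hr _ ih =>
    have e1 := Ex.push (O := join O B) r false σ
    have e2 : Ex (join O B) (.pop r) (Function.update σ r (false :: σ r)) σ 1 := by
      refine (Ex.pop r _).cast ?_
      simp
    refine (e1.seq (Ex.ask_false ?_ (e2.seq ih))).mono (by omega)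
    simpa [join] using hr
  | @ask_true r pf pt σ σ' t hr _ ih =>
    have e1 := Ex.push (O := join O B) r false σ
    have e2 : Ex (join O B) (.pop r) (Function.update σ r (false :: σ r)) σ 1 := by
      refine (Ex.pop r _).cast ?_
      simp
    refine (e1.seq (Ex.ask_true ?_ (e2.seq ih))).mono (by omega)
    simpa [join] using hr

/-- Polynomial time with oracle `O` is polynomial time with oracle `O ⊕ B`. -/
theorem PTime.lift {B : Lang} {f : α → β} (hf : PTime O f) : PTime (join O B) f := by
  obtain ⟨F, ⟨p, m, P, hp, hm, h⟩, hF⟩ := hf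
  refine ⟨F, CD.mk (liftP p) m (6 * P) (liftP_bdd hp) hm (fun x σ hx h0 he => ?_), hF⟩
  obtain ⟨t, ht, hex⟩ := h x σ hx h0 he
  refine (liftP_ex hex).mono ?_
  simp only [Polynomial.eval_mul, Polynomial.eval_ofNat]
  omega

theorem PTime.askR {B : Lang} {f : α → List Bool} (hf : PTime (join O B) f) :
    PTime (join O B) (fun a => B (f a)) :=
  (PTime.ask (O := join O B) (PTime.cons (PTime.const true) hf)).of_eq fun _ => rfl

end Pool.Agent.CKP
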