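import Pool.Agent.Lib_helper74.NE.PTB

/-! [NUM] binary arithmetic. -/

namespace Pool.Agent.CKP

open Pool.Agent.CK

variable {O : Lang}

set_option linter.unusedSectionVars false

variable {α β γ δ : Type} [ToD α] [ToD β] [ToD γ] [ToD δ]

theorem num_bits_cons {n : ℕ} (hn : n ≠ 0) : n.bits = n.bodd :: n.div2.bits := by
  conv_lhs => rw [← Nat.bit_bodd_div2 n]
  apply Nat.bits_append_bit
  intro h
  have h1 := Nat.bodd_add_div2 n
  rw [h] at h1
  cases hb : n.bodd
  · rw [hb] at h1
    simp at h1
    exact absurd h1.symm hn
  · rfl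

theorem num_bool_sz (b : Bool) : 1 ≤ sz b ∧ sz b ≤ 3 := by
  cases b
  · rw [sz_false]; omega
  · rw [sz_true]; omega

theorem num_list_sz (l : List Bool) : 2 * l.length + 1 ≤ sz l ∧ sz l ≤ 4 * l.length + 1 := by
  induction l with
  | nil => simp
  | cons b t ih =>
    rw [sz_cons, List.length_cons]
    have := num_bool_sz b
    omega

theorem sz_nat_le (n : ℕ) : sz n ≤ 4 * n.bits.length + 1 := (num_list_sz n.bits).2

theorem num_le_sz (n : ℕ) : 2 * n.size + 1 ≤ sz n := by
  have := (num_list_sz n.bits).1
  rw [← Nat.size_eq_bits_len]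
  exact this

theorem num_sz_le (n : ℕ) : sz n ≤ 4 * n.size + 1 := by
  rw [← Nat.size_eq_bits_len]
  exact sz_nat_le n

theorem sz_add_le (m n : ℕ) : sz (m + n) ≤ 2 * sz m + 2 * sz n + 4 := by
  have h1 := num_le_sz m
  have h2 := num_le_sz n
  have h3 := num_sz_le (m + n)
  have h4 : (m + n).size ≤ max m.size n.size + 1 := by
    rw [Nat.size_le, pow_succ]
    have h5 : m < 2 ^ max m.size n.size :=
      lt_of_lt_of_le (Nat.lt_size_self m) (Nat.pow_le_pow_right (by norm_num) (le_max_left _ _))
    have h6 : n < 2 ^ max m.size n.size :=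
      lt_of_lt_of_le (Nat.lt_size_self n) (Nat.pow_le_pow_right (by norm_num) (le_max_right _ _))
    omega
  have h7 : max m.size n.size ≤ m.size + n.size := by omega
  omega

theorem sz_sum_le (l : List ℕ) (B : ℕ) (h : ∀ n ∈ l, sz n ≤ B) :
    sz l.sum ≤ 8 * (B + l.length + 1) := by
  have h1 : l.sum ≤ l.length * 2 ^ B := by
    have := List.sum_le_card_nsmul l (2 ^ B) (fun n hn => by
      have h2 := h n hn
      have h3 := num_le_sz n
      have h4 : n.size ≤ B := by omega
      exact (lt_of_lt_of_le (Nat.lt_size_self n) (Nat.pow_le_pow_right (by norm_num) h4)).le)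
    simpa using this
  have h2 : l.length * 2 ^ B < 2 ^ (l.length + B) := by
    rw [pow_add]
    exact Nat.mul_lt_mul_of_pos_right Nat.lt_two_pow_self (by positivity)
  have h3 : l.sum.size ≤ l.length + B := by
    rw [Nat.size_le]
    exact lt_of_le_of_lt h1 h2
  have h4 := num_sz_le l.sum
  omega

theorem num_toD (n : ℕ) : toD n = toD n.bits := rfl

theorem PTime.div2 {f : α → ℕ} (hf : PTime O f) : PTime O (fun a => (f a).div2) := by
  obtain ⟨F, hF, hf⟩ := hf
  refine ⟨fun x => D.cdr (F x), (CD.cdr (fun _ => True)).comp hF (fun _ _ => trivial), fun a => ?_⟩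
  show D.cdr (F (toD a)) = _
  rw [hf]
  show _ = toD (f a).div2
  by_cases h : f a = 0
  · rw [h]
    rfl
  · rw [num_toD, num_toD, num_bits_cons h]
    rfl
theorem PTime.bodd {f : α → ℕ} (hf : PTime O f) : PTime O (fun a => (f a).bodd) := by
  obtain ⟨F, hF, hf⟩ := hf
  refine ⟨fun x => D.car (F x), (CD.car (fun _ => True)).comp hF (fun _ _ => trivial), fun a => ?_⟩
  show D.car (F (toD a)) = _
  rw [hf]
  show _ = toD (f a).bodd
  by_cases h : f a = 0
  · rw [h]
    rfl
  · rw [num_toD, num_bits_cons h]
    rfl
theorem PTime.isZero {f : α → ℕ} (hf : PTime O f) : PTime O (fun a => decide (f a = 0)) := by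
  obtain ⟨F, hF, hf⟩ := hf
  refine ⟨fun x => if F x = .nil then toD true else toD false,
    CD.ite hF (CD.const _ _) (CD.const _ _), fun a => ?_⟩
  show (if F (toD a) = .nil then toD true else toD false) = toD (decide (f a = 0))
  rw [hf]
  by_cases h : f a = 0
  · rw [h, if_pos (show toD (0 : ℕ) = D.nil from rfl)]
    rfl
  · rw [num_toD, num_bits_cons h, if_neg (fun hh => D.noConfusion hh)]
    simp [h]
theorem PTime.bits {f : α → ℕ} (hf : PTime O f) : PTime O (fun a => (f a).bits) := by
  obtain ⟨F, hF, hf⟩ := hf
  exact ⟨F, hF, hf⟩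
theorem PTime.of_bits {f : α → ℕ} (hf : PTime O (fun a => (f a).bits)) : PTime O f := by
  obtain ⟨F, hF, hf⟩ := hf
  exact ⟨F, hF, hf⟩

theorem num_sz_div2 (n : ℕ) : sz n.div2 ≤ sz n := by
  by_cases h : n = 0
  · rw [h]
    exact le_rfl
  · have h1 : sz n = sz n.bits := rfl
    have h2 : sz n.div2 = sz n.div2.bits := rfl
    rw [h1, h2, num_bits_cons h, sz_cons]
    omega

theorem num_size_div2 {n : ℕ} (h : n ≠ 0) : n.size = n.div2.size + 1 := by
  rw [← Nat.size_eq_bits_len, ← Nat.size_eq_bits_len, num_bits_cons h, List.length_cons]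

/-- exclusive or of three digits -/
def num_xor (a b c : Bool) : Bool := if a = true then (if b = true then c else !c)
  else (if b = true then !c else c)

/-- majority of three digits -/
def num_maj (a b c : Bool) : Bool := if a = true then (b || c) else (b && c)

/-- one step of the addition -/
def num_step (s : ℕ × ℕ × Bool × List Bool) : ℕ × ℕ × Bool × List Bool :=
  if (decide (s.1 = 0) && decide (s.2.1 = 0)) = true then
    (if s.2.2.1 = true then (0, 0, false, true :: s.2.2.2) else s)
  else (s.1.div2, s.2.1.div2, num_maj s.1.bodd s.2.1.bodd s.2.2.1,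
    num_xor s.1.bodd s.2.1.bodd s.2.2.1 :: s.2.2.2)

theorem PTime.xor3 {a b c : α → Bool} (ha : PTime O a) (hb : PTime O b) (hc : PTime O c) :
    PTime O (fun x => num_xor (a x) (b x) (c x)) := by
  unfold num_xor
  exact PTime.ite ha (PTime.ite hb hc hc.not) (PTime.ite hb hc.not hc)
theorem PTime.maj3 {a b c : α → Bool} (ha : PTime O a) (hb : PTime O b) (hc : PTime O c) :
    PTime O (fun x => num_maj (a x) (b x) (c x)) := by
  unfold num_maj
  exact PTime.ite ha (hb.or hc) (hb.and hc)

theorem num_step_ptime : PTime O num_step := by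
  unfold num_step
  have h1 : PTime O (fun s : ℕ × ℕ × Bool × List Bool => s.1) := PTime.id.fst
  have h2 : PTime O (fun s : ℕ × ℕ × Bool × List Bool => s.2.1) := PTime.id.snd.fst
  have h3 : PTime O (fun s : ℕ × ℕ × Bool × List Bool => s.2.2.1) := PTime.id.snd.snd.fst
  have h4 : PTime O (fun s : ℕ × ℕ × Bool × List Bool => s.2.2.2) := PTime.id.snd.snd.snd
  refine PTime.ite (h1.isZero.and h2.isZero) (PTime.ite h3 ?_ PTime.id) ?_
  · exact (PTime.const 0).pair ((PTime.const 0).pair ((PTime.const false).pair
      ((PTime.const true).cons h4)))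
  · exact h1.div2.pair (h2.div2.pair ((PTime.maj3 h1.bodd h2.bodd h3).pair
      ((PTime.xor3 h1.bodd h2.bodd h3).cons h4)))

theorem num_step_sz (s : ℕ × ℕ × Bool × List Bool) : sz (num_step s) ≤ sz s + 6 := by
  obtain ⟨m, n, c, o⟩ := s
  unfold num_step
  simp only
  split_ifs
  · rw [sz_pair, sz_pair, sz_pair, sz_pair, sz_pair, sz_pair, sz_cons, sz_true, sz_false]
    have h1 := num_bool_sz c
    have h2 : sz (0 : ℕ) = 1 := rfl
    have h3 := sz_pos m
    have h4 := sz_pos n
    omega
  · omega
  · rw [sz_pair, sz_pair, sz_pair, sz_pair, sz_pair, sz_pair, sz_cons]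
    have h1 := num_bool_sz c
    have h2 := num_sz_div2 m
    have h3 := num_sz_div2 n
    have h4 := num_bool_sz (num_maj m.bodd n.bodd c)
    have h5 := num_bool_sz (num_xor m.bodd n.bodd c)
    omega

theorem num_add_bodd (m n : ℕ) (c : Bool) :
    (m + n + c.toNat).bodd = num_xor m.bodd n.bodd c := by
  rw [Nat.bodd_add, Nat.bodd_add]
  cases m.bodd <;> cases n.bodd <;> cases c <;> rfl

theorem num_add_div2 (m n : ℕ) (c : Bool) :
    (m + n + c.toNat).div2 = m.div2 + n.div2 + (num_maj m.bodd n.bodd c).toNat := by
  have h1 := Nat.bodd_add_div2 m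
  have h2 := Nat.bodd_add_div2 n
  have h3 := Nat.bodd_add_div2 (m + n + c.toNat)
  rw [num_add_bodd] at h3
  revert h1 h2 h3
  cases m.bodd <;> cases n.bodd <;> cases c <;> simp [num_xor, num_maj] <;> omega

theorem num_step_iter : ∀ (k m n : ℕ) (c : Bool) (o : List Bool),
    m.size + n.size + c.toNat ≤ k → ∃ o', (num_step)^[k] (m, n, c, o) = (0, 0, false, o') ∧
      o'.reverse = o.reverse ++ (m + n + c.toNat).bits := by
  intro k
  induction k with
  | zero =>
    intro m n c o h
    have h1 : m.size = 0 := by omega
    have h2 : n.size = 0 := by omega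
    have h3 : c.toNat = 0 := by omega
    have h4 : m = 0 := Nat.size_eq_zero.mp h1
    have h5 : n = 0 := Nat.size_eq_zero.mp h2
    have h6 : c = false := by
      cases c
      · rfl
      · simp at h3
    refine ⟨o, ?_, ?_⟩
    · rw [h4, h5, h6]
      rfl
    · rw [h4, h5, h6]
      simp
  | succ k ih =>
    intro m n c o h
    rw [Function.iterate_succ_apply]
    by_cases hmn : m = 0 ∧ n = 0
    · obtain ⟨rfl, rfl⟩ := hmn
      cases c
      · have h1 : num_step (0, 0, false, o) = (0, 0, false, o) := rfl
        rw [h1]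
        exact ih 0 0 false o (by simp)
      · have h1 : num_step (0, 0, true, o) = (0, 0, false, true :: o) := rfl
        rw [h1]
        obtain ⟨o', ho', hr⟩ := ih 0 0 false (true :: o) (by simp)
        refine ⟨o', ho', ?_⟩
        rw [hr]
        simp
    · have h1 : num_step (m, n, c, o) = (m.div2, n.div2, num_maj m.bodd n.bodd c,
          num_xor m.bodd n.bodd c :: o) := by
        unfold num_step
        simp only
        rw [if_neg]
        simp only [Bool.and_eq_true, decide_eq_true_eq]
        exact hmn
      rw [h1]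
      obtain ⟨o', ho', hr⟩ := ih m.div2 n.div2 (num_maj m.bodd n.bodd c)
          (num_xor m.bodd n.bodd c :: o) (by
        by_cases hm : m = 0
        · have hn : n ≠ 0 := fun hn => hmn ⟨hm, hn⟩
          have h2 := num_size_div2 hn
          rw [hm]
          have h3 : (num_maj (Nat.bodd 0) n.bodd c).toNat ≤ c.toNat := by
            cases n.bodd <;> cases c <;> simp [num_maj]
          have h4 : (Nat.div2 0).size = 0 := by simp
          omega
        · by_cases hn : n = 0
          · have h2 := num_size_div2 hm
            rw [hn]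
            have h3 : (num_maj m.bodd (Nat.bodd 0) c).toNat ≤ c.toNat := by
              cases m.bodd <;> cases c <;> simp [num_maj]
            have h4 : (Nat.div2 0).size = 0 := by simp
            omega
          · have h2 := num_size_div2 hm
            have h3 := num_size_div2 hn
            have h4 : (num_maj m.bodd n.bodd c).toNat ≤ 1 := Bool.toNat_le _
            omega)
      refine ⟨o', ho', ?_⟩
      have h5 : m + n + c.toNat ≠ 0 := by
        intro h6
        exact hmn ⟨by omega, by omega⟩
      rw [hr, num_bits_cons h5, num_add_bodd, num_add_div2]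
      simp

theorem PTime.nat_add {f g : α → ℕ} (hf : PTime O f) (hg : PTime O g) :
    PTime O (fun a => f a + g a) := by
  apply PTime.of_bits
  have hclock : PTime O (fun a => (f a).bits ++ (g a).bits) := hf.bits.append hg.bits
  have h := PTime.foldl_add (l := fun a => (f a).bits ++ (g a).bits)
    (i := fun a => ((f a, g a, false, []) : ℕ × ℕ × Bool × List Bool))
    (s := fun _ s _ => num_step s) hclock
    (hf.pair (hg.pair ((PTime.const false).pair (PTime.const []))))
    (num_step_ptime.comp PTime.id.snd.fst) (Polynomial.C 6) (by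
      intro x b a _
      rw [Polynomial.eval_C]
      exact num_step_sz b)
  refine (h.snd.snd.snd.reverse).of_eq fun a => ?_
  rw [List.foldl_const]
  obtain ⟨o', ho', hr⟩ := num_step_iter ((f a).bits ++ (g a).bits).length (f a) (g a) false [] (by
    rw [List.length_append, Nat.size_eq_bits_len, Nat.size_eq_bits_len]
    simp)
  rw [ho', hr]
  simp

/-- one step of the comparison -/
def num_cstep (s : ℕ × ℕ × Bool) : ℕ × ℕ × Bool :=
  (s.1.div2, s.2.1.div2, if s.1.bodd = true then (s.2.1.bodd && s.2.2)
    else (s.2.1.bodd || s.2.2))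

theorem num_cstep_ptime : PTime O num_cstep := by
  unfold num_cstep
  have h1 : PTime O (fun s : ℕ × ℕ × Bool => s.1) := PTime.id.fst
  have h2 : PTime O (fun s : ℕ × ℕ × Bool => s.2.1) := PTime.id.snd.fst
  have h3 : PTime O (fun s : ℕ × ℕ × Bool => s.2.2) := PTime.id.snd.snd
  exact h1.div2.pair (h2.div2.pair (PTime.ite h1.bodd (h2.bodd.and h3) (h2.bodd.or h3)))

theorem num_cstep_iter : ∀ (k m n : ℕ) (v : Bool), m.size + n.size ≤ k →
    (num_cstep)^[k] (m, n, v) = (0, 0, (decide (m < n) || (decide (m = n) && v))) := by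
  intro k
  induction k with
  | zero =>
    intro m n v h
    have h4 : m = 0 := Nat.size_eq_zero.mp (by omega)
    have h5 : n = 0 := Nat.size_eq_zero.mp (by omega)
    rw [h4, h5]
    simp
  | succ k ih =>
    intro m n v h
    rw [Function.iterate_succ_apply]
    have h1 : num_cstep (m, n, v) = (m.div2, n.div2, if m.bodd = true then (n.bodd && v)
      else (n.bodd || v)) := rfl
    rw [h1, ih]
    · have h2 := Nat.bodd_add_div2 m
      have h3 := Nat.bodd_add_div2 n
      congr 2
      obtain ⟨p, hp⟩ : ∃ p, p = m.div2 := ⟨_, rfl⟩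
      obtain ⟨q, hq⟩ : ∃ p, p = n.div2 := ⟨_, rfl⟩
      rw [← hp] at h2 ⊢
      rw [← hq] at h3 ⊢
      rcases lt_trichotomy p q with hpq | hpq | hpq
      · have a1 : m < n := by
          have := Bool.toNat_le m.bodd
          omega
        simp [hpq, a1]
      · revert h2 h3
        cases m.bodd <;> cases n.bodd <;> intro h2 h3 <;> simp at h2 h3
        · have a1 : ¬ m < n := by omega
          have a2 : m = n := by omega
          simp [hpq, a2]
        · have a1 : m < n := by omega
          simp [hpq, a1]
        · have a1 : ¬ m < n := by omega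
          have a2 : ¬ m = n := by omega
          simp [hpq, a1, a2]
        · have a1 : ¬ m < n := by omega
          have a2 : m = n := by omega
          simp [hpq, a2]
      · have a1 : ¬ m < n := by
          have := Bool.toNat_le n.bodd
          omega
        have a2 : ¬ m = n := by
          have := Bool.toNat_le n.bodd
          omega
        have a3 : ¬ p < q := by omega
        have a4 : ¬ p = q := by omega
        simp [a1, a2, a3, a4]
    · by_cases hm : m = 0
      · by_cases hn : n = 0
        · rw [hm, hn]; simp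
        · have := num_size_div2 hn
          rw [hm] at h ⊢
          have h4 : (Nat.div2 0).size = 0 := by simp
          have h5 : Nat.size 0 = 0 := by simp
          omega
      · have := num_size_div2 hm
        by_cases hn : n = 0
        · rw [hn] at h ⊢
          have h4 : (Nat.div2 0).size = 0 := by simp
          omega
        · have := num_size_div2 hn
          omega

theorem PTime.nat_le {f g : α → ℕ} (hf : PTime O f) (hg : PTime O g) :
    PTime O (fun a => decide (f a ≤ g a)) := by
  have hclock : PTime O (fun a => (f a).bits ++ (g a).bits) := hf.bits.append hg.bits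
  have h := PTime.foldl_add (l := fun a => (f a).bits ++ (g a).bits)
    (i := fun a => ((f a, g a, true) : ℕ × ℕ × Bool))
    (s := fun _ s _ => num_cstep s) hclock
    (hf.pair (hg.pair (PTime.const true)))
    (num_cstep_ptime.comp PTime.id.snd.fst) (Polynomial.C 6) (by
      intro x b a _
      rw [Polynomial.eval_C]
      obtain ⟨m, n, c⟩ := b
      show sz ((m.div2, n.div2, if m.bodd = true then (n.bodd && c)
        else (n.bodd || c)) : ℕ × ℕ × Bool) ≤ _
      rw [sz_pair, sz_pair, sz_pair, sz_pair]
      have h2 := num_sz_div2 m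
      have h3 := num_sz_div2 n
      have h4 := num_bool_sz c
      have h5 := num_bool_sz (if m.bodd = true then (n.bodd && c) else (n.bodd || c))
      omega)
  refine (h.snd.snd).of_eq fun a => ?_
  rw [List.foldl_const, num_cstep_iter]
  · rcases lt_trichotomy (f a) (g a) with h | h | h
    · simp [h, h.le]
    · simp [h]
    · simp [h, h.ne', h.le, not_lt.mpr h.le]
  · rw [List.length_append, Nat.size_eq_bits_len, Nat.size_eq_bits_len]

theorem PTime.sum {l : γ → List α} {f : γ → α → ℕ} (hl : PTime O l)
    (hf : PTime O (fun p : γ × α => f p.1 p.2)) : PTime O (fun x => ((l x).map (f x)).sum) := by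
  have hm := hl.map hf
  obtain ⟨P, hP⟩ := hm.size_le
  have h := PTime.foldl (l := fun x => (l x).map (f x)) (i := fun _ => (0 : ℕ))
    (s := fun _ b n => b + n) hm (PTime.const 0)
    (PTime.nat_add PTime.id.snd.fst PTime.id.snd.snd) (8 * (P + P + 1)) (by
      intro x l' hl'
      have h1 : l'.foldl (fun b n => b + n) 0 = l'.sum := List.sum_eq_foldl.symm
      rw [h1]
      have h2 := hP x
      have h3 : ∀ n ∈ l', sz n ≤ P.eval (sz x) := by
        intro n hn
        exact (sz_le_of_mem (hl'.subset hn)).trans h2
      have h4 := sz_sum_le l' _ h3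
      have h5 : l'.length ≤ P.eval (sz x) :=
        (hl'.length_le.trans (length_le_sz _)).trans h2
      have h6 : (8 : Polynomial ℕ).eval (sz x) = 8 := by
        have : (8 : Polynomial ℕ) = Polynomial.C 8 := rfl
        rw [this, Polynomial.eval_C]
      rw [Polynomial.eval_mul, Polynomial.eval_add, Polynomial.eval_add, h6, eval_one']
      omega)
  exact h.of_eq fun x => List.sum_eq_foldl.symm

theorem num_list_bound (L : List α) (B : ℕ) (h : ∀ a ∈ L, sz a ≤ B) :
    sz L ≤ L.length * (B + 1) + 1 := by
  induction L with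
  | nil => simp
  | cons a t ih =>
    have h1 := ih (fun b hb => h b (List.mem_cons_of_mem _ hb))
    have h2 := h a List.mem_cons_self
    rw [sz_cons, List.length_cons]
    calc sz a + sz t + 1 ≤ B + (t.length * (B + 1) + 1) + 1 := by omega
      _ = (t.length + 1) * (B + 1) + 1 := by ring

theorem num_zip_fold (l : List α) : ∀ (n : ℕ) (r : List (α × ℕ)),
    l.foldl (fun (q : ℕ × List (α × ℕ)) a => (q.1 + 1, (a, q.1) :: q.2)) (n, r) =
      (n + l.length, (l.zipIdx n).reverse ++ r) := by
  induction l with
  | nil => intro n r; simp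
  | cons a t ih =>
    intro n r
    rw [List.foldl_cons, ih]
    simp only [List.length_cons, List.zipIdx_cons, List.reverse_cons, List.append_assoc,
      List.cons_append, List.nil_append, Prod.mk.injEq, and_true]
    omega

theorem PTime.zipIdx {l : γ → List α} (hl : PTime O l) :
    PTime O (fun x => (l x).zipIdx) := by
  obtain ⟨P, hP⟩ := hl.size_le
  have hs : PTime O (fun p : γ × (ℕ × List (α × ℕ)) × α =>
      ((p.2.1.1 + 1, (p.2.2, p.2.1.1) :: p.2.1.2) : ℕ × List (α × ℕ))) := by
    have h2 : PTime O (fun p : γ × (ℕ × List (α × ℕ)) × α => p.2.2) := PTime.id.snd.snd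
    have h3 : PTime O (fun p : γ × (ℕ × List (α × ℕ)) × α => p.2.1.1) := PTime.id.snd.fst.fst
    have h4 : PTime O (fun p : γ × (ℕ × List (α × ℕ)) × α => p.2.1.2) := PTime.id.snd.fst.snd
    exact (h3.nat_add (PTime.const 1)).pair ((h2.pair h3).cons h4)
  have h := PTime.foldl (l := l) (i := fun _ => ((0, []) : ℕ × List (α × ℕ)))
    (s := fun _ (q : ℕ × List (α × ℕ)) a => (q.1 + 1, (a, q.1) :: q.2)) hl (PTime.const _) hs
    (4 * P + 3 + P * (5 * P + 3)) (by
      intro x l' hl'
      rw [num_zip_fold, sz_pair, List.append_nil, Nat.zero_add]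
      have h2 := hP x
      have h5 : l'.length ≤ P.eval (sz x) :=
        (hl'.length_le.trans (length_le_sz _)).trans h2
      have h6 : sz l'.length ≤ 4 * l'.length + 1 := by
        refine (num_sz_le _).trans ?_
        have : l'.length.size ≤ l'.length := by
          rw [Nat.size_le]
          exact Nat.lt_two_pow_self
        omega
      have h7 : sz (l'.zipIdx.reverse) ≤ l'.length * (5 * P.eval (sz x) + 2 + 1) + 1 := by
        have h8 := num_list_bound (l'.zipIdx.reverse) (5 * P.eval (sz x) + 2) (by
          intro q hq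
          rw [List.mem_reverse] at hq
          obtain ⟨a, i⟩ := q
          have h9 := List.mem_zipIdx' hq
          rw [sz_pair]
          have h10 : a ∈ l' := by
            rw [h9.2]
            exact List.getElem_mem _
          have h11 : sz a ≤ P.eval (sz x) := (sz_le_of_mem (hl'.subset h10)).trans h2
          have h12 : sz i ≤ 4 * i + 1 := by
            refine (num_sz_le _).trans ?_
            have : i.size ≤ i := by
              rw [Nat.size_le]
              exact Nat.lt_two_pow_self
            omega
          have h13 := h9.1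
          omega)
        rwa [List.length_reverse, List.length_zipIdx] at h8
      have h8 : l'.length * (5 * P.eval (sz x) + 2 + 1) ≤
          P.eval (sz x) * (5 * P.eval (sz x) + 3) := by
        gcongr
      have c4 : (4 : Polynomial ℕ).eval (sz x) = 4 := by
        have : (4 : Polynomial ℕ) = Polynomial.C 4 := rfl
        rw [this, Polynomial.eval_C]
      have c3 : (3 : Polynomial ℕ).eval (sz x) = 3 := by
        have : (3 : Polynomial ℕ) = Polynomial.C 3 := rfl
        rw [this, Polynomial.eval_C]
      have c5 : (5 : Polynomial ℕ).eval (sz x) = 5 := by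
        have : (5 : Polynomial ℕ) = Polynomial.C 5 := rfl
        rw [this, Polynomial.eval_C]
      simp only [Polynomial.eval_add, Polynomial.eval_mul, c3, c4, c5]
      omega)
  refine (h.snd.reverse).of_eq fun x => ?_
  rw [num_zip_fold]
  simp

end Pool.Agent.CKP
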