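import Mathlib

/-! Growth estimates. -/

set_option autoImplicit false

namespace Pool.Agent.CKP

theorem growth0 {C δ ε : ℝ} (hC : 0 ≤ C) (hδ : 0 < δ) (hε : δ < ε) :
    ∃ B : ℝ, 0 ≤ B ∧ ∀ X : ℝ, 0 ≤ X → C * X ^ δ ≤ X ^ ε + B := by
  have hd : 0 < ε - δ := by linarith
  refine ⟨C * ((C ^ (1 / (ε - δ))) ^ δ), by positivity, fun X hX => ?_⟩
  by_cases h : C ≤ X ^ (ε - δ)
  · have h1 : C * X ^ δ ≤ X ^ (ε - δ) * X ^ δ := mul_le_mul_of_nonneg_right h (by positivity)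
    rcases hX.eq_or_lt with h0 | h0
    · rw [← h0, Real.zero_rpow hδ.ne', mul_zero]
      positivity
    · rw [← Real.rpow_add h0, sub_add_cancel] at h1
      have : 0 ≤ C * ((C ^ (1 / (ε - δ))) ^ δ) := by positivity
      linarith
  · push_neg at h
    have h1 : X ≤ C ^ (1 / (ε - δ)) := by
      have h2 : (X ^ (ε - δ)) ^ (1 / (ε - δ)) ≤ C ^ (1 / (ε - δ)) :=
        Real.rpow_le_rpow (by positivity) h.le (by positivity)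
      rwa [← Real.rpow_mul hX, mul_one_div_cancel hd.ne', Real.rpow_one] at h2
    have h3 : X ^ δ ≤ (C ^ (1 / (ε - δ))) ^ δ := Real.rpow_le_rpow hX h1 hδ.le
    have h4 : C * X ^ δ ≤ C * ((C ^ (1 / (ε - δ))) ^ δ) := mul_le_mul_of_nonneg_left h3 hC
    have : 0 ≤ X ^ ε := by positivity
    linarith

theorem growth1 {C D δ ε : ℝ} (hC : 0 ≤ C) (hδ : 0 < δ) (hε : δ < ε) :
    ∃ a : ℕ, ∀ X T : ℝ, 0 ≤ X → T ≤ (2 : ℝ) ^ (C * X ^ δ + D) → T ≤ a * (2 : ℝ) ^ (X ^ ε) := by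
  obtain ⟨B, _, hB⟩ := growth0 hC hδ hε
  refine ⟨⌈(2 : ℝ) ^ (B + D)⌉₊, fun X T hX hT => ?_⟩
  have h1 := hB X hX
  have h2 : (2 : ℝ) ^ (C * X ^ δ + D) ≤ (2 : ℝ) ^ (X ^ ε + (B + D)) :=
    Real.rpow_le_rpow_of_exponent_le (by norm_num) (by linarith)
  rw [Real.rpow_add (by norm_num) (X ^ ε) (B + D)] at h2
  have h3 : (2 : ℝ) ^ (B + D) ≤ (⌈(2 : ℝ) ^ (B + D)⌉₊ : ℝ) := Nat.le_ceil _
  have h4 : (2 : ℝ) ^ (X ^ ε) * (2 : ℝ) ^ (B + D) ≤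
      (2 : ℝ) ^ (X ^ ε) * (⌈(2 : ℝ) ^ (B + D)⌉₊ : ℝ) :=
    mul_le_mul_of_nonneg_left h3 (by positivity)
  linarith

/-- `log₂ Y` is at most a constant times `Y ^ δ` -/
theorem growth2 {δ : ℝ} (hδ : 0 < δ) : ∃ K : ℝ, 0 ≤ K ∧ ∀ Y : ℝ, 0 < Y →
    Y ≤ (2 : ℝ) ^ (K * Y ^ δ) := by
  refine ⟨1 / (δ * Real.log 2), by positivity, fun Y hY => ?_⟩
  have h1 := Real.log_le_rpow_div hY.le hδ
  have h2 : (0 : ℝ) < Real.log 2 := Real.log_pos (by norm_num)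
  rw [Real.rpow_def_of_pos (by norm_num : (0 : ℝ) < 2), ← Real.log_le_iff_le_exp hY]
  calc Real.log Y ≤ Y ^ δ / δ := h1
    _ = Real.log 2 * (1 / (δ * Real.log 2) * Y ^ δ) := by field_simp

/-- first estimate: inputs of length `n`, time polynomial in `n + 2 ^ e`, `e ≤ n ^ δ + 1` -/
theorem growthA (k : ℕ) {δ ε : ℝ} (hδ : 0 < δ) (hε : δ < ε) :
    ∃ a : ℕ, ∀ (n e : ℕ), (e : ℝ) ≤ (n : ℝ) ^ δ + 1 →
      (((n + 2 ^ e + 2) ^ k : ℕ) : ℝ) ≤ a * (2 : ℝ) ^ ((n : ℝ) ^ ε) := by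
  obtain ⟨K, hK, hKY⟩ := growth2 hδ
  -- (n + 3) ^ δ ≤ 4 ^ δ * (n ^ δ + 1)
  obtain ⟨a, ha⟩ := growth1 (C := k * (K * 4 ^ δ + 1)) (D := k * (K * 4 ^ δ + 1)) (δ := δ) (ε := ε)
    (by positivity) hδ hε
  refine ⟨a, fun n e he => ha n _ (Nat.cast_nonneg n) ?_⟩
  have h1 : ((n + 2 ^ e + 2 : ℕ) : ℝ) ≤ ((n : ℝ) + 3) * 2 ^ (e : ℝ) := by
    push_cast
    rw [Real.rpow_natCast]
    have h2 : (1 : ℝ) ≤ 2 ^ e := one_le_pow₀ (by norm_num)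
    have h3 : (0 : ℝ) ≤ n := Nat.cast_nonneg n
    nlinarith
  have h2 : ((n : ℝ) + 3) ^ δ ≤ 4 ^ δ * ((n : ℝ) ^ δ + 1) := by
    rcases Nat.eq_zero_or_pos n with h0 | h0
    · subst h0
      rw [Nat.cast_zero, Real.zero_rpow hδ.ne', zero_add, zero_add, mul_one]
      exact Real.rpow_le_rpow (by norm_num) (by norm_num) hδ.le
    · have h3 : (1 : ℝ) ≤ n := by exact_mod_cast h0
      have h4 : ((n : ℝ) + 3) ^ δ ≤ (4 * (n : ℝ)) ^ δ :=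
        Real.rpow_le_rpow (by positivity) (by linarith) hδ.le
      rw [Real.mul_rpow (by norm_num) (by positivity)] at h4
      have : (0 : ℝ) ≤ 4 ^ δ := by positivity
      nlinarith
  have h3 : (n : ℝ) + 3 ≤ (2 : ℝ) ^ (K * (4 ^ δ * ((n : ℝ) ^ δ + 1))) :=
    (hKY _ (by positivity)).trans (Real.rpow_le_rpow_of_exponent_le (by norm_num)
      (mul_le_mul_of_nonneg_left h2 hK))
  have h4 : ((n + 2 ^ e + 2 : ℕ) : ℝ) ≤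
      (2 : ℝ) ^ (K * (4 ^ δ * ((n : ℝ) ^ δ + 1)) + ((n : ℝ) ^ δ + 1)) := by
    rw [Real.rpow_add (by norm_num)]
    refine h1.trans ?_
    refine mul_le_mul h3 (Real.rpow_le_rpow_of_exponent_le (by norm_num) he) (by positivity)
      (by positivity)
  rw [Nat.cast_pow]
  calc (((n + 2 ^ e + 2 : ℕ) : ℝ)) ^ k
      ≤ ((2 : ℝ) ^ (K * (4 ^ δ * ((n : ℝ) ^ δ + 1)) + ((n : ℝ) ^ δ + 1))) ^ k :=
        pow_le_pow_left₀ (by positivity) h4 k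
    _ = (2 : ℝ) ^ ((K * (4 ^ δ * ((n : ℝ) ^ δ + 1)) + ((n : ℝ) ^ δ + 1)) * k) := by
        rw [← Real.rpow_natCast, ← Real.rpow_mul (by norm_num)]
    _ = (2 : ℝ) ^ (k * (K * 4 ^ δ + 1) * (n : ℝ) ^ δ + k * (K * 4 ^ δ + 1)) := by
        congr 1
        ring

/-- second estimate: inputs of length `n`, time polynomial in `2 ^ (n + 1) + 2 ^ e`,
`e ≤ (2 ^ (n + 1)) ^ δ + 1` -/
theorem growthB (k : ℕ) {δ ε : ℝ} (hδ : 0 < δ) (hε : δ < ε) :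
    ∃ a : ℕ, ∀ (n e : ℕ), (e : ℝ) ≤ ((2 : ℝ) ^ (n + 1)) ^ δ + 1 →
      (((n + (2 ^ (n + 1) + 2 ^ e) + 2) ^ k : ℕ) : ℝ) ≤ a * (2 : ℝ) ^ ((2 : ℝ) ^ (ε * n)) := by
  obtain ⟨K, hK, hKY⟩ := growth2 hδ
  obtain ⟨a, ha⟩ := growth1 (C := k * (K + 2 ^ δ)) (D := k * 5) (δ := δ) (ε := ε)
    (by positivity) hδ hε
  refine ⟨a, fun n e he => ?_⟩
  have hX : (2 : ℝ) ^ (ε * n) = ((2 : ℝ) ^ (n : ℝ)) ^ ε := by
    rw [← Real.rpow_mul (by norm_num), mul_comm]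
  rw [hX]
  refine ha ((2 : ℝ) ^ (n : ℝ)) _ (by positivity) ?_
  set X := (2 : ℝ) ^ (n : ℝ) with hXd
  have hXp : 0 < X := by positivity
  have hXn : X = 2 ^ n := Real.rpow_natCast 2 n
  have h0 : ((2 : ℝ) ^ (n + 1)) ^ δ = 2 ^ δ * X ^ δ := by
    rw [pow_succ, mul_comm, ← hXn, Real.mul_rpow (by norm_num) hXp.le]
  have hn : (n : ℝ) + 1 ≤ 2 ^ n := by
    have : n + 1 ≤ 2 ^ n := Nat.lt_two_pow_self
    exact_mod_cast this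
  have h1 : ((n + (2 ^ (n + 1) + 2 ^ e) + 2 : ℕ) : ℝ) ≤ X * (2 ^ (4 : ℝ)) * 2 ^ (e : ℝ) := by
    push_cast
    rw [Real.rpow_natCast, hXn, pow_succ]
    have h2 : (1 : ℝ) ≤ 2 ^ e := one_le_pow₀ (by norm_num)
    have h3 : (1 : ℝ) ≤ 2 ^ n := one_le_pow₀ (by norm_num)
    have h4 : (2 : ℝ) ^ (4 : ℝ) = 16 := by norm_num
    rw [h4]
    nlinarith [mul_le_mul h3 h2 (by norm_num) (by positivity)]
  have h4 : ((n + (2 ^ (n + 1) + 2 ^ e) + 2 : ℕ) : ℝ) ≤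
      (2 : ℝ) ^ (K * X ^ δ + 4 + (2 ^ δ * X ^ δ + 1)) := by
    rw [Real.rpow_add (by norm_num), Real.rpow_add (by norm_num)]
    refine h1.trans ?_
    have h5 := hKY X hXp
    have h6 : (2 : ℝ) ^ (e : ℝ) ≤ 2 ^ (2 ^ δ * X ^ δ + 1) :=
      Real.rpow_le_rpow_of_exponent_le (by norm_num) (by rw [← h0]; exact he)
    refine mul_le_mul (mul_le_mul_of_nonneg_right h5 (by positivity)) h6 (by positivity)
      (by positivity)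
  rw [Nat.cast_pow]
  calc (((n + (2 ^ (n + 1) + 2 ^ e) + 2 : ℕ) : ℝ)) ^ k
      ≤ ((2 : ℝ) ^ (K * X ^ δ + 4 + (2 ^ δ * X ^ δ + 1))) ^ k :=
        pow_le_pow_left₀ (by positivity) h4 k
    _ = (2 : ℝ) ^ ((K * X ^ δ + 4 + (2 ^ δ * X ^ δ + 1)) * k) := by
        rw [← Real.rpow_natCast, ← Real.rpow_mul (by norm_num)]
    _ = (2 : ℝ) ^ (k * (K + 2 ^ δ) * X ^ δ + k * 5) := by
        congr 1
        ring

end Pool.Agent.CKP
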