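import Pool.Agent.Lib_helper74.NE.Main
import Pool.Agent.Lib_helper74.NE.Growth

/-! Assembly. -/

set_option autoImplicit false
set_option linter.unusedSectionVars false

namespace Pool.Agent.CKP

open Pool.Agent.CK

variable {O : Lang}
variable {α β γ δ : Type} [ToD α] [ToD β] [ToD γ] [ToD δ]

/-! ### more about `XT` -/

theorem XT.mono {f : α → β} {g g' : α → ℕ} (h : XT O f g) (Q : Polynomial ℕ)
    (hQ : ∀ a, g a ≤ Q.eval (sz a + g' a)) : XT O f g' := by
  obtain ⟨p, m, P, hp⟩ := h
  refine ⟨p, m, P.comp (Polynomial.X + Q), fun a σ h0 he => (hp a σ h0 he).mono ?_⟩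
  rw [Polynomial.eval_comp]
  refine poly_mono P ?_
  have := hQ a
  simp only [Polynomial.eval_add, Polynomial.eval_X]
  omega

/-- the output of an `XT` computation is not longer than its running time -/
theorem XT.out_le {f : α → β} {g : α → ℕ} (h : XT O f g) :
    ∃ P : Polynomial ℕ, ∀ a, sz (f a) ≤ P.eval (sz a + g a) := by
  obtain ⟨p, m, P, hp⟩ := h
  refine ⟨Polynomial.X + P, fun a => ?_⟩
  obtain ⟨t, ht, he⟩ := hp a (Function.update (fun _ => []) 0 (toD a).enc) (by simp)
    (fun r hr _ => by rw [Function.update_of_ne (by omega)])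
  have h1 := Exec.length_le he 0
  simp only [Function.update_self, D.enc_length] at h1
  have h2 : sz (f a) = (toD (f a)).size := rfl
  have h3 : sz a = (toD a).size := rfl
  simp only [Polynomial.eval_add, Polynomial.eval_X]
  omega

theorem run_stable {c : Cmd} {x y : List Bool} {t T : ℕ} (h : Halts O c x y t) (hT : t ≤ T) :
    run O c x y T = run O c x y t := by
  obtain ⟨d, rfl⟩ := Nat.exists_eq_add_of_le hT
  unfold Halts at h
  unfold run at h ⊢
  rw [Nat.add_comm, Function.iterate_add_apply]
  generalize (step O)^[t] ([c], init x y) = q at h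
  obtain ⟨q1, q2⟩ := q
  simp only at h
  subst h
  exact step_halt O q2 d

theorem XT.run_fun' {f : List Bool → List Bool} {g : List Bool → ℕ} (h : XT O f g) :
    ∃ (c : Cmd) (k : ℕ), ∀ x, ∃ t ≤ (x.length + g x + 2) ^ k,
      Halts O c x [] t ∧ (run O c x [] t).2 0 = f x := by
  obtain ⟨Q, hQ⟩ := h.out_le
  obtain ⟨c, P, hc⟩ := h.run_fun
  obtain ⟨k, hk⟩ := exists_pow (P.comp (Polynomial.X + Q.comp (4 * Polynomial.X + 1)))
  refine ⟨c, k, fun x => ?_⟩
  obtain ⟨t, ht, h1⟩ := hc x
  refine ⟨t, ht.trans (le_trans ?_ (hk _)), h1⟩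
  rw [Polynomial.eval_comp]
  refine poly_mono P ?_
  have h2 := hQ x
  have h3 : (f x).length ≤ sz (f x) := length_le_sz _
  have h4 : sz x ≤ 4 * x.length + 1 := size_bits x
  have h5 := poly_mono Q (show sz x + g x ≤ 4 * (x.length + g x) + 1 by omega)
  simp only [Polynomial.eval_comp, Polynomial.eval_add, Polynomial.eval_mul,
    Polynomial.eval_ofNat, Polynomial.eval_X, Polynomial.eval_one]
  omega

theorem XT.run_dec' {A : Lang} {g : List Bool → ℕ} (h : XT O A g) :
    ∃ (c : Cmd) (k : ℕ), ∀ x, ∃ t ≤ (x.length + g x + 2) ^ k,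
      Halts O c x [] t ∧ (Accepts O c x [] t ↔ A x = true) := by
  obtain ⟨c, P, hc⟩ := h.run_dec
  obtain ⟨k, hk⟩ := exists_pow P
  refine ⟨c, k, fun x => ?_⟩
  obtain ⟨t, ht, h1⟩ := hc x
  exact ⟨t, ht.trans (hk _), h1⟩

/-! ### strings and numbers -/

/-- the string with number `m` -/
def str (m : ℕ) : List Bool := m.bits.dropLast
/-- the number of a string -/
def num (x : List Bool) : ℕ := ofBits (x ++ [true])

theorem str_num (x : List Bool) : str (num x) = x := by
  unfold str num
  rw [bits_ofBits_snoc, List.dropLast_concat]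

theorem num_lt (x : List Bool) : num x < 2 ^ (x.length + 1) := by
  have := ofBits_lt (x ++ [true])
  rwa [List.length_append, List.length_singleton] at this

theorem str_ptime : PTime O (fun u : List Unit => str u.length) :=
  PTime.dropLast (PTime.bits (PTime.length PTime.id))

theorem two_pow_str (m : ℕ) : 2 ^ ((str m).length + 1) ≤ 2 * m + 2 := by
  unfold str
  rw [List.length_dropLast, Nat.size_eq_bits_len]
  rcases Nat.eq_zero_or_pos m with h | h
  · subst h; simp
  · have h1 : 0 < m.size := Nat.size_pos.mpr h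
    have h2 : 2 ^ (m.size - 1) ≤ m := by
      by_contra h3
      push_neg at h3
      have := Nat.size_le.mpr h3
      omega
    rw [pow_succ]
    omega

theorem E1_upoly : UPoly O (fun m => 2 ^ ((str m).length + 1)) := by
  have key : ∀ (l : List Bool) (j : ℕ), l.foldl (fun (s : List Unit) _ => s ++ s)
      (List.replicate (2 ^ j) ()) = List.replicate (2 ^ (j + l.length)) () := by
    intro l
    induction l with
    | nil => intro j; rfl
    | cons a t ih =>
      intro j
      rw [List.foldl_cons, List.replicate_append_replicate, ← two_mul, ← pow_succ', ih,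
        List.length_cons]
      congr 2
      ring
  have h : PTime O (fun u : List Unit => (str u.length).foldl (fun (s : List Unit) _ => s ++ s)
      (List.replicate (2 ^ 1) ())) := by
    refine PTime.foldl (l := fun u : List Unit => str u.length)
      (i := fun _ => List.replicate (2 ^ 1) ()) (s := fun _ s _ => s ++ s) str_ptime
      (PTime.const _) (PTime.append PTime.id.snd.fst PTime.id.snd.fst)
      (4 * Polynomial.X + 5) ?_
    intro u l' hl'
    rw [key, sz_units, List.length_replicate]
    have h1 : 2 ^ (1 + l'.length) ≤ 2 ^ ((str u.length).length + 1) :=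
      Nat.pow_le_pow_right (by norm_num) (by have := hl'.length_le; omega)
    have h2 := two_pow_str u.length
    have h3 := sz_units u
    simp only [Polynomial.eval_add, Polynomial.eval_mul, Polynomial.eval_ofNat,
      Polynomial.eval_X]
    omega
  refine h.of_eq fun u => ?_
  rw [key, Nat.add_comm]

/-- the number of a string in unary, if it is below `|U|` -/
def toNum (U : List Unit) (x : List Bool) : List Unit :=
  ulen ((rangeU U).filter fun u => decide (u.length < num x))

theorem toNum_eq (U : List Unit) (x : List Bool) (h : num x ≤ U.length) :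
    toNum U x = List.replicate (num x) () := by
  unfold toNum
  rw [ulen_eq]
  congr 1
  rw [units_eq U, rangeU_replicate, List.filter_map, List.length_map]
  obtain ⟨d, hd⟩ := Nat.exists_eq_add_of_le h
  rw [hd, List.range_add, List.filter_append, List.length_append]
  have h1 : (List.range (num x)).filter ((fun u : List Unit => decide (u.length < num x)) ∘
      fun i => List.replicate i ()) = List.range (num x) := by
    rw [List.filter_eq_self]
    intro i hi
    simpa using hi
  have h2 : ((List.range d).map (fun x_1 => num x + x_1)).filter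
      ((fun u : List Unit => decide (u.length < num x)) ∘ fun i => List.replicate i ()) = [] := by
    rw [List.filter_eq_nil_iff]
    intro i hi
    obtain ⟨j, _, rfl⟩ := List.mem_map.mp hi
    simp
  rw [h1, h2]
  simp

theorem PTime.toNum {U : γ → List Unit} {x : γ → List Bool} (hU : PTime O U) (hx : PTime O x) :
    PTime O (fun a => CKP.toNum (U a) (x a)) := by
  unfold CKP.toNum num
  refine PTime.ulen (PTime.filter (f := fun a (u : List Unit) =>
    decide (u.length < CKP.ofBits (x a ++ [true]))) (PTime.rangeU hU) ?_)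
  exact PTime.nat_lt (PTime.length PTime.id.snd)
    (PTime.ofBits (PTime.append (hx.comp PTime.id.fst) (PTime.const [true])))

/-! ### verifiers of `NE` -/

theorem ne_ver (c : Cmd) (k : ℕ) :
    Ver O (WG O c str (fun m => (2 ^ ((str m).length + 1)) ^ k))
      (fun m => (2 ^ ((str m).length + 1)) ^ k + 1) :=
  WG_ver c str_ptime (E1_upoly.pow k)

theorem ne_exp (x : List Bool) (k : ℕ) :
    (2 ^ ((str (num x)).length + 1)) ^ k = 2 ^ (k * (x.length + 1)) := by
  rw [str_num, ← pow_mul, Nat.mul_comm]

theorem ne_wit {c : Cmd} {k : ℕ} {x : List Bool} :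
    (∃ v, WG O c str (fun m => (2 ^ ((str m).length + 1)) ^ k) (num x) v = true) ↔
      ∃ y, NEWitness O c k x y := by
  rw [WG_exists, ne_exp, str_num]
  exact Iff.rfl

theorem ne_out {c : Cmd} {k v : ℕ} {x : List Bool}
    (h : WG O c str (fun m => (2 ^ ((str m).length + 1)) ^ k) (num x) v = true) :
    NEWitness O c k x v.bits.dropLast := by
  obtain ⟨_, h2, h3⟩ := WG_iff.mp h
  rw [ne_exp] at h2 h3
  rw [str_num] at h3
  exact ⟨h2, h3⟩

/-- the output of the solver -/
def outS (s : Bool × ℕ) : List Bool := if s.1 = true then true :: s.2.bits.dropLast else []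

theorem PTime.outS {s : γ → Bool × ℕ} (hs : PTime O s) : PTime O (fun a => CKP.outS (s a)) :=
  PTime.ite hs.fst (PTime.cons (PTime.const true) (PTime.dropLast (PTime.bits hs.snd)))
    (PTime.const [])

theorem solves_of {c p : Cmd} {k t : ℕ} {x : List Bool} {s : Bool × ℕ}
    (h1 : Halts O p x [] t) (h2 : (run O p x [] t).2 0 = outS s)
    (h3 : s.1 = true → WG O c str (fun m => (2 ^ ((str m).length + 1)) ^ k) (num x) s.2 = true)
    (h4 : (∃ v, WG O c str (fun m => (2 ^ ((str m).length + 1)) ^ k) (num x) v = true) →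
      s.1 = true) : Solves O c k p x t := by
  have hacc : Accepts O p x [] t ↔ s.1 = true := by
    unfold Accepts
    unfold Halts at h1
    rw [h1, h2]
    unfold outS
    cases s.1 <;> simp
  refine ⟨h1, ?_, ?_⟩
  · rw [hacc, ← ne_wit]
    exact ⟨fun h => ⟨_, h3 h⟩, h4⟩
  · intro h
    have hs := hacc.mp h
    rw [h2]
    unfold outS
    rw [if_pos hs]
    exact ne_out (h3 hs)

/-! ### the two theorems -/

/-- `ε > 0` is larger than some `1 / r` -/
theorem exists_r {ε : ℝ} (hε : 0 < ε) : ∃ r : ℕ, 1 ≤ r ∧ 1 / (r : ℝ) < ε := by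
  obtain ⟨r, hr⟩ := exists_nat_one_div_lt hε
  exact ⟨r + 1, by omega, by push_cast; exact hr⟩

theorem final_sub (hneg : ∀ C, TuringComplete O C → ManyOneComplete O C) {ε : ℝ}
    (hε : 0 < ε) (c : Cmd) (k : ℕ) :
    ∃ (p : Cmd) (a : ℕ), ∀ x : List Bool, ∃ t : ℕ,
      (t : ℝ) ≤ a * (2 : ℝ) ^ ((2 : ℝ) ^ (ε * x.length)) ∧ Solves O c k p x t := by
  obtain ⟨r, hr, hrε⟩ := exists_r hε
  obtain ⟨S, hS, hspec⟩ := solver_sub hneg (ne_ver c k) r hr
  -- first stage: `2 ^ (|x| + 1)` in unary
  have he1 : PTime O (fun x : List Bool => () :: ulen x) :=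
    PTime.cons (PTime.const ()) (PTime.ulen PTime.id)
  have h1 := XT.exp he1
  -- second stage
  have hnum : PTime O (fun q : List Unit × List Bool => toNum q.1 q.2) :=
    PTime.toNum PTime.id.fst PTime.id.snd
  have he2 : PTime O (fun q : List Unit × List Bool =>
      List.replicate (rt r (toNum q.1 q.2).length) ()) := (rt_upoly r).comp hnum
  have h2 := XT.exp he2
  have h3 : PTime O (fun q : List Unit × (List Unit × List Bool) =>
      outS (S q.1 (toNum q.2.1 q.2.2))) :=
    PTime.outS (hS.comp (PTime.id.fst.pair (hnum.comp PTime.id.snd)))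
  have h4 := (XT.of_ptime h3 (fun _ => 0)).comp (h2.comp h1)
  have hlen : ∀ x : List Bool, (() :: ulen x).length = x.length + 1 := by
    intro x; rw [ulen_eq, List.length_cons, List.length_replicate]
  have hnumx : ∀ x : List Bool, toNum (List.replicate (2 ^ (() :: ulen x).length) ()) x =
      List.replicate (num x) () := by
    intro x
    refine toNum_eq _ _ ?_
    rw [List.length_replicate, hlen]
    exact (num_lt x).le
  have h5 : XT O (fun x : List Bool => outS (S (List.replicate (2 ^ rt r (num x)) ())
      (List.replicate (num x) ()))) (fun x => 2 ^ (x.length + 1) + 2 ^ rt r (num x)) := by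
    have h6 := h4.mono (g' := fun x : List Bool => 2 ^ (x.length + 1) + 2 ^ rt r (num x))
      (10 * Polynomial.X + 10) ?_
    · have h7 : (fun x : List Bool => outS (S (List.replicate (2 ^ (List.replicate (rt r
          (toNum (List.replicate (2 ^ (() :: ulen x).length) ()) x).length) ()).length) ())
          (toNum (List.replicate (2 ^ (() :: ulen x).length) ()) x))) =
          fun x : List Bool => outS (S (List.replicate (2 ^ rt r (num x)) ())
            (List.replicate (num x) ())) := by
        funext x
        rw [hnumx, List.length_replicate, List.length_replicate]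
      rw [← h7]
      exact h6
    · intro x
      simp only
      rw [hnumx, sz_pair, sz_pair, sz_pair, sz_units, sz_units]
      simp only [List.length_replicate]
      rw [hlen]
      simp only [Polynomial.eval_add, Polynomial.eval_mul, Polynomial.eval_ofNat,
        Polynomial.eval_X]
      omega
  obtain ⟨p, j, hp⟩ := h5.run_fun'
  obtain ⟨a, ha⟩ := growthB j (δ := 1 / (r : ℝ)) (ε := ε)
    (by have : (0 : ℝ) < r := by exact_mod_cast (by omega : 0 < r)
        positivity) hrε
  refine ⟨p, a, fun x => ?_⟩
  obtain ⟨t, ht, h6, h7⟩ := hp x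
  obtain ⟨g1, g2⟩ := hspec (num x) (List.replicate (2 ^ rt r (num x)) ())
    (by rw [List.length_replicate])
  refine ⟨t, ?_, solves_of h6 h7 g1 g2⟩
  refine le_trans ?_ (ha x.length (rt r (num x)) ?_)
  · exact_mod_cast ht
  · refine (rt_le hr).trans ?_
    have h8 : ((num x : ℕ) : ℝ) ≤ (2 : ℝ) ^ (x.length + 1) := by
      exact_mod_cast (num_lt x).le
    have h9 : ((num x : ℕ) : ℝ) ^ (1 / (r : ℝ)) ≤ ((2 : ℝ) ^ (x.length + 1)) ^ (1 / (r : ℝ)) :=
      Real.rpow_le_rpow (by positivity) h8 (by positivity)
    linarith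

theorem final_honest (hneg : ∀ C, TuringComplete O C → HonestComplete O C) (c : Cmd) (k : ℕ) :
    ∃ (p : Cmd) (j : ℕ), ∀ x : List Bool, Solves O c k p x (2 ^ (j * (x.length + 1))) := by
  obtain ⟨S, hS, hspec⟩ := solver_honest hneg (ne_ver c k)
  have he1 : PTime O (fun x : List Bool => () :: ulen x) :=
    PTime.cons (PTime.const ()) (PTime.ulen PTime.id)
  have h1 := XT.exp he1
  have h3 : PTime O (fun q : List Unit × List Bool => outS (S (toNum q.1 q.2))) :=
    PTime.outS (hS.comp (PTime.toNum PTime.id.fst PTime.id.snd))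
  have h4 := (XT.of_ptime h3 (fun _ => 0)).comp h1
  have hlen : ∀ x : List Bool, (() :: ulen x).length = x.length + 1 := by
    intro x; rw [ulen_eq, List.length_cons, List.length_replicate]
  have hnumx : ∀ x : List Bool, toNum (List.replicate (2 ^ (() :: ulen x).length) ()) x =
      List.replicate (num x) () := by
    intro x
    refine toNum_eq _ _ ?_
    rw [List.length_replicate, hlen]
    exact (num_lt x).le
  have h5 : XT O (fun x : List Bool => outS (S (List.replicate (num x) ())))
      (fun x => 2 ^ (x.length + 1)) := by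
    have h6 := h4.mono (g' := fun x : List Bool => 2 ^ (x.length + 1))
      (10 * Polynomial.X + 10) ?_
    · have h7 : (fun x : List Bool =>
          outS (S (toNum (List.replicate (2 ^ (() :: ulen x).length) ()) x))) =
          fun x : List Bool => outS (S (List.replicate (num x) ())) := by
        funext x
        rw [hnumx]
      rw [← h7]
      exact h6
    · intro x
      rw [sz_pair, sz_units, List.length_replicate, hlen]
      simp only [Polynomial.eval_add, Polynomial.eval_mul, Polynomial.eval_ofNat,
        Polynomial.eval_X]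
      omega
  obtain ⟨p, j, hp⟩ := h5.run_fun'
  refine ⟨p, 3 * j, fun x => ?_⟩
  obtain ⟨t, ht, h6, h7⟩ := hp x
  have hT : t ≤ 2 ^ (3 * j * (x.length + 1)) := by
    refine ht.trans ?_
    have h8 : x.length + 2 ^ (x.length + 1) + 2 ≤ 2 ^ (3 * (x.length + 1)) := by
      have g1 : x.length + 1 ≤ 2 ^ x.length := Nat.lt_two_pow_self
      have g2 : 2 ^ (3 * (x.length + 1)) = 2 ^ x.length * (8 * 4 ^ x.length) := by
        rw [show 3 * (x.length + 1) = x.length + (3 + 2 * x.length) by ring, pow_add, pow_add,
          pow_mul]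
        norm_num
      have g3 : 1 ≤ 4 ^ x.length := Nat.one_le_pow _ _ (by norm_num)
      rw [g2, pow_succ]
      nlinarith
    calc (x.length + 2 ^ (x.length + 1) + 2) ^ j ≤ (2 ^ (3 * (x.length + 1))) ^ j :=
          Nat.pow_le_pow_left h8 j
      _ = 2 ^ (3 * j * (x.length + 1)) := by rw [← pow_mul]; congr 1; ring
  have hst := run_stable h6 hT
  obtain ⟨g1, g2⟩ := hspec (num x)
  refine solves_of (s := S (List.replicate (num x) ())) ?_ ?_ g1 g2
  · unfold Halts at h6 ⊢
    rw [hst]
    exact h6
  · rw [hst]
    exact h7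

end Pool.Agent.CKP
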