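import Pool.Agent.Lib_helper74.NE.Univ

/-! A complete language for `NP^O`. -/

set_option autoImplicit false
set_option linter.unusedSectionVars false

namespace Pool.Agent.CKP

open Pool.Agent.CK

variable {O : Lang}
variable {α β γ δ : Type} [ToD α] [ToD β] [ToD γ] [ToD δ]

/-- the verifier of the universal language: the word codes a program, an input and a unary
time bound -/
def VU (O : Lang) (p : List Bool × List Bool) : Bool :=
  (decide (p.2.length ≤ p.1.length) && decide (p.2.length ≤ (toList (dec p.1).cdr.cdr).length)) &&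
    accU O (dec p.1).car (toBits (dec p.1).cdr.car) p.2 (ulen (toList (dec p.1).cdr.cdr))

theorem PTime.VU {x y : γ → List Bool} (hx : PTime O x) (hy : PTime O y) :
    PTime O (fun a => CKP.VU O (x a, y a)) := by
  unfold CKP.VU
  exact ((PTime.nat_le hy.length hx.length).and (PTime.nat_le hy.length
    (PTime.length hx.dec.cdr.cdr.toList))).and
    (PTime.accU hx.dec.car hx.dec.cdr.car.toBits hy (PTime.ulen hx.dec.cdr.cdr.toList))

open Classical in
/-- The universal language. -/
noncomputable def UK (O : Lang) : Lang := fun w =>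
  decide (∃ y : List Bool, y.length ≤ w.length ∧ VU O (w, y) = true)

theorem UK_iff (w : List Bool) :
    UK O w = true ↔ ∃ y : List Bool, y.length ≤ w.length ∧ VU O (w, y) = true := by
  simp only [UK, decide_eq_true_eq]

theorem UK_of_VU {w y : List Bool} (h : VU O (w, y) = true) : UK O w = true := by
  refine (UK_iff w).mpr ⟨y, ?_, h⟩
  unfold VU at h
  rw [Bool.and_eq_true, Bool.and_eq_true] at h
  exact of_decide_eq_true h.1.1

theorem UK_inNP : InNP O (UK O) :=
  inNP_of (V := VU O) (PTime.VU PTime.id.fst PTime.id.snd) (B := fun n => n) UPoly.id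
    (fun x hx => (UK_iff x).mp hx) (fun _ _ h => UK_of_VU h)

/-- `NP^O` reduces to the universal language. -/
theorem UK_hard {A : Lang} (hA : InNP O A) :
    ∃ g : List Bool → List Bool, PTime O g ∧ ∀ x, A x = UK O (g x) := by
  obtain ⟨c, k, _, hA2⟩ := hA
  refine ⟨fun x => (D.cons (cmdD c) (.cons (toD x) (tg ((x.length + 2) ^ k)))).enc, ?_, ?_⟩
  · exact PTime.enc ((PTime.const (cmdD c)).consD ((PTime.id (α := List Bool)).code.consD
      (((UPoly.tb k).comp (PTime.id (α := List Bool))).code)))
  · intro x
    rw [Bool.eq_iff_iff, hA2 x, UK_iff]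
    set N := (x.length + 2) ^ k with hN
    set w := (D.cons (cmdD c) (.cons (toD x) (tg N))).enc with hw
    have hdec : dec w = D.cons (cmdD c) (.cons (toD x) (tg N)) := by rw [hw, dec_enc]
    have hlen : N ≤ w.length := by
      rw [hw, D.enc_length]
      show N ≤ (cmdD c).size + ((toD x).size + (tg N).size + 1) + 1
      rw [size_tg]
      omega
    have hV : ∀ y : List Bool, VU O (w, y) = true ↔
        (y.length ≤ w.length ∧ y.length ≤ N) ∧ Accepts O c x y N := by
      intro y
      unfold VU
      simp only [Bool.and_eq_true, decide_eq_true_eq]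
      rw [hdec]
      have h1 : (D.cons (cmdD c) (.cons (toD x) (tg N))).cdr.cdr = tg N := rfl
      have h2 : (D.cons (cmdD c) (.cons (toD x) (tg N))).car = cmdD c := rfl
      have h3 : (D.cons (cmdD c) (.cons (toD x) (tg N))).cdr.car = toD x := rfl
      rw [h1, h2, h3, toBits_toD, toList_tg, accU_iff, ulen_eq, List.length_replicate, toList_tg]
    constructor
    · rintro ⟨y, hy, hacc⟩
      exact ⟨y, hy.trans hlen, (hV y).mpr ⟨⟨hy.trans hlen, hy⟩, hacc⟩⟩
    · rintro ⟨y, _, hy⟩
      obtain ⟨⟨_, h2⟩, h3⟩ := (hV y).mp hy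
      exact ⟨y, h2, h3⟩

theorem UK_complete : ManyOneComplete O (UK O) := by
  refine ⟨UK_inNP, fun A hA => ?_⟩
  obtain ⟨g, hg, h⟩ := UK_hard hA
  exact ⟨g, inFP_of hg, h⟩

/-- Turing-hardness from one reduction of the universal language. -/
theorem turingComplete_of {C : Lang} (hC : InNP O C) (h : PTime (join O C) (UK O)) :
    TuringComplete O C := by
  refine ⟨hC, fun A hA => ?_⟩
  obtain ⟨g, hg, h'⟩ := UK_hard hA
  exact inP_of ((h.comp hg.lift).of_eq fun x => (h' x).symm)

end Pool.Agent.CKP
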