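import Pool.Agent.Lib_helper74.NE.ExtA

/-! Small closure properties: binary numbers, prefix code of trees. -/

set_option autoImplicit false
set_option linter.unusedSectionVars false

namespace Pool.Agent.CKP

open Pool.Agent.CK

variable {O : Lang}
variable {α β γ δ : Type} [ToD α] [ToD β] [ToD γ] [ToD δ]

/-! ### numbers -/

theorem bits_bit (b : Bool) (n : ℕ) :
    (Nat.bit b n).bits = if (!b && decide (n = 0)) = true then [] else b :: n.bits := by
  by_cases h : n = 0
  · subst h
    cases b <;> simp
  · have h' : (!b && decide (n = 0)) = false := by simp [h]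
    rw [h']
    simp only [Bool.false_eq_true, if_false]
    exact Nat.bits_append_bit n b (fun h0 => absurd h0 h)

theorem PTime.bit {b : γ → Bool} {n : γ → ℕ} (hb : PTime O b) (hn : PTime O n) :
    PTime O (fun x => Nat.bit (b x) (n x)) := by
  refine PTime.of_bits ?_
  refine (PTime.ite (hb.not.and hn.isZero) (PTime.const []) (PTime.cons hb hn.bits)).of_eq ?_
  intro x
  rw [bits_bit]

theorem sz_bit_le (b : Bool) (n : ℕ) : sz (Nat.bit b n) ≤ sz n + 4 := by
  rw [sz_nat, sz_nat, bits_bit]
  have := num_bool_sz b
  split
  · have h := sz_pos n.bits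
    rw [sz_nil]; omega
  · rw [sz_cons]; omega

/-- the number with the given binary digits (least significant first) -/
def ofBits (l : List Bool) : ℕ := l.foldr Nat.bit 0

@[simp] theorem ofBits_nil : ofBits [] = 0 := rfl
@[simp] theorem ofBits_cons (b : Bool) (l : List Bool) : ofBits (b :: l) = Nat.bit b (ofBits l) := rfl

@[simp] theorem ofBits_bits (n : ℕ) : ofBits n.bits = n := by
  induction n using Nat.binaryRec' with
  | zero => simp
  | bit b n h ih =>
    rw [Nat.bits_append_bit n b h, ofBits_cons, ih]

theorem ofBits_lt (l : List Bool) : ofBits l < 2 ^ l.length := by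
  induction l with
  | nil => simp
  | cons b t ih =>
    rw [ofBits_cons, List.length_cons, pow_succ, Nat.bit_val]
    cases b <;> simp <;> omega

theorem bits_ofBits_snoc (y : List Bool) : (ofBits (y ++ [true])).bits = y ++ [true] := by
  induction y with
  | nil => simp [Nat.bit_val]
  | cons b t ih =>
    rw [List.cons_append, ofBits_cons]
    rw [Nat.bits_append_bit, ih]
    intro h0
    have : (ofBits (t ++ [true])).bits = [] := by rw [h0]; simp
    rw [ih] at this
    simp at this

theorem PTime.ofBits {l : γ → List Bool} (hl : PTime O l) : PTime O (fun x => CKP.ofBits (l x)) := by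
  unfold CKP.ofBits
  refine PTime.foldr_add (l := l) (i := fun _ => 0) (s := fun _ b n => Nat.bit b n) hl
    (PTime.const _) (PTime.bit PTime.id.snd.fst PTime.id.snd.snd) (Polynomial.C 4) ?_
  intro x b a _
  rw [Polynomial.eval_C]
  exact sz_bit_le a b

/-- multiplication by a power of two -/
def ushl (u : List Unit) (n : ℕ) : ℕ := u.foldl (fun n _ => Nat.bit false n) n

theorem ushl_eq (u : List Unit) (n : ℕ) : ushl u n = n * 2 ^ u.length := by
  unfold ushl
  induction u generalizing n with
  | nil => simp
  | cons a t ih =>
    rw [List.foldl_cons, ih, List.length_cons, pow_succ, Nat.bit_val]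
    simp
    ring

theorem PTime.ushl {u : γ → List Unit} {n : γ → ℕ} (hu : PTime O u) (hn : PTime O n) :
    PTime O (fun x => CKP.ushl (u x) (n x)) := by
  unfold CKP.ushl
  refine PTime.foldl_add (l := u) (i := n) (s := fun _ n _ => Nat.bit false n) hu hn
    (PTime.bit (PTime.const _) PTime.id.snd.fst) (Polynomial.C 4) ?_
  intro x b a _
  rw [Polynomial.eval_C]
  exact sz_bit_le false b

/-- division by a power of two -/
def ushr (u : List Unit) (n : ℕ) : ℕ := u.foldl (fun n _ => n.div2) n

theorem ushr_eq (u : List Unit) (n : ℕ) : ushr u n = n / 2 ^ u.length := by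
  unfold ushr
  induction u generalizing n with
  | nil => simp
  | cons a t ih =>
    rw [List.foldl_cons, ih, List.length_cons, Nat.div2_val, Nat.div_div_eq_div_mul, pow_succ']

theorem PTime.ushr {u : γ → List Unit} {n : γ → ℕ} (hu : PTime O u) (hn : PTime O n) :
    PTime O (fun x => CKP.ushr (u x) (n x)) := by
  unfold CKP.ushr
  refine PTime.foldl_add (l := u) (i := n) (s := fun _ n _ => n.div2) hu hn
    (PTime.div2 PTime.id.snd.fst) 0 ?_
  intro x b a _
  have := num_sz_div2 b
  omega

theorem PTime.dropLast {l : γ → List α} (hl : PTime O l) : PTime O (fun x => (l x).dropLast) :=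
  (PTime.reverse (PTime.tail (PTime.reverse hl))).of_eq fun x => by
    rw [List.tail_reverse, List.reverse_reverse]

theorem sz_nat_le_of_lt {v k : ℕ} (h : v < 2 ^ k) : sz v ≤ 4 * k + 1 := by
  have h1 := num_sz_le v
  have h2 : v.size ≤ k := Nat.size_le.mpr h
  omega

/-! ### decoding -/

/-- one step of the decoding of a prefix code (read backwards) -/
def dstep (b : Bool) (s : List D) : List D :=
  if b = true then D.cons (s.headD D.nil) (s.tail.headD D.nil) :: s.tail.tail else D.nil :: s

theorem foldr_enc : ∀ (d : D) (w : List Bool), (d.enc ++ w).foldr dstep [] =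
    d :: w.foldr dstep []
  | .nil, w => rfl
  | .cons a b, w => by
    have : (D.cons a b).enc ++ w = true :: (a.enc ++ (b.enc ++ w)) := by simp [D.enc]
    rw [this, List.foldr_cons, foldr_enc a, foldr_enc b]
    rfl

/-- the tree with the given prefix code -/
def dec (w : List Bool) : D := (w.foldr dstep []).headD D.nil

@[simp] theorem dec_enc (d : D) : dec d.enc = d := by
  have := foldr_enc d []
  rw [List.append_nil] at this
  unfold dec
  rw [this]
  rfl

theorem sz_dstep (b : Bool) (s : List D) : sz (dstep b s) ≤ sz s + 4 := by
  unfold dstep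
  cases b
  · simp only [Bool.false_eq_true, if_false]
    rw [sz_cons]
    have : sz D.nil = 1 := rfl
    omega
  · simp only [if_true]
    rw [sz_cons]
    have h0 : ∀ a b : D, sz (D.cons a b) = sz a + sz b + 1 := fun a b => rfl
    have h1 : sz D.nil = 1 := rfl
    rw [h0]
    cases s with
    | nil => simp [h1]
    | cons a t =>
      cases t with
      | nil => simp [h1]
      | cons b t' => simp; omega

theorem PTime.dec {l : γ → List Bool} (hl : PTime O l) : PTime O (fun x => CKP.dec (l x)) := by
  unfold CKP.dec
  refine PTime.headD (l := fun x => (l x).foldr dstep []) ?_ (PTime.const _)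
  refine PTime.foldr_add (l := l) (i := fun _ => ([] : List D)) (s := fun _ b s => dstep b s) hl
    (PTime.const _) ?_ (Polynomial.C 4) ?_
  · unfold dstep
    refine PTime.ite (PTime.id.snd.fst) ?_ ?_
    · exact PTime.cons (PTime.consD (PTime.headD PTime.id.snd.snd (PTime.const _))
        (PTime.headD (PTime.tail PTime.id.snd.snd) (PTime.const _)))
        (PTime.tail (PTime.tail PTime.id.snd.snd))
    · exact PTime.cons (PTime.const _) PTime.id.snd.snd
  · intro x b a _
    rw [Polynomial.eval_C]
    exact sz_dstep a b

/-- size of the decoded tree -/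
theorem size_dec_le (w : List Bool) : (dec w).size ≤ 3 * w.length + 1 := by
  have key : ∀ w : List Bool, ((w.foldr dstep []).map D.size).sum ≤ 3 * w.length := by
    intro w
    induction w with
    | nil => simp
    | cons b t ih =>
      rw [List.foldr_cons, List.length_cons]
      generalize t.foldr dstep [] = s at ih
      unfold dstep
      cases b
      · simp [D.size]; omega
      · cases s with
        | nil => simp [D.size]
        | cons a t =>
          cases t with
          | nil => simp [D.size] at ih ⊢; omega
          | cons b t' => simp [D.size] at ih ⊢; omega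
  have h := key w
  unfold dec
  cases hs : w.foldr dstep [] with
  | nil => simp [D.size]
  | cons a t =>
    rw [hs] at h
    simp at h ⊢
    omega

end Pool.Agent.CKP
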