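import Pool.Agent.Lib_helper74.NE.Defs

/-! [CDA] basic closure properties of `CD`. -/

namespace Pool.Agent.CKP

open Pool.Agent.CK

variable {O : Lang}

/-- bounded execution -/
def Ex (O : Lang) (p : Cmd) (σ σ' : Store) (T : ℕ) : Prop := ∃ t ≤ T, Exec O p σ σ' t

theorem Ex.mono {p : Cmd} {σ σ' : Store} {T T' : ℕ} (h : Ex O p σ σ' T) (hT : T ≤ T') :
    Ex O p σ σ' T' := by
  obtain ⟨t, ht, he⟩ := h
  exact ⟨t, ht.trans hT, he⟩

theorem Ex.cast {p : Cmd} {σ σ' σ'' : Store} {T : ℕ} (h : Ex O p σ σ' T) (hs : σ' = σ'') :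
    Ex O p σ σ'' T := hs ▸ h

theorem Ex.cast' {p : Cmd} {σ σ' σ'' : Store} {T T' : ℕ} (h : Ex O p σ σ' T) (hs : σ' = σ'')
    (hT : T ≤ T') : Ex O p σ σ'' T' := (hs ▸ h).mono hT

theorem Ex.skip (σ : Store) : Ex O .skip σ σ 1 := ⟨1, le_rfl, Exec.skip σ⟩

theorem Ex.push (r : ℕ) (b : Bool) (σ : Store) :
    Ex O (.push r b) σ (Function.update σ r (b :: σ r)) 1 := ⟨1, le_rfl, Exec.push r b σ⟩

theorem Ex.pop (r : ℕ) (σ : Store) :
    Ex O (.pop r) σ (Function.update σ r (σ r).tail) 1 := ⟨1, le_rfl, Exec.pop r σ⟩

theorem Ex.seq {p q : Cmd} {σ σ1 σ2 : Store} {T1 T2 : ℕ} (h1 : Ex O p σ σ1 T1)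
    (h2 : Ex O q σ1 σ2 T2) : Ex O (.seq p q) σ σ2 (T1 + T2 + 1) := by
  obtain ⟨t1, ht1, he1⟩ := h1
  obtain ⟨t2, ht2, he2⟩ := h2
  exact ⟨t1 + t2 + 1, by omega, Exec.seq he1 he2⟩

theorem Ex.loop_nil {r : ℕ} {p : Cmd} {σ : Store} (h : σ r = []) : Ex O (.loop r p) σ σ 1 :=
  ⟨1, le_rfl, Exec.loop_nil h⟩

theorem Ex.loop_cons {r : ℕ} {p : Cmd} {σ σ1 σ2 : Store} {T1 T2 : ℕ} (hr : σ r ≠ [])
    (h1 : Ex O p σ σ1 T1) (h2 : Ex O (.loop r p) σ1 σ2 T2) :
    Ex O (.loop r p) σ σ2 (T1 + T2 + 1) := by
  obtain ⟨t1, ht1, he1⟩ := h1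
  obtain ⟨t2, ht2, he2⟩ := h2
  exact ⟨t1 + t2 + 1, by omega, Exec.loop_cons hr he1 he2⟩

theorem Ex.case_nil {r : ℕ} {p0 pf pt : Cmd} {σ σ' : Store} {T : ℕ} (hr : σ r = [])
    (h : Ex O p0 σ σ' T) : Ex O (.cond r p0 pf pt) σ σ' (T + 1) := by
  obtain ⟨t, ht, he⟩ := h
  exact ⟨t + 1, by omega, Exec.case_nil hr he⟩

theorem Ex.case_false {r : ℕ} {p0 pf pt : Cmd} {σ σ' : Store} {T : ℕ} {l : List Bool}
    (hr : σ r = false :: l) (h : Ex O pf σ σ' T) : Ex O (.cond r p0 pf pt) σ σ' (T + 1) := by
  obtain ⟨t, ht, he⟩ := h
  exact ⟨t + 1, by omega, Exec.case_false (by simp [hr]) he⟩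

theorem Ex.case_true {r : ℕ} {p0 pf pt : Cmd} {σ σ' : Store} {T : ℕ} {l : List Bool}
    (hr : σ r = true :: l) (h : Ex O pt σ σ' T) : Ex O (.cond r p0 pf pt) σ σ' (T + 1) := by
  obtain ⟨t, ht, he⟩ := h
  exact ⟨t + 1, by omega, Exec.case_true (by simp [hr]) he⟩

/-- each step adds at most one bit to a register -/
theorem Exec.length_le {p : Cmd} {σ σ' : Store} {t : ℕ} (h : Exec O p σ σ' t) (r : ℕ) :
    (σ' r).length ≤ (σ r).length + t := by
  induction h with
  | skip σ => omega
  | push r' b σ =>
    by_cases hr : r = r'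
    · subst hr; simp
    · simp [Function.update_of_ne hr]
  | pop r' σ =>
    by_cases hr : r = r'
    · subst hr; simp; omega
    · simp [Function.update_of_ne hr]
  | seq _ _ ih1 ih2 => omega
  | loop_nil _ => omega
  | loop_cons _ _ _ ih1 ih2 => omega
  | case_nil _ _ ih => omega
  | case_false _ _ ih => omega
  | case_true _ _ ih => omega
  | ask_false _ _ ih => omega
  | ask_true _ _ ih => omega

/-! ### moving registers -/

/-- move register `r` to `s` (reversing) -/
def mv (r s : ℕ) : Cmd :=
  .loop r (.cond r .skip (.seq (.push s false) (.pop r)) (.seq (.push s true) (.pop r)))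

/-- move register `r` to `s` and to `s'` (reversing) -/
def mv2 (r s s' : ℕ) : Cmd :=
  .loop r (.cond r .skip (.seq (.push s false) (.seq (.push s' false) (.pop r)))
    (.seq (.push s true) (.seq (.push s' true) (.pop r))))

/-- clear a register -/
def clr (r : ℕ) : Cmd := .loop r (.pop r)

theorem mv_bdd {r s m : ℕ} (hr : r < m) (hs : s < m) : Bdd m (mv r s) := by
  simp [mv, Bdd, hr, hs]

theorem mv2_bdd {r s s' m : ℕ} (hr : r < m) (hs : s < m) (hs' : s' < m) :
    Bdd m (mv2 r s s') := by
  simp [mv2, Bdd, hr, hs, hs']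

theorem clr_bdd {r m : ℕ} (hr : r < m) : Bdd m (clr r) := by
  simp [clr, Bdd, hr]

theorem mv_ex {r s : ℕ} (hrs : r ≠ s) : ∀ (l : List Bool) (σ : Store), σ r = l →
    Ex O (mv r s) σ (Function.update (Function.update σ s (l.reverse ++ σ s)) r [])
      (5 * l.length + 1)
  | [], σ, h => by
    refine (Ex.loop_nil h).cast ?_
    funext k
    by_cases h1 : k = r
    · subst h1; simp [h]
    · by_cases h2 : k = s
      · subst h2; simp [Function.update_of_ne h1]
      · simp [Function.update_of_ne h1, Function.update_of_ne h2]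
  | b :: l, σ, h => by
    have hne : σ r ≠ [] := by simp [h]
    set σ1 : Store := Function.update (Function.update σ s (b :: σ s)) r l with hσ1
    have h1 : Ex O (.cond r .skip (.seq (.push s false) (.pop r))
        (.seq (.push s true) (.pop r))) σ σ1 4 := by
      have hb : ∀ b' : Bool, b = b' → Ex O (.seq (.push s b') (.pop r)) σ σ1 3 := by
        intro b' hb'
        subst hb'
        refine ((Ex.push s b σ).seq (Ex.pop r _)).cast ?_
        rw [hσ1, Function.update_of_ne hrs, h, List.tail_cons]
      cases b with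
      | false => exact Ex.case_false h (hb false rfl)
      | true => exact Ex.case_true h (hb true rfl)
    have h2 := mv_ex hrs l σ1 (by simp [hσ1])
    refine (Ex.loop_cons hne h1 h2).cast' ?_ (by simp; omega)
    funext k
    by_cases g1 : k = r
    · subst g1; simp
    · by_cases g2 : k = s
      · subst g2; simp [hσ1, Function.update_of_ne g1]
      · simp [hσ1, Function.update_of_ne g1, Function.update_of_ne g2]

theorem mv2_ex {r s s' : ℕ} (hrs : r ≠ s) (hrs' : r ≠ s') (hss' : s ≠ s') :
    ∀ (l : List Bool) (σ : Store), σ r = l →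
    Ex O (mv2 r s s') σ (Function.update (Function.update (Function.update σ s
      (l.reverse ++ σ s)) s' (l.reverse ++ σ s')) r []) (7 * l.length + 1)
  | [], σ, h => by
    refine (Ex.loop_nil h).cast ?_
    funext k
    by_cases h1 : k = r
    · subst h1; simp [h]
    · by_cases h2 : k = s'
      · subst h2; simp [Function.update_of_ne h1]
      · by_cases h3 : k = s
        · subst h3; simp [Function.update_of_ne h1, Function.update_of_ne h2]
        · simp [Function.update_of_ne h1, Function.update_of_ne h2, Function.update_of_ne h3]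
  | b :: l, σ, h => by
    have hne : σ r ≠ [] := by simp [h]
    set σ1 : Store := Function.update (Function.update (Function.update σ s (b :: σ s))
      s' (b :: σ s')) r l with hσ1
    have h1 : Ex O (.cond r .skip (.seq (.push s false) (.seq (.push s' false) (.pop r)))
        (.seq (.push s true) (.seq (.push s' true) (.pop r)))) σ σ1 6 := by
      have hb : ∀ b' : Bool, b = b' →
          Ex O (.seq (.push s b') (.seq (.push s' b') (.pop r))) σ σ1 5 := by
        intro b' hb'
        subst hb'
        refine ((Ex.push s b σ).seq ((Ex.push s' b _).seq (Ex.pop r _))).cast ?_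
        rw [hσ1, Function.update_of_ne hrs', Function.update_of_ne hrs,
          Function.update_of_ne hss'.symm, h, List.tail_cons]
      cases b with
      | false => exact Ex.case_false h (hb false rfl)
      | true => exact Ex.case_true h (hb true rfl)
    have h2 := mv2_ex hrs hrs' hss' l σ1 (by simp [hσ1])
    refine (Ex.loop_cons hne h1 h2).cast' ?_ (by simp; omega)
    funext k
    by_cases g1 : k = r
    · subst g1; simp
    · by_cases g2 : k = s'
      · subst g2; simp [hσ1, Function.update_of_ne g1]
      · by_cases g3 : k = s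
        · subst g3; simp [hσ1, Function.update_of_ne g1, Function.update_of_ne g2]
        · simp [hσ1, Function.update_of_ne g1, Function.update_of_ne g2,
            Function.update_of_ne g3]

theorem clr_ex (r : ℕ) : ∀ (l : List Bool) (σ : Store), σ r = l →
    Ex O (clr r) σ (Function.update σ r []) (2 * l.length + 1)
  | [], σ, h => by
    refine (Ex.loop_nil h).cast ?_
    rw [← h, Function.update_eq_self]
  | b :: l, σ, h => by
    have hne : σ r ≠ [] := by simp [h]
    have h1 := Ex.pop (O := O) r σ
    have h2 := clr_ex r l (Function.update σ r (σ r).tail) (by simp [h])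
    exact (Ex.loop_cons hne h1 h2).cast' (by simp) (by simp; omega)

/-- push a list of bits -/
def pushAll (r : ℕ) : List Bool → Cmd
  | [] => .skip
  | b :: l => .seq (pushAll r l) (.push r b)

theorem pushAll_bdd {r m : ℕ} (hr : r < m) : ∀ l, Bdd m (pushAll r l)
  | [] => trivial
  | _ :: l => ⟨pushAll_bdd hr l, hr⟩

theorem pushAll_ex (r : ℕ) : ∀ (l : List Bool) (σ : Store),
    Ex O (pushAll r l) σ (Function.update σ r (l ++ σ r)) (2 * l.length + 1)
  | [], σ => (Ex.skip σ).cast (by simp)
  | b :: l, σ => by
    refine ((pushAll_ex r l σ).seq (Ex.push r b _)).cast' (by simp) (by simp; omega)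

theorem poly_mono (P : Polynomial ℕ) {a b : ℕ} (h : a ≤ b) : P.eval a ≤ P.eval b := by
  induction P using Polynomial.induction_on' with
  | add p q hp hq => simpa using Nat.add_le_add hp hq
  | monomial n c =>
    simp only [Polynomial.eval_monomial]
    exact Nat.mul_le_mul_left _ (Nat.pow_le_pow_left h n)

/-- A convenient form of `CD`. -/
theorem CD.mk {V : D → Prop} {f : D → D} (p : Cmd) (m : ℕ) (P : Polynomial ℕ)
    (hp : Bdd m p) (hm : 0 < m)
    (h : ∀ (x : D) (σ : Store), V x → σ 0 = x.enc → (∀ r, 1 ≤ r → r < m → σ r = []) →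
      Ex O p σ (Function.update σ 0 (f x).enc) (P.eval x.size)) : CD O V f :=
  ⟨p, m, P, hp, hm, h⟩

/-- the output of a polynomial time function has polynomial size -/
theorem CD.size_le {V : D → Prop} {f : D → D} (hf : CD O V f) :
    ∃ P : Polynomial ℕ, ∀ x, V x → (f x).size ≤ P.eval x.size := by
  obtain ⟨p, m, P, hp, hm, h⟩ := hf
  refine ⟨Polynomial.X + P, fun x hx => ?_⟩
  obtain ⟨t, ht, he⟩ := h x (Function.update (fun _ => []) 0 x.enc) hx (by simp)
    (fun r hr _ => by rw [Function.update_of_ne (by omega)])
  have := Exec.length_le he 0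
  simp at this
  simp
  omega

theorem CD.mono {V W : D → Prop} {f : D → D} (hf : CD O W f) (h : ∀ x, V x → W x) :
    CD O V f := by
  obtain ⟨p, m, P, hp, hm, h'⟩ := hf
  exact ⟨p, m, P, hp, hm, fun x σ hx => h' x σ (h x hx)⟩

theorem CD.id (V : D → Prop) : CD O V (fun x => x) :=
  CD.mk .skip 1 1 trivial Nat.one_pos (fun x σ _ h0 _ => by
    refine (Ex.skip σ).cast' ?_ (by simp)
    rw [← h0, Function.update_eq_self])

theorem CD.const (V : D → Prop) (d : D) : CD O V (fun _ => d) :=
  CD.mk (.seq (clr 0) (pushAll 0 d.enc)) 1 (2 * Polynomial.X + Polynomial.C (2 * d.size + 3))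
    ⟨clr_bdd Nat.one_pos, pushAll_bdd Nat.one_pos _⟩ Nat.one_pos (fun x σ _ h0 _ => by
    refine ((clr_ex 0 x.enc σ h0).seq (pushAll_ex 0 d.enc _)).cast' (by simp) ?_
    simp only [Polynomial.eval_add, Polynomial.eval_mul, Polynomial.eval_X, Polynomial.eval_C,
      Polynomial.eval_ofNat, D.enc_length]
    omega)

theorem CD.comp {V W : D → Prop} {g f : D → D} (hg : CD O W g) (hf : CD O V f)
    (h : ∀ x, V x → W (f x)) : CD O V (fun x => g (f x)) := by
  have hVW := h
  obtain ⟨Q, hQ⟩ := hf.size_le
  obtain ⟨p, m, P, hp, hm, h⟩ := hf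
  obtain ⟨p', m', P', hp', hm', h'⟩ := hg
  refine CD.mk (.seq p p') (max m m') (P + P'.comp Q + 1)
    ⟨hp.mono (le_max_left _ _), hp'.mono (le_max_right _ _)⟩ (lt_max_of_lt_left hm)
    (fun x σ hx h0 he => ?_)
  have h1 : Ex O p σ (Function.update σ 0 (f x).enc) (P.eval x.size) :=
    h x σ hx h0 (fun r hr hr' => he r hr (lt_max_of_lt_left hr'))
  have h2 : Ex O p' (Function.update σ 0 (f x).enc)
      (Function.update (Function.update σ 0 (f x).enc) 0 (g (f x)).enc)
      (P'.eval (f x).size) :=
    h' (f x) (Function.update σ 0 (f x).enc) (hVW x hx) (by simp)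
      (fun r hr hr' => by
        rw [Function.update_of_ne (by omega)]
        exact he r hr (lt_max_of_lt_right hr'))
  refine (h1.seq h2).cast' (by simp) ?_
  have h3 := poly_mono P' (hQ x hx)
  simp only [Polynomial.eval_add, Polynomial.eval_comp, Polynomial.eval_one]
  omega

theorem CD.pair {V : D → Prop} {f g : D → D} (hf : CD O V f) (hg : CD O V g) :
    CD O V (fun x => .cons (f x) (g x)) := by
  obtain ⟨Q, hQ⟩ := hf.size_le
  obtain ⟨p, m, P, hp, hm, h⟩ := hf
  obtain ⟨p', m', P', hp', hm', h'⟩ := hg
  obtain ⟨M, hM⟩ : ∃ M, M = max m m' := ⟨_, rfl⟩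
  have hmM : m ≤ M := by omega
  have hmM' : m' ≤ M := by omega
  have hM0 : 0 < M := by omega
  refine CD.mk (.seq (mv2 0 M (M + 1)) (.seq (mv M 0) (.seq p (.seq (mv 0 M)
    (.seq (mv (M + 1) 0) (.seq p' (.seq (mv M 0) (.push 0 true)))))))) (M + 2)
    (17 * Polynomial.X + 10 * Q + P + P' + 20) ?_ (by omega) (fun x σ hx h0 he => ?_)
  · refine ⟨mv2_bdd (by omega) (by omega) (by omega), mv_bdd (by omega) (by omega),
      hp.mono (by omega), mv_bdd (by omega) (by omega), mv_bdd (by omega) (by omega),
      hp'.mono (by omega), mv_bdd (by omega) (by omega), ?_⟩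
    show 0 < M + 2
    omega
  · have heM : σ M = [] := he M (by omega) (by omega)
    have heM1 : σ (M + 1) = [] := he (M + 1) (by omega) (by omega)
    have n1 : M ≠ 0 := by omega
    have n2 : M + 1 ≠ 0 := by omega
    have n3 : M + 1 ≠ M := by omega
    have n4 : M ≠ M + 1 := by omega
    -- the intermediate stores
    let S : List Bool → List Bool → List Bool → Store := fun a b c =>
      Function.update (Function.update (Function.update σ M b) (M + 1) c) 0 a
    have S0 : ∀ a b c, S a b c 0 = a := fun a b c => by simp [S]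
    have SM : ∀ a b c, S a b c M = b := fun a b c => by
      simp [S, Function.update_of_ne n1, Function.update_of_ne n4]
    have SM1 : ∀ a b c, S a b c (M + 1) = c := fun a b c => by
      simp [S, Function.update_of_ne n2]
    have U0 : ∀ a b c d, Function.update (S a b c) 0 d = S d b c := fun a b c d => by
      simp [S]
    have UM : ∀ a b c d, Function.update (S a b c) M d = S a d c := fun a b c d => by
      funext k
      by_cases k0 : k = M
      · subst k0; simp [SM]
      · rw [Function.update_of_ne k0]
        by_cases k1 : k = 0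
        · subst k1; simp [S]
        · by_cases k2 : k = M + 1
          · subst k2; simp [SM1]
          · simp [S, Function.update_of_ne k0, Function.update_of_ne k1,
              Function.update_of_ne k2]
    have UM1 : ∀ a b c d, Function.update (S a b c) (M + 1) d = S a b d := fun a b c d => by
      funext k
      by_cases k0 : k = M + 1
      · subst k0; simp [SM1]
      · rw [Function.update_of_ne k0]
        by_cases k1 : k = 0
        · subst k1; simp [S]
        · simp [S, Function.update_of_ne k0, Function.update_of_ne k1]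
    have Sσ : S x.enc [] [] = σ := by
      funext k
      by_cases k0 : k = 0
      · subst k0; simp [S, h0]
      · by_cases k1 : k = M
        · subst k1; rw [SM, heM]
        · by_cases k2 : k = M + 1
          · subst k2; rw [SM1, heM1]
          · simp [S, Function.update_of_ne k0, Function.update_of_ne k1,
              Function.update_of_ne k2]
    have Slow : ∀ a b c r, 1 ≤ r → r < M → S a b c r = [] := by
      intro a b c r h1 h2
      simp only [S]
      rw [Function.update_of_ne (by omega), Function.update_of_ne (by omega),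
        Function.update_of_ne (by omega)]
      exact he r h1 (by omega)
    -- the run
    have e1 : Ex O (mv2 0 M (M + 1)) σ (S [] x.enc.reverse x.enc.reverse) (7 * x.size + 1) := by
      have := mv2_ex (O := O) (r := 0) (s := M) (s' := M + 1) n1.symm n2.symm n4 x.enc
        (S x.enc [] []) (S0 _ _ _)
      rw [SM, SM1, UM, UM1, U0, Sσ, D.enc_length] at this
      simpa using this
    have e2 : Ex O (mv M 0) (S [] x.enc.reverse x.enc.reverse) (S x.enc [] x.enc.reverse)
        (5 * x.size + 1) := by
      have := mv_ex (O := O) (r := M) (s := 0) n1 x.enc.reverse (S [] x.enc.reverse x.enc.reverse)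
        (SM _ _ _)
      rw [S0, U0, UM, List.length_reverse, D.enc_length] at this
      simpa using this
    have e3 : Ex O p (S x.enc [] x.enc.reverse) (S (f x).enc [] x.enc.reverse)
        (P.eval x.size) := by
      have : Ex O p (S x.enc [] x.enc.reverse)
          (Function.update (S x.enc [] x.enc.reverse) 0 (f x).enc) (P.eval x.size) :=
        h x (S x.enc [] x.enc.reverse) hx (S0 _ _ _)
          (fun r hr hr' => Slow _ _ _ r hr (by omega))
      rwa [U0] at this
    have e4 : Ex O (mv 0 M) (S (f x).enc [] x.enc.reverse)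
        (S [] (f x).enc.reverse x.enc.reverse) (5 * (f x).size + 1) := by
      have := mv_ex (O := O) (r := 0) (s := M) n1.symm (f x).enc (S (f x).enc [] x.enc.reverse)
        (S0 _ _ _)
      rw [SM, UM, U0, D.enc_length] at this
      simpa using this
    have e5 : Ex O (mv (M + 1) 0) (S [] (f x).enc.reverse x.enc.reverse)
        (S x.enc (f x).enc.reverse []) (5 * x.size + 1) := by
      have := mv_ex (O := O) (r := M + 1) (s := 0) n2 x.enc.reverse
        (S [] (f x).enc.reverse x.enc.reverse) (SM1 _ _ _)
      rw [S0, U0, UM1, List.length_reverse, D.enc_length] at this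
      simpa using this
    have e6 : Ex O p' (S x.enc (f x).enc.reverse []) (S (g x).enc (f x).enc.reverse [])
        (P'.eval x.size) := by
      have : Ex O p' (S x.enc (f x).enc.reverse [])
          (Function.update (S x.enc (f x).enc.reverse []) 0 (g x).enc) (P'.eval x.size) :=
        h' x (S x.enc (f x).enc.reverse []) hx (S0 _ _ _)
          (fun r hr hr' => Slow _ _ _ r hr (by omega))
      rwa [U0] at this
    have e7 : Ex O (mv M 0) (S (g x).enc (f x).enc.reverse [])
        (S ((f x).enc ++ (g x).enc) [] []) (5 * (f x).size + 1) := by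
      have := mv_ex (O := O) (r := M) (s := 0) n1 (f x).enc.reverse (S (g x).enc (f x).enc.reverse [])
        (SM _ _ _)
      rw [S0, U0, UM, List.length_reverse, D.enc_length] at this
      simpa using this
    have e8 : Ex O (.push 0 true) (S ((f x).enc ++ (g x).enc) [] [])
        (Function.update σ 0 (D.cons (f x) (g x)).enc) 1 := by
      have := Ex.push (O := O) 0 true (S ((f x).enc ++ (g x).enc) [] [])
      rw [S0, U0] at this
      rw [← Sσ, U0]
      exact this
    refine (e1.seq (e2.seq (e3.seq (e4.seq (e5.seq (e6.seq (e7.seq e8))))))).mono ?_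
    have h3 := hQ x hx
    simp only [Polynomial.eval_add, Polynomial.eval_mul, Polynomial.eval_X,
      Polynomial.eval_ofNat]
    omega

theorem CD.ite {V : D → Prop} {c f g : D → D} (hc : CD O V c)
    (hf : CD O (fun x => V x ∧ c x = .nil) f) (hg : CD O (fun x => V x ∧ c x ≠ .nil) g) :
    CD O V (fun x => if c x = .nil then f x else g x) := by
  obtain ⟨Q, hQ⟩ := hc.size_le
  obtain ⟨pc, mc, Pc, hpc, hmc, hhc⟩ := hc
  obtain ⟨p, m, P, hp, hm, h⟩ := hf
  obtain ⟨p', m', P', hp', hm', h'⟩ := hg
  obtain ⟨M, hM⟩ : ∃ M, M = max mc (max m m') := ⟨_, rfl⟩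
  have hmcM : mc ≤ M := by omega
  have hmM : m ≤ M := by omega
  have hmM' : m' ≤ M := by omega
  have hM0 : 0 < M := by omega
  refine CD.mk (.seq (mv2 0 M (M + 1)) (.seq (mv M 0) (.seq pc
    (.cond 0 .skip (.seq (clr 0) (.seq (mv (M + 1) 0) p))
      (.seq (clr 0) (.seq (mv (M + 1) 0) p')))))) (M + 2)
    (17 * Polynomial.X + 2 * Q + Pc + P + P' + 20) ?_ (by omega) (fun x σ hx h0 he => ?_)
  · refine ⟨mv2_bdd (by omega) (by omega) (by omega), mv_bdd (by omega) (by omega),
      hpc.mono (by omega), by omega, trivial,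
      ⟨clr_bdd (by omega), mv_bdd (by omega) (by omega), hp.mono (by omega)⟩,
      ⟨clr_bdd (by omega), mv_bdd (by omega) (by omega), hp'.mono (by omega)⟩⟩
  · have heM : σ M = [] := he M (by omega) (by omega)
    have heM1 : σ (M + 1) = [] := he (M + 1) (by omega) (by omega)
    have n1 : M ≠ 0 := by omega
    have n2 : M + 1 ≠ 0 := by omega
    have n3 : M + 1 ≠ M := by omega
    have n4 : M ≠ M + 1 := by omega
    let S : List Bool → List Bool → List Bool → Store := fun a b c =>
      Function.update (Function.update (Function.update σ M b) (M + 1) c) 0 a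
    have S0 : ∀ a b c, S a b c 0 = a := fun a b c => by simp [S]
    have SM : ∀ a b c, S a b c M = b := fun a b c => by
      simp [S, Function.update_of_ne n1, Function.update_of_ne n4]
    have SM1 : ∀ a b c, S a b c (M + 1) = c := fun a b c => by
      simp [S, Function.update_of_ne n2]
    have U0 : ∀ a b c d, Function.update (S a b c) 0 d = S d b c := fun a b c d => by
      simp [S]
    have UM : ∀ a b c d, Function.update (S a b c) M d = S a d c := fun a b c d => by
      funext k
      by_cases k0 : k = M
      · subst k0; simp [SM]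
      · rw [Function.update_of_ne k0]
        by_cases k1 : k = 0
        · subst k1; simp [S]
        · by_cases k2 : k = M + 1
          · subst k2; simp [SM1]
          · simp [S, Function.update_of_ne k0, Function.update_of_ne k1,
              Function.update_of_ne k2]
    have UM1 : ∀ a b c d, Function.update (S a b c) (M + 1) d = S a b d := fun a b c d => by
      funext k
      by_cases k0 : k = M + 1
      · subst k0; simp [SM1]
      · rw [Function.update_of_ne k0]
        by_cases k1 : k = 0
        · subst k1; simp [S]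
        · simp [S, Function.update_of_ne k0, Function.update_of_ne k1]
    have Sσ : S x.enc [] [] = σ := by
      funext k
      by_cases k0 : k = 0
      · subst k0; simp [S, h0]
      · by_cases k1 : k = M
        · subst k1; rw [SM, heM]
        · by_cases k2 : k = M + 1
          · subst k2; rw [SM1, heM1]
          · simp [S, Function.update_of_ne k0, Function.update_of_ne k1,
              Function.update_of_ne k2]
    have Slow : ∀ a b c r, 1 ≤ r → r < M → S a b c r = [] := by
      intro a b c r h1 h2
      simp only [S]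
      rw [Function.update_of_ne (by omega), Function.update_of_ne (by omega),
        Function.update_of_ne (by omega)]
      exact he r h1 (by omega)
    have e1 : Ex O (mv2 0 M (M + 1)) σ (S [] x.enc.reverse x.enc.reverse) (7 * x.size + 1) := by
      have := mv2_ex (O := O) (r := 0) (s := M) (s' := M + 1) n1.symm n2.symm n4 x.enc
        (S x.enc [] []) (S0 _ _ _)
      rw [SM, SM1, UM, UM1, U0, Sσ, D.enc_length] at this
      simpa using this
    have e2 : Ex O (mv M 0) (S [] x.enc.reverse x.enc.reverse) (S x.enc [] x.enc.reverse)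
        (5 * x.size + 1) := by
      have := mv_ex (O := O) (r := M) (s := 0) n1 x.enc.reverse (S [] x.enc.reverse x.enc.reverse)
        (SM _ _ _)
      rw [S0, U0, UM, List.length_reverse, D.enc_length] at this
      simpa using this
    have e3 : Ex O pc (S x.enc [] x.enc.reverse) (S (c x).enc [] x.enc.reverse)
        (Pc.eval x.size) := by
      have : Ex O pc (S x.enc [] x.enc.reverse)
          (Function.update (S x.enc [] x.enc.reverse) 0 (c x).enc) (Pc.eval x.size) :=
        hhc x (S x.enc [] x.enc.reverse) hx (S0 _ _ _)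
          (fun r hr hr' => Slow _ _ _ r hr (by omega))
      rwa [U0] at this
    have e4 : Ex O (clr 0) (S (c x).enc [] x.enc.reverse) (S [] [] x.enc.reverse)
        (2 * (c x).size + 1) := by
      have := clr_ex (O := O) 0 (c x).enc (S (c x).enc [] x.enc.reverse) (S0 _ _ _)
      rwa [U0, D.enc_length] at this
    have e5 : Ex O (mv (M + 1) 0) (S [] [] x.enc.reverse) (S x.enc [] []) (5 * x.size + 1) := by
      have := mv_ex (O := O) (r := M + 1) (s := 0) n2 x.enc.reverse
        (S [] [] x.enc.reverse) (SM1 _ _ _)
      rw [S0, U0, UM1, List.length_reverse, D.enc_length] at this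
      simpa using this
    have e6 : c x = .nil →
        Ex O p (S x.enc [] []) (Function.update σ 0 (f x).enc) (P.eval x.size) := by
      intro hcx
      rw [Sσ]
      exact h x σ ⟨hx, hcx⟩ h0 (fun r hr hr' => he r hr (by omega))
    have e7 : c x ≠ .nil →
        Ex O p' (S x.enc [] []) (Function.update σ 0 (g x).enc) (P'.eval x.size) := by
      intro hcx
      rw [Sσ]
      exact h' x σ ⟨hx, hcx⟩ h0 (fun r hr hr' => he r hr (by omega))
    have h3 := hQ x hx
    cases hcx : c x with
    | nil =>
      simp only [if_true]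
      refine (e1.seq (e2.seq (e3.seq (Ex.case_false (l := []) ?_
        (e4.seq (e5.seq (e6 hcx))))))).mono ?_
      · rw [S0, hcx]; rfl
      · simp only [Polynomial.eval_add, Polynomial.eval_mul, Polynomial.eval_X,
          Polynomial.eval_ofNat]
        omega
    | cons a b =>
      simp only [reduceCtorEq, if_false]
      refine (e1.seq (e2.seq (e3.seq (Ex.case_true (l := a.enc ++ b.enc) ?_
        (e4.seq (e5.seq (e7 (by simp [hcx])))))))).mono ?_
      · rw [S0, hcx]; rfl
      · simp only [Polynomial.eval_add, Polynomial.eval_mul, Polynomial.eval_X,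
          Polynomial.eval_ofNat]
        omega

end Pool.Agent.CKP
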