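import Pool.Agent.Lib_helper74.NE.Exec

/-! Relativized polynomial time on binary trees (S-expressions), via while programs over bit
stacks with an oracle.  (Port of the unrelativized library `Lib_helper2.PT`.) -/

namespace Pool.Agent.CKP

open Pool.Agent.CK


/-- Binary trees. -/
inductive D : Type
  | nil : D
  | cons (a b : D) : D
  deriving DecidableEq

namespace D

/-- number of nodes -/
def size : D → ℕ
  | nil => 1
  | cons a b => a.size + b.size + 1

/-- prefix code -/
def enc : D → List Bool
  | nil => [false]
  | cons a b => true :: (a.enc ++ b.enc)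

def car : D → D
  | nil => nil
  | cons a _ => a

def cdr : D → D
  | nil => nil
  | cons _ b => b

@[simp] theorem enc_length : ∀ d : D, d.enc.length = d.size
  | nil => rfl
  | cons a b => by simp [enc, size, enc_length a, enc_length b]

theorem size_pos : ∀ d : D, 0 < d.size
  | nil => Nat.one_pos
  | cons a b => by simp [size]

end D

/-- A tree function computed in place (register `0`) by a while program in polynomial time, for
the inputs in the domain `V`.
The program uses the registers below `m`, which are empty (except register `0`) before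
and after the run; all other registers are arbitrary and unchanged. -/
def CD (O : Lang) (V : D → Prop) (f : D → D) : Prop :=
  ∃ (p : Cmd) (m : ℕ) (P : Polynomial ℕ), Bdd m p ∧ 0 < m ∧
    ∀ (x : D) (σ : Store), V x → σ 0 = x.enc → (∀ r, 1 ≤ r → r < m → σ r = []) →
      ∃ t ≤ P.eval x.size, Exec O p σ (Function.update σ 0 (f x).enc) t

/-- Types coded by trees. -/
class ToD (α : Type) where
  toD : α → D

export ToD (toD)

/-- size of the code -/
def sz {α : Type} [ToD α] (a : α) : ℕ := (toD a).size

instance : ToD D := ⟨id⟩
instance : ToD Unit := ⟨fun _ => .nil⟩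
instance : ToD Bool := ⟨fun b => if b then .cons .nil .nil else .nil⟩
instance {α β : Type} [ToD α] [ToD β] : ToD (α × β) := ⟨fun p => .cons (toD p.1) (toD p.2)⟩

/-- code of a list -/
def listD {α : Type} [ToD α] : List α → D
  | [] => .nil
  | a :: l => .cons (toD a) (listD l)

instance {α : Type} [ToD α] : ToD (List α) := ⟨listD⟩
/-- numbers are coded by their binary digits, least significant digit first -/
instance : ToD ℕ := ⟨fun n => toD n.bits⟩
instance : ToD (Fin 3) := ⟨fun i => toD (decide (i = 0), decide (i = 1))⟩
instance {α : Type} [ToD α] : ToD (Fin 3 → α) := ⟨fun f => toD (f 0, f 1, f 2)⟩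

/-- Polynomial time functions between coded types. -/
def PTime (O : Lang) {α β : Type} [ToD α] [ToD β] (f : α → β) : Prop :=
  ∃ F : D → D, CD O (fun d => ∃ a : α, toD a = d) F ∧ ∀ a, F (toD a) = toD (f a)

theorem sz_pos {α : Type} [ToD α] (a : α) : 0 < sz a := D.size_pos _
@[simp] theorem sz_pair {α β : Type} [ToD α] [ToD β] (a : α) (b : β) :
    sz (a, b) = sz a + sz b + 1 := rfl
@[simp] theorem sz_nil {α : Type} [ToD α] : sz ([] : List α) = 1 := rfl
@[simp] theorem sz_cons {α : Type} [ToD α] (a : α) (l : List α) :
    sz (a :: l) = sz a + sz l + 1 := rfl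
@[simp] theorem sz_true : sz true = 3 := rfl
@[simp] theorem sz_false : sz false = 1 := rfl
theorem sz_nat (n : ℕ) : sz n = sz n.bits := rfl
theorem sz_fun {α : Type} [ToD α] (f : Fin 3 → α) :
    sz f = sz (f 0) + (sz (f 1) + sz (f 2) + 1) + 1 := rfl


/-- case distinction on a list -/
def lcase {α β : Type} (l : List α) (n : β) (c : α → List α → β) : β :=
  match l with
  | [] => n
  | a :: t => c a t

@[simp] theorem lcase_nil {α β : Type} (n : β) (c : α → List α → β) : lcase [] n c = n := rfl
@[simp] theorem lcase_cons {α β : Type} (a : α) (t : List α) (n : β) (c : α → List α → β) :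
    lcase (a :: t) n c = c a t := rfl

end Pool.Agent.CKP
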