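import Pool.Agent.Lib_helper74.CKF.Defs

/-!
# Oracle machines: big-step semantics

The machine model is that of `Pool.Agent.Lib_helper74.CKF.Defs` (while-programs on stacks of bits
with an oracle query).  Here: a big-step semantics with exact step counts.
-/

set_option autoImplicit false

namespace Pool.Agent.CKP

open Pool.Agent.CK

abbrev Store := ℕ → List Bool

/-- Big-step semantics with exact step counts, oracle `O`. -/
inductive Exec (O : Lang) : Cmd → Store → Store → ℕ → Prop
  | skip (σ : Store) : Exec O .skip σ σ 1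
  | push (r : ℕ) (b : Bool) (σ : Store) :
      Exec O (.push r b) σ (Function.update σ r (b :: σ r)) 1
  | pop (r : ℕ) (σ : Store) : Exec O (.pop r) σ (Function.update σ r (σ r).tail) 1
  | seq {p q : Cmd} {σ σ1 σ2 : Store} {t1 t2 : ℕ} :
      Exec O p σ σ1 t1 → Exec O q σ1 σ2 t2 → Exec O (.seq p q) σ σ2 (t1 + t2 + 1)
  | loop_nil {r : ℕ} {p : Cmd} {σ : Store} : σ r = [] → Exec O (.loop r p) σ σ 1
  | loop_cons {r : ℕ} {p : Cmd} {σ σ1 σ2 : Store} {t1 t2 : ℕ} :
      σ r ≠ [] → Exec O p σ σ1 t1 → Exec O (.loop r p) σ1 σ2 t2 →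
        Exec O (.loop r p) σ σ2 (t1 + t2 + 1)
  | case_nil {r : ℕ} {p0 pf pt : Cmd} {σ σ' : Store} {t : ℕ} :
      σ r = [] → Exec O p0 σ σ' t → Exec O (.cond r p0 pf pt) σ σ' (t + 1)
  | case_false {r : ℕ} {p0 pf pt : Cmd} {σ σ' : Store} {t : ℕ} :
      (σ r).head? = some false → Exec O pf σ σ' t → Exec O (.cond r p0 pf pt) σ σ' (t + 1)
  | case_true {r : ℕ} {p0 pf pt : Cmd} {σ σ' : Store} {t : ℕ} :
      (σ r).head? = some true → Exec O pt σ σ' t → Exec O (.cond r p0 pf pt) σ σ' (t + 1)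
  | ask_false {r : ℕ} {pf pt : Cmd} {σ σ' : Store} {t : ℕ} :
      O (σ r) = false → Exec O pf σ σ' t → Exec O (.ask r pf pt) σ σ' (t + 1)
  | ask_true {r : ℕ} {pf pt : Cmd} {σ σ' : Store} {t : ℕ} :
      O (σ r) = true → Exec O pt σ σ' t → Exec O (.ask r pf pt) σ σ' (t + 1)

/-- All registers used are below `m`. -/
def Bdd (m : ℕ) : Cmd → Prop
  | .skip => True
  | .push r _ => r < m
  | .pop r => r < m
  | .seq p q => Bdd m p ∧ Bdd m q
  | .loop r p => r < m ∧ Bdd m p
  | .cond r p q s => r < m ∧ Bdd m p ∧ Bdd m q ∧ Bdd m s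
  | .ask r p q => r < m ∧ Bdd m p ∧ Bdd m q

theorem Bdd.mono {m m' : ℕ} (h : m ≤ m') : ∀ {p : Cmd}, Bdd m p → Bdd m' p
  | .skip, _ => trivial
  | .push _ _, hp => lt_of_lt_of_le hp h
  | .pop _, hp => lt_of_lt_of_le hp h
  | .seq _ _, hp => ⟨hp.1.mono h, hp.2.mono h⟩
  | .loop _ _, hp => ⟨lt_of_lt_of_le hp.1 h, hp.2.mono h⟩
  | .cond _ _ _ _, hp => ⟨lt_of_lt_of_le hp.1 h, hp.2.1.mono h, hp.2.2.1.mono h, hp.2.2.2.mono h⟩
  | .ask _ _ _, hp => ⟨lt_of_lt_of_le hp.1 h, hp.2.1.mono h, hp.2.2.mono h⟩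

/-- Every program is bounded by some number of registers. -/
theorem exists_bdd : ∀ p : Cmd, ∃ m, Bdd m p
  | .skip => ⟨0, trivial⟩
  | .push r _ => ⟨r + 1, Nat.lt_succ_self r⟩
  | .pop r => ⟨r + 1, Nat.lt_succ_self r⟩
  | .seq p q => by
    obtain ⟨a, ha⟩ := exists_bdd p
    obtain ⟨b, hb⟩ := exists_bdd q
    exact ⟨max a b, ha.mono (le_max_left _ _), hb.mono (le_max_right _ _)⟩
  | .loop r p => by
    obtain ⟨a, ha⟩ := exists_bdd p
    exact ⟨max a (r + 1), lt_of_lt_of_le (Nat.lt_succ_self r) (le_max_right _ _),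
      ha.mono (le_max_left _ _)⟩
  | .cond r p q s => by
    obtain ⟨a, ha⟩ := exists_bdd p
    obtain ⟨b, hb⟩ := exists_bdd q
    obtain ⟨c, hc⟩ := exists_bdd s
    refine ⟨max (max a b) (max c (r + 1)), ?_, ha.mono ?_, hb.mono ?_, hc.mono ?_⟩
    · exact lt_of_lt_of_le (Nat.lt_succ_self r) (le_trans (le_max_right _ _) (le_max_right _ _))
    · exact le_trans (le_max_left _ _) (le_max_left _ _)
    · exact le_trans (le_max_right _ _) (le_max_left _ _)
    · exact le_trans (le_max_left _ _) (le_max_right _ _)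
  | .ask r p q => by
    obtain ⟨a, ha⟩ := exists_bdd p
    obtain ⟨b, hb⟩ := exists_bdd q
    refine ⟨max (max a b) (r + 1), ?_, ha.mono ?_, hb.mono ?_⟩
    · exact lt_of_lt_of_le (Nat.lt_succ_self r) (le_max_right _ _)
    · exact le_trans (le_max_left _ _) (le_max_left _ _)
    · exact le_trans (le_max_right _ _) (le_max_left _ _)

/-- The big-step semantics is sound for the step function. -/
theorem Exec.sound {O : Lang} {p : Cmd} {σ σ' : Store} {t : ℕ} (h : Exec O p σ σ' t) :
    ∀ k : List Cmd, (step O)^[t] (p :: k, σ) = (k, σ') := by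
  induction h with
  | skip σ => intro k; rfl
  | push r b σ => intro k; rfl
  | pop r σ => intro k; rfl
  | @seq p q σ σ1 σ2 t1 t2 _ _ ih1 ih2 =>
    intro k
    rw [Function.iterate_succ_apply]
    show (step O)^[t1 + t2] (p :: q :: k, σ) = (k, σ2)
    rw [Nat.add_comm, Function.iterate_add_apply, ih1, ih2]
  | @loop_nil r p σ hr =>
    intro k
    show (if σ r = [] then (k, σ) else (p :: Cmd.loop r p :: k, σ)) = (k, σ)
    rw [if_pos hr]
  | @loop_cons r p σ σ1 σ2 t1 t2 hr _ _ ih1 ih2 =>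
    intro k
    rw [Function.iterate_succ_apply]
    have : step O (Cmd.loop r p :: k, σ) = (p :: Cmd.loop r p :: k, σ) := by
      show (if σ r = [] then (k, σ) else (p :: Cmd.loop r p :: k, σ)) = _
      rw [if_neg hr]
    rw [this, Nat.add_comm, Function.iterate_add_apply, ih1, ih2]
  | @case_nil r p0 pf pt σ σ' t hr _ ih =>
    intro k
    rw [Function.iterate_succ_apply]
    have : step O (Cmd.cond r p0 pf pt :: k, σ) = (p0 :: k, σ) := by
      simp only [step, hr]
    rw [this, ih]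
  | @case_false r p0 pf pt σ σ' t hr _ ih =>
    intro k
    rw [Function.iterate_succ_apply]
    obtain ⟨l, hl⟩ : ∃ l, σ r = false :: l := by
      cases h : σ r with
      | nil => simp [h] at hr
      | cons a l => simp [h] at hr; exact ⟨l, by rw [hr]⟩
    have : step O (Cmd.cond r p0 pf pt :: k, σ) = (pf :: k, σ) := by
      simp only [step, hl]
    rw [this, ih]
  | @case_true r p0 pf pt σ σ' t hr _ ih =>
    intro k
    rw [Function.iterate_succ_apply]
    obtain ⟨l, hl⟩ : ∃ l, σ r = true :: l := by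
      cases h : σ r with
      | nil => simp [h] at hr
      | cons a l => simp [h] at hr; exact ⟨l, by rw [hr]⟩
    have : step O (Cmd.cond r p0 pf pt :: k, σ) = (pt :: k, σ) := by
      simp only [step, hl]
    rw [this, ih]
  | @ask_false r pf pt σ σ' t hr _ ih =>
    intro k
    rw [Function.iterate_succ_apply]
    have : step O (Cmd.ask r pf pt :: k, σ) = (pf :: k, σ) := by
      simp [step, hr]
    rw [this, ih]
  | @ask_true r pf pt σ σ' t hr _ ih =>
    intro k
    rw [Function.iterate_succ_apply]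
    have : step O (Cmd.ask r pf pt :: k, σ) = (pt :: k, σ) := by
      simp [step, hr]
    rw [this, ih]

/-- A halted configuration stays the same. -/
theorem step_halt (O : Lang) (σ : Store) (t : ℕ) : (step O)^[t] ([], σ) = ([], σ) := by
  induction t with
  | zero => rfl
  | succ t ih => rw [Function.iterate_succ_apply']; rw [ih]; rfl

theorem Exec.run {O : Lang} {p : Cmd} {x y : List Bool} {σ' : Store} {t T : ℕ}
    (h : Exec O p (init x y) σ' t) (hT : t ≤ T) : CK.run O p x y T = ([], σ') := by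
  obtain ⟨d, rfl⟩ := Nat.exists_eq_add_of_le hT
  unfold CK.run
  rw [Nat.add_comm, Function.iterate_add_apply, h.sound [], step_halt]

end Pool.Agent.CKP
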