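import Pool.Agent.Lib_helper74.NE.SearchPT

/-! Computations that write down unary numbers of exponential size. -/

set_option autoImplicit false
set_option linter.unusedSectionVars false

namespace Pool.Agent.CKP

open Pool.Agent.CK

variable {O : Lang}
variable {α β γ δ : Type} [ToD α] [ToD β] [ToD γ] [ToD δ]

/-- `f` is computable in time polynomial in the size of the input plus `g` -/
def XT (O : Lang) {α β : Type} [ToD α] [ToD β] (f : α → β) (g : α → ℕ) : Prop :=
  ∃ (p : Cmd) (m : ℕ) (P : Polynomial ℕ), ∀ (a : α) (σ : Store), σ 0 = (toD a).enc →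
    (∀ r, 1 ≤ r → r < m → σ r = []) →
      Ex O p σ (Function.update σ 0 (toD (f a)).enc) (P.eval (sz a + g a))

theorem XT.of_ptime {f : α → β} (hf : PTime O f) (g : α → ℕ) : XT O f g := by
  obtain ⟨F, ⟨p, m, P, _, _, h⟩, hF⟩ := hf
  refine ⟨p, m, P, fun a σ h0 he => ?_⟩
  have h1 : Ex O p σ (Function.update σ 0 (F (toD a)).enc) (P.eval (toD a).size) :=
    h (toD a) σ ⟨a, rfl⟩ h0 he
  rw [hF] at h1
  exact h1.mono (poly_mono P (Nat.le_add_right _ _))

theorem XT.comp {f : α → β} {f' : β → γ} {g : α → ℕ} {g' : β → ℕ} (h' : XT O f' g')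
    (h : XT O f g) : XT O (fun a => f' (f a)) (fun a => g a + (sz (f a) + g' (f a))) := by
  obtain ⟨p, m, P, hp⟩ := h
  obtain ⟨p', m', P', hp'⟩ := h'
  refine ⟨.seq p p', max m m', P + P' + 1, fun a σ h0 he => ?_⟩
  have h1 := hp a σ h0 (fun r hr hr' => he r hr (lt_max_of_lt_left hr'))
  have h2 := hp' (f a) (Function.update σ 0 (toD (f a)).enc) (by simp)
    (fun r hr hr' => by
      rw [Function.update_of_ne (by omega)]
      exact he r hr (lt_max_of_lt_right hr'))
  refine (h1.seq h2).cast' (by simp) ?_
  have h3 := poly_mono P (show sz a + g a ≤ sz a + (g a + (sz (f a) + g' (f a))) by omega)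
  have h4 := poly_mono P' (show sz (f a) + g' (f a) ≤ sz a + (g a + (sz (f a) + g' (f a))) by omega)
  simp only [Polynomial.eval_add, Polynomial.eval_one]
  omega

/-- read the unary number at the beginning of register `0` into register `1` -/
def scanE : Cmd :=
  .loop 3 (.cond 0 .skip (.seq (.pop 0) (.pop 3)) (.seq (.pop 0) (.seq (.pop 0) (.push 1 true))))

theorem scanE_ex (σ : Store) : ∀ (N : ℕ) (w y c : List Bool),
    Ex O scanE (S4 σ ((toD (List.replicate N ())).enc ++ w) y c [true])
      (S4 σ w (List.replicate N true ++ y) c []) (10 * N + 10)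
  | 0, w, y, c => by
    have h0 : S4 σ ((toD (List.replicate 0 ())).enc ++ w) y c [true] 0 = false :: w := rfl
    refine (Ex.loop_cons (by simp [S4]) (Ex.case_false h0 ((Ex.pop 0 _).seq (Ex.pop 3 _)))
      (Ex.loop_nil ?_)).cast' ?_ (by norm_num)
    · simp [S4]
    · rw [h0, S4_u0, S4_u3]
      simp [S4]
  | N + 1, w, y, c => by
    have h0 : S4 σ ((toD (List.replicate (N + 1) ())).enc ++ w) y c [true] 0 =
      true :: false :: ((toD (List.replicate N ())).enc ++ w) := rfl
    have h1 : S4 σ ((toD (List.replicate (N + 1) ())).enc ++ w) y c [true] =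
      S4 σ (true :: false :: ((toD (List.replicate N ())).enc ++ w)) y c [true] := rfl
    have e3 := scanE_ex σ N w (true :: y) c
    have e4 : Ex O (.push 1 true) (S4 σ ((toD (List.replicate N ())).enc ++ w) y c [true])
        (S4 σ ((toD (List.replicate N ())).enc ++ w) (true :: y) c [true]) 1 := by
      have := Ex.push (O := O) 1 true (S4 σ ((toD (List.replicate N ())).enc ++ w) y c [true])
      rw [S4_u1] at this
      exact this
    refine (Ex.loop_cons (by simp [S4]) (Ex.case_true h0 ((Ex.pop 0 _).seq ((Ex.pop 0 _).seq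
        (T2 := 1) (σ2 := S4 σ ((toD (List.replicate N ())).enc ++ w) (true :: y) c [true]) ?_)))
        e3).cast' ?_ (by omega)
    · rw [h1, S4_u0, S4_u0]
      exact e4
    · have : List.replicate N true ++ true :: y = List.replicate (N + 1) true ++ y := by
        rw [List.replicate_succ']
        simp
      rw [this]

/-- double the number in register `2` (through register `3`) -/
def dbl1 : Cmd := .seq (.loop 2 (.seq (.pop 2) (.seq (.push 3 true) (.push 3 true)))) (mv 3 2)

theorem dbl1_ex (σ : Store) (m : ℕ) (a b : List Bool) :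
    Ex O dbl1 (S4 σ a b (List.replicate m true) []) (S4 σ a b (List.replicate (2 * m) true) [])
      (16 * m + 3) := by
  have key : ∀ (m j : ℕ), Ex O (.loop 2 (.seq (.pop 2) (.seq (.push 3 true) (.push 3 true))))
      (S4 σ a b (List.replicate m true) (List.replicate j true))
      (S4 σ a b [] (List.replicate (j + 2 * m) true)) (6 * m + 1) := by
    intro m
    induction m with
    | zero =>
      intro j
      exact (Ex.loop_nil (by simp [S4])).cast (by simp)
    | succ m ih =>
      intro j
      have e1 : Ex O (.seq (.pop 2) (.seq (.push 3 true) (.push 3 true)))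
          (S4 σ a b (List.replicate (m + 1) true) (List.replicate j true))
          (S4 σ a b (List.replicate m true) (List.replicate (j + 2) true)) 5 := by
        refine ((Ex.pop 2 _).seq ((Ex.push 3 true _).seq (Ex.push 3 true _))).cast' ?_
          (by norm_num)
        have h1 : (S4 σ a b (List.replicate (m + 1) true) (List.replicate j true) 2).tail =
          List.replicate m true := by simp [S4, List.replicate_succ]
        rw [h1, S4_u2]
        have h2 : S4 σ a b (List.replicate m true) (List.replicate j true) 3 =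
          List.replicate j true := rfl
        rw [h2, S4_u3]
        have h3 : S4 σ a b (List.replicate m true) (true :: List.replicate j true) 3 =
          true :: List.replicate j true := rfl
        rw [h3, S4_u3]
        rfl
      refine (Ex.loop_cons (by simp [S4, List.replicate_succ]) e1 (ih (j + 2))).cast' ?_
        (by omega)
      rw [show j + 2 + 2 * m = j + 2 * (m + 1) by ring]
  have e1 := key m 0
  have e2 := mv_ex (O := O) (r := 3) (s := 2) (by decide) (List.replicate (0 + 2 * m) true)
    (S4 σ a b [] (List.replicate (0 + 2 * m) true)) rfl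
  have h2 : S4 σ a b [] (List.replicate (0 + 2 * m) true) 2 = [] := rfl
  rw [h2, S4_u2, S4_u3] at e2
  have e3 := e1.seq e2
  refine e3.cast' ?_ ?_
  · simp
  · simp only [List.length_replicate]
    omega

/-- double as often as the number in register `1` says -/
def dblE : Cmd := .loop 1 (.seq (.pop 1) dbl1)

theorem dblE_ex (σ : Store) : ∀ (j m : ℕ) (a : List Bool), ∃ T,
    T + 16 * m ≤ 16 * (m * 2 ^ j) + 6 * j + 1 ∧
    Ex O dblE (S4 σ a (List.replicate j true) (List.replicate m true) [])
      (S4 σ a [] (List.replicate (m * 2 ^ j) true) []) T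
  | 0, m, a => ⟨1, by simp; omega, (Ex.loop_nil (by simp [S4])).cast (by simp)⟩
  | j + 1, m, a => by
    obtain ⟨T, hT, hE⟩ := dblE_ex σ j (2 * m) a
    have e1 : Ex O (.seq (.pop 1) dbl1)
        (S4 σ a (List.replicate (j + 1) true) (List.replicate m true) [])
        (S4 σ a (List.replicate j true) (List.replicate (2 * m) true) []) (16 * m + 5) := by
      refine ((Ex.pop 1 _).seq (T2 := 16 * m + 3)
        (σ2 := S4 σ a (List.replicate j true) (List.replicate (2 * m) true) []) ?_).mono
          (by omega)
      have h1 : (S4 σ a (List.replicate (j + 1) true) (List.replicate m true) [] 1).tail =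
        List.replicate j true := by simp [S4, List.replicate_succ]
      rw [h1, S4_u1]
      exact dbl1_ex σ m a (List.replicate j true)
    refine ⟨16 * m + 5 + T + 1, ?_, (Ex.loop_cons (by simp [S4, List.replicate_succ]) e1 hE).cast
      ?_⟩
    · have h1 : 2 * m * 2 ^ j = m * 2 ^ (j + 1) := by rw [pow_succ]; ring
      rw [h1] at hT
      have h2 : m ≤ m * 2 ^ (j + 1) := Nat.le_mul_of_pos_right _ (by positivity)
      omega
    · have h1 : 2 * m * 2 ^ j = m * 2 ^ (j + 1) := by rw [pow_succ]; ring
      rw [h1]

/-- register `2` as a coded unary number on top of register `0` -/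
def outE : Cmd := .loop 2 (.seq (.pop 2) (.seq (.push 0 false) (.push 0 true)))

theorem outE_ex (σ : Store) (b d w : List Bool) : ∀ (m n : ℕ),
    Ex O outE (S4 σ ((toD (List.replicate n ())).enc ++ w) b (List.replicate m true) d)
      (S4 σ ((toD (List.replicate (n + m) ())).enc ++ w) b [] d) (6 * m + 1)
  | 0, n => (Ex.loop_nil (by simp [S4])).cast (by simp)
  | m + 1, n => by
    have e1 : Ex O (.seq (.pop 2) (.seq (.push 0 false) (.push 0 true)))
        (S4 σ ((toD (List.replicate n ())).enc ++ w) b (List.replicate (m + 1) true) d)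
        (S4 σ ((toD (List.replicate (n + 1) ())).enc ++ w) b (List.replicate m true) d) 5 := by
      refine ((Ex.pop 2 _).seq ((Ex.push 0 false _).seq (Ex.push 0 true _))).cast' ?_
        (by norm_num)
      have h1 : (S4 σ ((toD (List.replicate n ())).enc ++ w) b
        (List.replicate (m + 1) true) d 2).tail = List.replicate m true := by
        simp [S4, List.replicate_succ]
      rw [h1, S4_u2, S4_u0, S4_u0]
      rfl
    refine (Ex.loop_cons (by simp [S4, List.replicate_succ]) e1 (outE_ex σ b d w m (n + 1))).cast'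
      ?_ (by omega)
    rw [show n + 1 + m = n + (m + 1) by ring]

/-- Writing down `2 ^ |e a|` in unary. -/
theorem XT.exp {e : α → List Unit} (he : PTime O e) :
    XT O (fun a : α => (List.replicate (2 ^ (e a).length) (), a)) (fun a => 2 ^ (e a).length) := by
  obtain ⟨Q, hQ⟩ := he.size_le
  have hU : PTime O (fun a : α => (e a, a)) := he.pair PTime.id
  obtain ⟨F, ⟨p, m, P, _, _, h⟩, hF⟩ := hU
  refine ⟨.seq p (.seq (.pop 0) (.seq (.push 3 true) (.seq scanE (.seq (.push 2 true)
    (.seq dblE (.seq (.push 0 false) (.seq outE (.push 0 true)))))))), max m 4,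
    P + 22 * Polynomial.X + 16 * Q + 40, fun a σ h0 hemp => ?_⟩
  have hu : e a = List.replicate (e a).length () := units_eq _
  set n := (e a).length with hn
  have e1 : Ex O p σ (Function.update σ 0 (true :: ((toD (List.replicate n ())).enc ++
      (toD a).enc))) (P.eval (toD a).size) := by
    have h1 : Ex O p σ (Function.update σ 0 (F (toD a)).enc) (P.eval (toD a).size) :=
      h (toD a) σ ⟨a, rfl⟩ h0 (fun r hr hr' => hemp r hr (lt_max_of_lt_left hr'))
    rw [hF] at h1
    rw [← hu]
    exact h1
  have hS : ∀ l : List Bool, Function.update σ 0 l = S4 σ l [] [] [] := by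
    intro l
    funext j
    match j with
    | 0 => simp [S4]
    | 1 => simp [S4, hemp 1 (by omega) (by omega)]
    | 2 => simp [S4, hemp 2 (by omega) (by omega)]
    | 3 => simp [S4, hemp 3 (by omega) (by omega)]
    | j + 4 => simp [S4]
  rw [hS] at e1
  have e2 : Ex O (.pop 0) (S4 σ (true :: ((toD (List.replicate n ())).enc ++ (toD a).enc))
      [] [] []) (S4 σ ((toD (List.replicate n ())).enc ++ (toD a).enc) [] [] []) 1 := by
    have := Ex.pop (O := O) 0 (S4 σ (true :: ((toD (List.replicate n ())).enc ++
      (toD a).enc)) [] [] [])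
    rw [S4_u0] at this
    exact this
  have e3 : Ex O (.push 3 true) (S4 σ ((toD (List.replicate n ())).enc ++ (toD a).enc) [] [] [])
      (S4 σ ((toD (List.replicate n ())).enc ++ (toD a).enc) [] [] [true]) 1 := by
    have := Ex.push (O := O) 3 true (S4 σ ((toD (List.replicate n ())).enc ++ (toD a).enc)
      [] [] [])
    rw [S4_u3] at this
    exact this
  have e4 := scanE_ex (O := O) σ n (toD a).enc [] []
  rw [List.append_nil] at e4
  have e5 : Ex O (.push 2 true) (S4 σ (toD a).enc (List.replicate n true) [] [])
      (S4 σ (toD a).enc (List.replicate n true) (List.replicate 1 true) []) 1 := by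
    have := Ex.push (O := O) 2 true (S4 σ (toD a).enc (List.replicate n true) [] [])
    rw [S4_u2] at this
    exact this
  obtain ⟨T, hT, e6⟩ := dblE_ex (O := O) σ n 1 (toD a).enc
  rw [Nat.one_mul] at hT e6
  have e7 : Ex O (.push 0 false) (S4 σ (toD a).enc [] (List.replicate (2 ^ n) true) [])
      (S4 σ ((toD (List.replicate 0 ())).enc ++ (toD a).enc) [] (List.replicate (2 ^ n) true) [])
      1 := by
    have := Ex.push (O := O) 0 false (S4 σ (toD a).enc [] (List.replicate (2 ^ n) true) [])
    rw [S4_u0] at this
    exact this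
  have e8 := outE_ex (O := O) σ [] [] (toD a).enc (2 ^ n) 0
  rw [Nat.zero_add] at e8
  have e9 : Ex O (.push 0 true) (S4 σ ((toD (List.replicate (2 ^ n) ())).enc ++ (toD a).enc)
      [] [] []) (S4 σ (toD (List.replicate (2 ^ n) (), a)).enc [] [] []) 1 := by
    have := Ex.push (O := O) 0 true (S4 σ ((toD (List.replicate (2 ^ n) ())).enc ++
      (toD a).enc) [] [] [])
    rw [S4_u0] at this
    exact this
  rw [hS]
  refine (e1.seq (e2.seq (e3.seq (e4.seq (e5.seq (e6.seq (e7.seq (e8.seq e9)))))))).mono ?_
  have g1 : n ≤ Q.eval (sz a) := (length_le_sz _).trans (hQ a)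
  have g2 := poly_mono P (show sz a ≤ sz a + 2 ^ n by omega)
  have g3 := poly_mono Q (show sz a ≤ sz a + 2 ^ n by omega)
  have g4 : (toD a).size = sz a := rfl
  rw [g4]
  show _ ≤ Polynomial.eval (sz a + 2 ^ n) _
  simp only [Polynomial.eval_add, Polynomial.eval_mul, Polynomial.eval_ofNat, Polynomial.eval_X]
  omega

/-! ### raw inputs and outputs -/

theorem XT.run_fun {f : List Bool → List Bool} {g : List Bool → ℕ} (h : XT O f g) :
    ∃ (c : Cmd) (P : Polynomial ℕ), ∀ x, ∃ t ≤ P.eval (x.length + (g x + (f x).length)),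
      Halts O c x [] t ∧ (run O c x [] t).2 0 = f x := by
  obtain ⟨p, m, P, hp⟩ := h
  refine ⟨.seq toDP (.seq p unDP), 17 * Polynomial.X + 40 + P.comp (4 * Polynomial.X + 1),
    fun x => ?_⟩
  have e1 := toDP_ex (O := O) x (init x []) rfl rfl
  have e2 := hp x (Function.update (init x []) 0 (toD x).enc) (by simp)
    (fun r hr _ => by rw [Function.update_of_ne (by omega), init_nil x r hr])
  have e3 := unDP_ex (O := O) (f x) (Function.update (Function.update (init x []) 0
    (toD x).enc) 0 (toD (f x)).enc) (by simp) (by simp [init])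
  obtain ⟨t, ht, he⟩ := e1.seq (e2.seq e3)
  refine ⟨t, ht.trans ?_, ?_⟩
  · have h1 : sz x ≤ 4 * x.length + 1 := size_bits x
    have h2 := poly_mono P (show sz x + g x ≤ 4 * (x.length + (g x + (f x).length)) + 1 by omega)
    simp only [Polynomial.eval_comp, Polynomial.eval_add, Polynomial.eval_mul,
      Polynomial.eval_ofNat, Polynomial.eval_X, Polynomial.eval_one]
    omega
  · have hrun := he.run le_rfl
    unfold Halts
    rw [hrun]
    exact ⟨rfl, by simp⟩

theorem XT.run_dec {A : Lang} {g : List Bool → ℕ} (h : XT O A g) :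
    ∃ (c : Cmd) (P : Polynomial ℕ), ∀ x, ∃ t ≤ P.eval (x.length + g x),
      Halts O c x [] t ∧ (Accepts O c x [] t ↔ A x = true) := by
  obtain ⟨p, m, P, hp⟩ := h
  refine ⟨.seq toDP p, 16 * Polynomial.X + 11 + P.comp (4 * Polynomial.X + 1), fun x => ?_⟩
  have e1 := toDP_ex (O := O) x (init x []) rfl rfl
  have e2 := hp x (Function.update (init x []) 0 (toD x).enc) (by simp)
    (fun r hr _ => by rw [Function.update_of_ne (by omega), init_nil x r hr])
  obtain ⟨t, ht, he⟩ := e1.seq e2
  refine ⟨t, ht.trans ?_, ?_⟩
  · have h1 : sz x ≤ 4 * x.length + 1 := size_bits x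
    have h2 := poly_mono P (show sz x + g x ≤ 4 * (x.length + g x) + 1 by omega)
    simp only [Polynomial.eval_comp, Polynomial.eval_add, Polynomial.eval_mul,
      Polynomial.eval_ofNat, Polynomial.eval_X, Polynomial.eval_one]
    omega
  · have hrun := he.run le_rfl
    unfold Halts Accepts
    rw [hrun]
    refine ⟨rfl, ?_⟩
    simp only [true_and, Function.update_self]
    cases A x <;> simp [ToD.toD, D.enc]

end Pool.Agent.CKP
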