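import Pool.Agent.Lib_helper74.NE.NUM

/-! Small closure properties: trees, lists, unary numbers. -/

set_option autoImplicit false
set_option linter.unusedSectionVars false

namespace Pool.Agent.CKP

open Pool.Agent.CK

variable {O : Lang}
variable {α β γ δ : Type} [ToD α] [ToD β] [ToD γ] [ToD δ]

/-! ### trees -/

theorem PTime.car {f : α → D} (hf : PTime O f) : PTime O (fun a => (f a).car) := by
  obtain ⟨F, hF, hf⟩ := hf
  refine ⟨fun x => D.car (F x), (CD.car (fun _ => True)).comp hF (fun _ _ => trivial), fun a => ?_⟩
  show D.car (F (toD a)) = _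
  rw [hf]
  rfl

theorem PTime.cdr {f : α → D} (hf : PTime O f) : PTime O (fun a => (f a).cdr) := by
  obtain ⟨F, hF, hf⟩ := hf
  refine ⟨fun x => D.cdr (F x), (CD.cdr (fun _ => True)).comp hF (fun _ _ => trivial), fun a => ?_⟩
  show D.cdr (F (toD a)) = _
  rw [hf]
  rfl

theorem PTime.consD {f g : α → D} (hf : PTime O f) (hg : PTime O g) :
    PTime O (fun a => D.cons (f a) (g a)) := by
  obtain ⟨F, hF, hf⟩ := hf
  obtain ⟨G, hG, hg⟩ := hg
  refine ⟨fun x => .cons (F x) (G x), hF.pair hG, fun a => ?_⟩
  show D.cons (F (toD a)) (G (toD a)) = _
  rw [hf, hg]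
  rfl

/-- the code of a value, as a tree -/
theorem PTime.code {f : α → β} (hf : PTime O f) : PTime O (fun a => toD (f a)) := by
  obtain ⟨F, hF, hf⟩ := hf
  exact ⟨F, hF, fun a => hf a⟩

/-- a tree is nonempty -/
def toBool : D → Bool
  | .nil => false
  | .cons _ _ => true

@[simp] theorem toBool_toD (b : Bool) : toBool (toD b) = b := by
  cases b <;> rfl

theorem PTime.toBool {f : α → D} (hf : PTime O f) : PTime O (fun a => CKP.toBool (f a)) := by
  obtain ⟨F, hF, hf⟩ := hf
  refine ⟨fun x => if F x = .nil then toD false else toD true,
    CD.ite hF (CD.const _ _) (CD.const _ _), fun a => ?_⟩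
  show (if F (toD a) = .nil then toD false else toD true) = _
  rw [hf]
  show _ = toD (CKP.toBool (f a))
  cases h : f a with
  | nil => rw [if_pos (show toD D.nil = D.nil from rfl)]; rfl
  | cons a b => rw [if_neg (show toD (D.cons a b) ≠ D.nil from fun h => D.noConfusion h)]; rfl

/-- the spine of a tree as a list -/
def toList : D → List D
  | .nil => []
  | .cons a b => a :: toList b

theorem toD_toList : ∀ d : D, toD (toList d) = d
  | .nil => rfl
  | .cons a b => by
    show D.cons a (toD (toList b)) = _
    rw [toD_toList b]

theorem toList_toD : ∀ l : List α, toList (toD l) = l.map toD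
  | [] => rfl
  | a :: l => by
    show toD a :: toList (toD l) = _
    rw [toList_toD l]
    rfl

theorem PTime.toList {f : α → D} (hf : PTime O f) : PTime O (fun a => CKP.toList (f a)) := by
  obtain ⟨F, hF, hf⟩ := hf
  refine ⟨F, hF, fun a => ?_⟩
  rw [hf, toD_toList]
  rfl

/-- a tree read as a string of bits -/
def toBits (d : D) : List Bool := (toList d).map toBool

@[simp] theorem toBits_toD (l : List Bool) : toBits (toD l) = l := by
  unfold toBits
  rw [toList_toD, List.map_map]
  conv_rhs => rw [← List.map_id l]
  congr 1
  funext b
  exact toBool_toD b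

theorem PTime.toBits {f : α → D} (hf : PTime O f) : PTime O (fun a => CKP.toBits (f a)) :=
  PTime.map (f := fun _ d => CKP.toBool d) hf.toList (PTime.id.snd).toBool

/-! ### lists -/

theorem PTime.tail {l : γ → List α} (hl : PTime O l) : PTime O (fun x => (l x).tail) := by
  obtain ⟨F, hF, hf⟩ := hl
  refine ⟨fun x => D.cdr (F x), (CD.cdr (fun _ => True)).comp hF (fun _ _ => trivial), fun a => ?_⟩
  show D.cdr (F (toD a)) = toD (l a).tail
  rw [hf]
  cases l a <;> rfl

theorem PTime.headD {l : γ → List α} {d : γ → α} (hl : PTime O l) (hd : PTime O d) :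
    PTime O (fun x => (l x).headD (d x)) := by
  refine (PTime.lcase (l := l) (n := d) (c := fun _ a _ => a) hl hd PTime.id.snd.fst).of_eq ?_
  intro x
  cases l x <;> rfl

theorem PTime.isNil {l : γ → List α} (hl : PTime O l) : PTime O (fun x => (l x).isEmpty) := by
  refine (PTime.lcase (l := l) (n := fun _ => true) (c := fun _ _ _ => false) hl (PTime.const _)
    (PTime.const _)).of_eq ?_
  intro x
  cases l x <;> rfl

/-- the length of a list, in unary -/
def ulen (l : List α) : List Unit := l.map fun _ => ()

@[simp] theorem ulen_eq (l : List α) : ulen l = List.replicate l.length () := by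
  unfold ulen
  induction l with
  | nil => rfl
  | cons a t ih => simp [List.replicate_succ]

theorem PTime.ulen {l : γ → List α} (hl : PTime O l) : PTime O (fun x => CKP.ulen (l x)) :=
  PTime.map (f := fun _ _ => ()) hl (PTime.const _)

theorem PTime.length {l : γ → List α} (hl : PTime O l) : PTime O (fun x => (l x).length) := by
  refine (PTime.sum (l := l) (f := fun _ _ => 1) hl (PTime.const _)).of_eq ?_
  intro x
  induction l x with
  | nil => rfl
  | cons a t ih => simp [Nat.add_comm]

theorem PTime.nat_eq {f g : γ → ℕ} (hf : PTime O f) (hg : PTime O g) :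
    PTime O (fun x => decide (f x = g x)) :=
  ((hf.nat_le hg).and (hg.nat_le hf)).of_eq fun x => by
    by_cases h : f x = g x
    · simp [h]
    · rcases Nat.lt_or_gt_of_ne h with h' | h' <;> simp [h] <;> omega

theorem PTime.nat_lt {f g : γ → ℕ} (hf : PTime O f) (hg : PTime O g) :
    PTime O (fun x => decide (f x < g x)) :=
  ((hg.nat_le hf).not).of_eq fun x => by
    by_cases h : f x < g x
    · simp [h]
    · simp [h, not_lt.mp h]

theorem PTime.any {l : γ → List α} {f : γ → α → Bool} (hl : PTime O l)
    (hf : PTime O (fun p : γ × α => f p.1 p.2)) : PTime O (fun x => (l x).any (f x)) := by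
  refine (PTime.all (f := fun x a => !f x a) hl hf.not).not.of_eq fun x => ?_
  induction l x with
  | nil => rfl
  | cons a t ih => simp only [List.all_cons, List.any_cons, Bool.not_and, Bool.not_not] at ih ⊢; rw [ih]

/-- flattening -/
theorem PTime.flatten {l : γ → List (List α)} (hl : PTime O l) :
    PTime O (fun x => (l x).flatten) := by
  obtain ⟨Pl, hPl⟩ := hl.size_le
  have h1 : PTime O (fun p : γ × List α × List α => p.2.1) := PTime.id.snd.fst
  have h2 : PTime O (fun p : γ × List α × List α => p.2.2) := PTime.id.snd.snd
  have hsz : ∀ l r : List α, sz (l ++ r) ≤ sz l + sz r := by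
    intro l r
    induction l with
    | nil => simp
    | cons a t ih => rw [List.cons_append, sz_cons, sz_cons]; omega
  have h := PTime.foldr_add (l := l) (i := fun _ => ([] : List α))
    (s := fun _ a r => a ++ r) hl (PTime.const _) (PTime.append h1 h2) Pl (by
      intro x b a ha
      have h3 := (sz_le_of_mem ha).trans (hPl x)
      have h4 := hsz a b
      omega)
  refine h.of_eq fun x => ?_
  induction l x with
  | nil => rfl
  | cons a t ih => rw [List.foldr_cons, List.flatten_cons, ih]

theorem PTime.flatMap {l : γ → List α} {f : γ → α → List β} (hl : PTime O l)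
    (hf : PTime O (fun p : γ × α => f p.1 p.2)) : PTime O (fun x => (l x).flatMap (f x)) :=
  (PTime.flatten (PTime.map hl hf)).of_eq fun x => (List.flatMap_def).symm

theorem PTime.filter {l : γ → List α} {f : γ → α → Bool} (hl : PTime O l)
    (hf : PTime O (fun p : γ × α => f p.1 p.2)) : PTime O (fun x => (l x).filter (f x)) := by
  refine (PTime.flatMap (f := fun x a => if f x a = true then [a] else []) hl
    (PTime.ite hf (PTime.cons PTime.id.snd (PTime.const _)) (PTime.const _))).of_eq fun x => ?_
  induction l x with
  | nil => rfl
  | cons a t ih =>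
    rw [List.flatMap_cons, ih, List.filter_cons]
    by_cases h : f x a = true <;> simp [h]

/-! ### unary numbers -/

/-- the unary numbers below `u`, largest first -/
def downU (u : List Unit) : List (List Unit) :=
  List.rec (motive := fun _ => List (List Unit)) [] (fun _ t r => t :: r) u

/-- the unary numbers below `u`, in increasing order -/
def rangeU (u : List Unit) : List (List Unit) := (downU u).reverse

theorem rangeU_replicate (n : ℕ) :
    rangeU (List.replicate n ()) = (List.range n).map fun i => List.replicate i () := by
  unfold rangeU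
  induction n with
  | zero => rfl
  | succ n ih =>
    have : downU (List.replicate (n + 1) ()) =
        List.replicate n () :: downU (List.replicate n ()) := rfl
    rw [this, List.reverse_cons, ih, List.range_succ, List.map_append]
    rfl

theorem PTime.rangeU {l : γ → List Unit} (hl : PTime O l) : PTime O (fun x => CKP.rangeU (l x)) := by
  obtain ⟨Pl, hPl⟩ := hl.size_le
  refine PTime.reverse ?_
  unfold downU
  refine PTime.listRec_add (l := l) (n := fun _ => ([] : List (List Unit)))
    (c := fun _ _ t r => t :: r) hl (PTime.const _)
    (PTime.cons (PTime.id.snd.snd.fst) (PTime.id.snd.snd.snd)) (Pl + 1) ?_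
  intro x b a t ht
  rw [sz_cons, Polynomial.eval_add, eval_one']
  have h1 : sz t ≤ sz (a :: t) := by rw [sz_cons]; omega
  have h2 := sz_le_of_suffix ht
  have h3 := hPl x
  omega

/-- the product of two unary numbers -/
def umul (u v : List Unit) : List Unit := u.flatMap fun _ => v

theorem umul_replicate (m n : ℕ) :
    umul (List.replicate m ()) (List.replicate n ()) = List.replicate (m * n) () := by
  unfold umul
  induction m with
  | zero => simp
  | succ m ih =>
    rw [List.replicate_succ, List.flatMap_cons, ih, List.replicate_append_replicate]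
    congr 1
    ring

theorem PTime.umul {f g : γ → List Unit} (hf : PTime O f) (hg : PTime O g) :
    PTime O (fun x => CKP.umul (f x) (g x)) :=
  PTime.flatMap (f := fun x _ => g x) hf (hg.comp PTime.id.fst)

/-- `g n` in unary is computable from `n` in unary -/
def UPoly (O : Lang) (g : ℕ → ℕ) : Prop :=
  PTime O (fun u : List Unit => List.replicate (g u.length) ())

theorem UPoly.id : UPoly O (fun n => n) :=
  (PTime.id (α := List Unit)).of_eq fun u => by
    induction u with
    | nil => rfl
    | cons a t ih => rw [List.length_cons, List.replicate_succ, ← ih]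

theorem UPoly.const (c : ℕ) : UPoly O (fun _ => c) := PTime.const _

theorem UPoly.add {f g : ℕ → ℕ} (hf : UPoly O f) (hg : UPoly O g) : UPoly O (fun n => f n + g n) :=
  (PTime.append hf hg).of_eq fun u => by rw [List.replicate_append_replicate]

theorem UPoly.mul {f g : ℕ → ℕ} (hf : UPoly O f) (hg : UPoly O g) : UPoly O (fun n => f n * g n) :=
  (PTime.umul hf hg).of_eq fun u => by rw [umul_replicate]

theorem UPoly.pow {f : ℕ → ℕ} (hf : UPoly O f) (k : ℕ) : UPoly O (fun n => f n ^ k) := by
  induction k with
  | zero => exact (UPoly.const 1)
  | succ k ih =>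
    have := ih.mul hf
    simpa only [pow_succ] using this

theorem UPoly.poly (P : Polynomial ℕ) : UPoly O (fun n => P.eval n) := by
  induction P using Polynomial.induction_on' with
  | add p q hp hq => simpa using hp.add hq
  | monomial n c => simpa using (UPoly.const c).mul ((UPoly.id).pow n)

/-- using a unary function on the length of a list -/
theorem UPoly.comp {g : ℕ → ℕ} (hg : UPoly O g) {l : γ → List α} (hl : PTime O l) :
    PTime O (fun x => List.replicate (g (l x).length) ()) :=
  (PTime.comp (g := fun u : List Unit => List.replicate (g u.length) ()) hg hl.ulen).of_eq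
    fun x => by rw [ulen_eq, List.length_replicate]

/-- remove as many elements as the unary number says -/
def udrop (u : List γ) (l : List α) : List α := u.foldl (fun s _ => s.tail) l

theorem udrop_eq (u : List γ) (l : List α) : udrop u l = l.drop u.length := by
  unfold udrop
  induction u generalizing l with
  | nil => simp
  | cons a t ih => rw [List.foldl_cons, ih, List.length_cons]; cases l <;> simp

theorem sz_tail_le (l : List α) : sz l.tail ≤ sz l := by
  cases l with
  | nil => simp
  | cons a t => rw [List.tail_cons, sz_cons]; omega

theorem PTime.udrop {u : δ → List γ} {l : δ → List α} (hu : PTime O u) (hl : PTime O l) :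
    PTime O (fun x => CKP.udrop (u x) (l x)) := by
  unfold CKP.udrop
  refine PTime.foldl_add (l := u) (i := l) (s := fun _ s _ => s.tail) hu hl
    (PTime.tail PTime.id.snd.fst) 0 ?_
  intro x b a _
  have := sz_tail_le b
  omega

/-- the entry of a list whose number is given in unary -/
theorem PTime.getD {u : δ → List γ} {l : δ → List α} {d : δ → α} (hu : PTime O u)
    (hl : PTime O l) (hd : PTime O d) : PTime O (fun x => (l x).getD (u x).length (d x)) :=
  (PTime.headD (hu.udrop hl) hd).of_eq fun x => by
    rw [udrop_eq]
    generalize u x = v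
    generalize l x = L
    induction v generalizing L with
    | nil => cases L <;> rfl
    | cons a t ih =>
      cases L with
      | nil => simp
      | cons b s => simpa using ih s

end Pool.Agent.CKP
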