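import Pool.Agent.Lib_helper74.NE.CDA
import Pool.Agent.Lib_helper74.NE.CDB

/-! [PTA] typed closure properties. -/

namespace Pool.Agent.CKP

open Pool.Agent.CK

variable {O : Lang}

variable {α β γ δ : Type} [ToD α] [ToD β] [ToD γ] [ToD δ]

theorem PTime.of_eq {f g : α → β} (hf : PTime O f) (h : ∀ a, f a = g a) : PTime O g :=
  (funext h : f = g) ▸ hf

/-- polynomial size bound, with a monotone bound -/
theorem PTime.size_le {f : α → β} (hf : PTime O f) :
    ∃ P : Polynomial ℕ, ∀ a, sz (f a) ≤ P.eval (sz a) := by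
  obtain ⟨F, hF, h⟩ := hf
  obtain ⟨P, hP⟩ := hF.size_le
  refine ⟨P, fun a => ?_⟩
  have := hP (toD a) ⟨a, rfl⟩
  rw [h] at this
  exact this

theorem PTime.id : PTime O (fun a : α => a) :=
  ⟨fun x => x, CD.id _, fun _ => rfl⟩
theorem PTime.const (b : β) : PTime O (fun _ : α => b) :=
  ⟨fun _ => toD b, CD.const _ _, fun _ => rfl⟩
theorem PTime.comp {g : β → γ} {f : α → β} (hg : PTime O g) (hf : PTime O f) :
    PTime O (fun a => g (f a)) := by
  obtain ⟨G, hG, hg⟩ := hg
  obtain ⟨F, hF, hf⟩ := hf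
  refine ⟨fun x => G (F x), hG.comp hF ?_, fun a => ?_⟩
  · rintro x ⟨a, rfl⟩
    exact ⟨f a, (hf a).symm⟩
  · show G (F (toD a)) = _
    rw [hf, hg]
theorem PTime.pair {f : α → β} {g : α → γ} (hf : PTime O f) (hg : PTime O g) :
    PTime O (fun a => (f a, g a)) := by
  obtain ⟨G, hG, hg⟩ := hg
  obtain ⟨F, hF, hf⟩ := hf
  refine ⟨fun x => .cons (F x) (G x), hF.pair hG, fun a => ?_⟩
  show D.cons (F (toD a)) (G (toD a)) = _
  rw [hf, hg]
  rfl
theorem PTime.fst {f : α → β × γ} (hf : PTime O f) : PTime O (fun a => (f a).1) := by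
  obtain ⟨F, hF, hf⟩ := hf
  refine ⟨fun x => D.car (F x), (CD.car (fun _ => True)).comp hF (fun _ _ => trivial), fun a => ?_⟩
  show D.car (F (toD a)) = _
  rw [hf]
  rfl
theorem PTime.snd {f : α → β × γ} (hf : PTime O f) : PTime O (fun a => (f a).2) := by
  obtain ⟨F, hF, hf⟩ := hf
  refine ⟨fun x => D.cdr (F x), (CD.cdr (fun _ => True)).comp hF (fun _ _ => trivial), fun a => ?_⟩
  show D.cdr (F (toD a)) = _
  rw [hf]
  rfl

/-- case distinction in the second branch first -/
theorem PTime.ite {c : α → Bool} {f g : α → β} (hc : PTime O c) (hf : PTime O f) (hg : PTime O g) :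
    PTime O (fun a => if c a = true then f a else g a) := by
  obtain ⟨C, hC, hc⟩ := hc
  obtain ⟨G, hG, hg⟩ := hg
  obtain ⟨F, hF, hf⟩ := hf
  refine ⟨fun x => if C x = .nil then G x else F x,
    CD.ite hC (hG.mono fun _ h => h.1) (hF.mono fun _ h => h.1), fun a => ?_⟩
  show (if C (toD a) = .nil then G (toD a) else F (toD a)) = _
  rw [hc, hg, hf]
  cases h : c a
  · rw [if_pos (show toD false = D.nil from rfl)]
    simp [h]
  · rw [if_neg (show toD true ≠ D.nil from fun h => D.noConfusion h)]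
    simp [h]
theorem PTime.and {f g : α → Bool} (hf : PTime O f) (hg : PTime O g) :
    PTime O (fun a => f a && g a) :=
  (PTime.ite hf hg (PTime.const false)).of_eq fun a => by cases f a <;> simp
theorem PTime.or {f g : α → Bool} (hf : PTime O f) (hg : PTime O g) :
    PTime O (fun a => f a || g a) :=
  (PTime.ite hf (PTime.const true) hg).of_eq fun a => by cases f a <;> simp
theorem PTime.not {f : α → Bool} (hf : PTime O f) : PTime O (fun a => !f a) :=
  (PTime.ite hf (PTime.const false) (PTime.const true)).of_eq fun a => by cases f a <;> simp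

theorem PTime.fin3_isZero {i : α → Fin 3} (hi : PTime O i) : PTime O (fun a => decide (i a = 0)) := by
  obtain ⟨F, hF, hf⟩ := hi
  refine ⟨fun x => D.car (F x), (CD.car (fun _ => True)).comp hF (fun _ _ => trivial), fun a => ?_⟩
  show D.car (F (toD a)) = _
  rw [hf]
  rfl
theorem PTime.fin3_isOne {i : α → Fin 3} (hi : PTime O i) : PTime O (fun a => decide (i a = 1)) := by
  obtain ⟨F, hF, hf⟩ := hi
  refine ⟨fun x => D.cdr (F x), (CD.cdr (fun _ => True)).comp hF (fun _ _ => trivial), fun a => ?_⟩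
  show D.cdr (F (toD a)) = _
  rw [hf]
  rfl

/-- functions of an index in `Fin 3` -/
theorem PTime.fin3 {F : Fin 3 → α → β} {i : α → Fin 3} (hF : ∀ j, PTime O (F j)) (hi : PTime O i) :
    PTime O (fun a => F (i a) a) := by
  refine (PTime.ite hi.fin3_isZero (hF 0) (PTime.ite hi.fin3_isOne (hF 1) (hF 2))).of_eq
    fun a => ?_
  have h : ∀ j : Fin 3, (if decide (j = 0) = true then F 0 a else
      if decide (j = 1) = true then F 1 a else F 2 a) = F j a := by
    intro j
    fin_cases j <;> simp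
  exact h (i a)
theorem PTime.fin3_eq {i j : α → Fin 3} (hi : PTime O i) (hj : PTime O j) :
    PTime O (fun a => decide (i a = j a)) := by
  have h0 : PTime O (fun a => decide ((0 : Fin 3) = j a)) :=
    hj.fin3_isZero.of_eq fun a => by
      generalize j a = k
      fin_cases k <;> simp
  have h1 : PTime O (fun a => decide ((1 : Fin 3) = j a)) :=
    hj.fin3_isOne.of_eq fun a => by
      generalize j a = k
      fin_cases k <;> simp
  have h2 : PTime O (fun a => decide ((2 : Fin 3) = j a)) :=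
    (PTime.not (PTime.or hj.fin3_isZero hj.fin3_isOne)).of_eq fun a => by
      generalize j a = k
      fin_cases k <;> simp
  exact PTime.fin3 (F := fun k a => decide (k = j a)) (fun k => by
    fin_cases k
    · exact h0
    · exact h1
    · exact h2) hi

theorem PTime.app0 {f : α → Fin 3 → β} (hf : PTime O f) : PTime O (fun a => f a 0) := by
  obtain ⟨F, hF, hf⟩ := hf
  refine ⟨fun x => D.car (F x), (CD.car (fun _ => True)).comp hF (fun _ _ => trivial), fun a => ?_⟩
  show D.car (F (toD a)) = _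
  rw [hf]
  rfl
theorem PTime.app1 {f : α → Fin 3 → β} (hf : PTime O f) : PTime O (fun a => f a 1) := by
  obtain ⟨F, hF, hf⟩ := hf
  refine ⟨fun x => D.car (D.cdr (F x)), (CD.car (fun _ => True)).comp
    ((CD.cdr (fun _ => True)).comp hF (fun _ _ => trivial)) (fun _ _ => trivial), fun a => ?_⟩
  show D.car (D.cdr (F (toD a))) = _
  rw [hf]
  rfl
theorem PTime.app2 {f : α → Fin 3 → β} (hf : PTime O f) : PTime O (fun a => f a 2) := by
  obtain ⟨F, hF, hf⟩ := hf
  refine ⟨fun x => D.cdr (D.cdr (F x)), (CD.cdr (fun _ => True)).comp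
    ((CD.cdr (fun _ => True)).comp hF (fun _ _ => trivial)) (fun _ _ => trivial), fun a => ?_⟩
  show D.cdr (D.cdr (F (toD a))) = _
  rw [hf]
  rfl

theorem PTime.app {f : α → Fin 3 → β} {i : α → Fin 3} (hf : PTime O f) (hi : PTime O i) :
    PTime O (fun a => f a (i a)) :=
  PTime.fin3 (F := fun k a => f a k) (fun k => by
    fin_cases k
    · exact hf.app0
    · exact hf.app1
    · exact hf.app2) hi
theorem PTime.lam {f : α → Fin 3 → β} (hf : ∀ i, PTime O (fun a => f a i)) : PTime O f := by
  obtain ⟨F0, hF0, hf0⟩ := hf 0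
  obtain ⟨F1, hF1, hf1⟩ := hf 1
  obtain ⟨F2, hF2, hf2⟩ := hf 2
  refine ⟨fun x => .cons (F0 x) (.cons (F1 x) (F2 x)), hF0.pair (hF1.pair hF2), fun a => ?_⟩
  show D.cons (F0 (toD a)) (.cons (F1 (toD a)) (F2 (toD a))) = _
  rw [hf0, hf1, hf2]
  rfl
theorem PTime.update {f : α → Fin 3 → β} {i : α → Fin 3} {v : α → β} (hf : PTime O f)
    (hi : PTime O i) (hv : PTime O v) : PTime O (fun a => Function.update (f a) (i a) (v a)) := by
  apply PTime.lam
  intro k
  refine (PTime.ite (PTime.fin3_eq (PTime.const k) hi) hv (hf.app (PTime.const k))).of_eq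
    fun a => ?_
  by_cases h : k = i a
  · rw [← h]
    simp
  · rw [Function.update_of_ne h]
    simp [h]

theorem PTime.cons {f : α → β} {l : α → List β} (hf : PTime O f) (hl : PTime O l) :
    PTime O (fun a => f a :: l a) := by
  obtain ⟨G, hG, hg⟩ := hl
  obtain ⟨F, hF, hf⟩ := hf
  refine ⟨fun x => .cons (F x) (G x), hF.pair hG, fun a => ?_⟩
  show D.cons (F (toD a)) (G (toD a)) = _
  rw [hf, hg]
  rfl

theorem PTime.lcase {l : γ → List α} {n : γ → β} {c : γ → α → List α → β}
    (hl : PTime O l) (hn : PTime O n) (hc : PTime O (fun p : γ × α × List α => c p.1 p.2.1 p.2.2)) :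
    PTime O (fun x => CKP.lcase (l x) (n x) (c x)) := by
  obtain ⟨L, hL, hl⟩ := hl
  obtain ⟨N, hN, hn⟩ := hn
  obtain ⟨C, hC, hc⟩ := hc
  refine ⟨fun x => if L x = .nil then N x else C (.cons x (.cons (L x).car (L x).cdr)),
    CD.ite hL (hN.mono fun _ h => h.1) ?_, fun a => ?_⟩
  · apply hC.comp
    · exact (CD.id _).pair (((CD.car (fun _ => True)).comp (hL.mono fun _ h => h.1)
        (fun _ _ => trivial)).pair ((CD.cdr (fun _ => True)).comp (hL.mono fun _ h => h.1)
        (fun _ _ => trivial)))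
    · rintro x ⟨⟨a, rfl⟩, hne⟩
      rw [hl] at hne ⊢
      cases h : l a with
      | nil => rw [h] at hne; exact absurd rfl hne
      | cons b t => exact ⟨(a, b, t), rfl⟩
  · show (if L (toD a) = .nil then N (toD a) else
      C (.cons (toD a) (.cons (L (toD a)).car (L (toD a)).cdr))) = _
    rw [hl, hn]
    show _ = toD (CKP.lcase (l a) (n a) (c a))
    cases h : l a with
    | nil =>
      rw [if_pos (show toD ([] : List α) = D.nil from rfl)]
      rfl
    | cons b t =>
      rw [if_neg (show toD (b :: t) ≠ D.nil from fun h => D.noConfusion h)]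
      exact hc (a, b, t)

end Pool.Agent.CKP
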