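import Pool.Agent.Lib_helper74.NE.SearchCor

/-! The pruned search is a polynomial time computation. -/

set_option autoImplicit false
set_option linter.unusedSectionVars false

namespace Pool.Agent.CKP

open Pool.Agent.CK

variable {O : Lang} {W : ℕ → ℕ → Bool} {ℓ pad M : ℕ → ℕ} {r k : ℕ} {f : List Bool → List Bool}
variable {α β γ δ : Type} [ToD α] [ToD β] [ToD γ] [ToD δ]

theorem sz_nat_self (n : ℕ) : sz n ≤ 4 * n + 1 := by
  have h1 := num_sz_le n
  have h2 : n.size ≤ n := Nat.size_le.mpr Nat.lt_two_pow_self
  omega

theorem PTime.brute {x : γ → List Bool} {N : γ → List Unit} (hx : PTime O x) (hN : PTime O N) :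
    PTime O (fun a => CKP.brute O (x a) (N a)) := by
  obtain ⟨PN, hPN⟩ := hN.size_le
  unfold CKP.brute
  refine PTime.foldl (l := N) (i := fun _ => (0, false))
    (s := fun a s _ => (s.1 + 1, s.2 || CKP.VU O (x a, s.1.bits.dropLast))) hN (PTime.const _) ?_
    (4 * PN + 5) ?_
  · have h1 : PTime O (fun p : γ × (ℕ × Bool) × Unit => p.2.1.1) := PTime.id.snd.fst.fst
    have h2 : PTime O (fun p : γ × (ℕ × Bool) × Unit => p.2.1.2) := PTime.id.snd.fst.snd
    exact (PTime.nat_add h1 (PTime.const 1)).pair (h2.or (PTime.VU (hx.comp PTime.id.fst)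
      (PTime.dropLast h1.bits)))
  · intro a l' hl'
    have key : ∀ (l : List Unit) (s : ℕ) (b : Bool),
        (l.foldl (fun s _ => (s.1 + 1, s.2 || CKP.VU O (x a, s.1.bits.dropLast))) (s, b)).1 =
          s + l.length := by
      intro l
      induction l with
      | nil => intro s b; rfl
      | cons c t ih => intro s b; rw [List.foldl_cons, ih, List.length_cons]; omega
    have h1 := key l' 0 false
    generalize l'.foldl (fun s _ => (s.1 + 1, s.2 || CKP.VU O (x a, s.1.bits.dropLast)))
      (0, false) = s at h1
    obtain ⟨s1, s2⟩ := s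
    simp only at h1
    rw [sz_pair]
    have h2 : l'.length ≤ PN.eval (sz a) :=
      (hl'.length_le.trans (length_le_sz _)).trans (hPN a)
    have h3 := sz_nat_self s1
    have h4 := (num_bool_sz s2).2
    simp only [Polynomial.eval_add, Polynomial.eval_mul, Polynomial.eval_ofNat]
    omega

theorem PTime.guardT {ws T : γ → List (Bool × ℕ)} (hws : PTime O ws) (hT : PTime O T) :
    PTime O (fun a => CKP.guardT (ws a) (T a)) := by
  unfold CKP.guardT
  refine PTime.any (f := fun a u => !(CKP.ent (ws a) u.length).1 && (CKP.ent (T a) u.length).1)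
    (PTime.rangeU hws.ulen) ?_
  have h1 : PTime O (fun p : γ × List Unit => CKP.ent (ws p.1) p.2.length) :=
    PTime.ent (hws.comp PTime.id.fst) PTime.id.snd
  have h2 : PTime O (fun p : γ × List Unit => CKP.ent (T p.1) p.2.length) :=
    PTime.ent (hT.comp PTime.id.fst) PTime.id.snd
  exact (h1.fst.not).and h2.fst

theorem PTime.cls (hver : Ver O W ℓ) (hf : PTime O f) (hpad : UPoly O pad)
    {T : γ → List (Bool × ℕ)} {N n i : γ → List Unit} {a : γ → ℕ}
    (hT : PTime O T) (hN : PTime O N) (hn : PTime O n) (hi : PTime O i) (ha : PTime O a) :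
    PTime O (fun x => CKP.cls O W pad r k f (T x) (N x) (n x) (i x) (a x)) := by
  have hq : PTime O (fun x => f (zc (n x) (i x) (a x) (List.replicate (pad (n x).length) ()))) :=
    hf.comp (PTime.enc (hn.code.consD (hi.code.consD (ha.code.consD (hpad.comp hn).code))))
  unfold CKP.cls CKP.clsQ
  have hdrop : PTime O (fun _ : γ => (((false, false), 0, 0, 0) : Res)) := PTime.const _
  have honly : ∀ {b : γ → ℕ}, PTime O b →
      PTime O (fun x => (((true, true), 0, 0, b x) : Res)) := fun hb =>
    (PTime.const (true, true)).pair ((PTime.const 0).pair ((PTime.const 0).pair hb))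
  have hent := PTime.ent hq.wss hn
  refine PTime.ite hq.typ (PTime.ite (PTime.valid hver r k hq) (PTime.ite
    (PTime.nat_lt hn.length hq.wss.length) (PTime.ite hent.fst
      (honly (PTime.ushr hi hent.snd)) (honly ha)) (PTime.ite
      ((PTime.brute hq.xx hN).snd.or (PTime.guardT hq.wss hT)) (honly ha) hdrop)) hdrop) ?_
  exact (PTime.const (true, false)).pair (hq.colr.length.pair (hq.thr.pair ha))

theorem PTime.best {R : γ → List Res} {m : γ → ℕ} (hR : PTime O R) (hm : PTime O m) :
    PTime O (fun x => CKP.best (R x) (m x)) := by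
  obtain ⟨PR, hPR⟩ := hR.size_le
  have hfold : PTime O (fun x => (R x).foldl (fun s y => bstp (m x) s y) (false, 0, 0)) := by
    refine PTime.foldl (l := R) (i := fun _ => (false, 0, 0)) (s := fun x s y => bstp (m x) s y)
      hR (PTime.const _) ?_ (PR + 20) ?_
    · have hm' : PTime O (fun p : γ × (Bool × ℕ × ℕ) × Res => m p.1) := hm.comp PTime.id.fst
      have hs : PTime O (fun p : γ × (Bool × ℕ × ℕ) × Res => p.2.1) := PTime.id.snd.fst
      have hy : PTime O (fun p : γ × (Bool × ℕ × ℕ) × Res => p.2.2) := PTime.id.snd.snd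
      unfold bstp
      exact PTime.ite ((PTime.nat_eq hy.snd.fst hm').and (hy.fst.fst.and hy.fst.snd.not))
        (PTime.ite (hs.fst.not.or (PTime.nat_le hs.snd.fst hy.snd.snd.fst))
          ((PTime.const true).pair (hy.snd.snd.fst.pair hy.snd.snd.snd)) hs) hs
    · intro x l' hl'
      have key : ∀ (B : ℕ) (l : List Res) (s : Bool × ℕ × ℕ), (∀ y ∈ l, sz y ≤ B) →
          sz s ≤ B + 20 → sz (l.foldl (fun s y => bstp (m x) s y) s) ≤ B + 20 := by
        intro B l
        induction l with
        | nil => intro s _ h; exact h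
        | cons y t ih =>
          intro s h1 h2
          rw [List.foldl_cons]
          refine ih _ (fun z hz => h1 z (List.mem_cons_of_mem _ hz)) ?_
          unfold bstp
          split
          · split
            · have h3 := h1 y List.mem_cons_self
              obtain ⟨⟨y1, y2⟩, y3, y4, y5⟩ := y
              simp only [sz_pair] at h3 ⊢
              have := sz_pos y3
              simp only [sz_true]
              omega
            · exact h2
          · exact h2
      have := key (sz (R x)) l' (false, 0, 0)
        (fun y hy => sz_le_of_mem (hl'.subset hy)) (by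
          have : sz ((false, 0, 0) : Bool × ℕ × ℕ) ≤ 20 := by decide
          omega)
      have h4 := hPR x
      simp only [Polynomial.eval_add, Polynomial.eval_ofNat]
      omega
  unfold CKP.best
  exact PTime.ite hfold.fst (PTime.cons hfold.snd.snd (PTime.const [])) (PTime.const [])

theorem PTime.prune {Mn : γ → List Unit} {R : γ → List Res} (hM : PTime O Mn) (hR : PTime O R) :
    PTime O (fun x => CKP.prune (Mn x) (R x)) := by
  unfold CKP.prune
  refine PTime.lcase (l := fun x => (R x).filter fun y => y.1.1 && y.1.2)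
    (n := fun x => (CKP.rangeU (Mn x)).flatMap fun u => CKP.best (R x) u.length)
    (c := fun _ y _ => [y.2.2.2]) ?_ ?_ ?_
  · exact PTime.filter (f := fun _ (y : Res) => y.1.1 && y.1.2) hR
      (PTime.id.snd.fst.fst.and PTime.id.snd.fst.snd)
  · exact PTime.flatMap (f := fun x (u : List Unit) => CKP.best (R x) u.length)
      (PTime.rangeU hM) (PTime.best (hR.comp PTime.id.fst) (PTime.length PTime.id.snd))
  · exact PTime.cons PTime.id.snd.fst.snd.snd.snd (PTime.const [])

theorem PTime.children {L : γ → List ℕ} (hL : PTime O L) :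
    PTime O (fun x => CKP.children (L x)) := by
  unfold CKP.children
  exact PTime.flatMap (f := fun _ (a : ℕ) => [Nat.bit false a, Nat.bit true a]) hL
    (PTime.cons (PTime.bit (PTime.const false) PTime.id.snd)
      (PTime.cons (PTime.bit (PTime.const true) PTime.id.snd) (PTime.const [])))

theorem PTime.level (hver : Ver O W ℓ) (hf : PTime O f) (hpad : UPoly O pad) (hM : UPoly O M)
    {T : γ → List (Bool × ℕ)} {N n : γ → List Unit} {s : γ → List Unit × List ℕ}
    (hT : PTime O T) (hN : PTime O N) (hn : PTime O n) (hs : PTime O s) :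
    PTime O (fun x => CKP.level O W pad M r k f (T x) (N x) (n x) (s x)) := by
  unfold CKP.level
  refine (PTime.tail hs.fst).pair (PTime.prune (hM.comp hn) ?_)
  refine PTime.map (f := fun x a => CKP.cls O W pad r k f (T x) (N x) (n x) (s x).1.tail a)
    (PTime.children hs.snd) ?_
  exact PTime.cls hver hf hpad (hT.comp PTime.id.fst) (hN.comp PTime.id.fst)
    (hn.comp PTime.id.fst) (PTime.tail ((hs.comp PTime.id.fst).fst)) PTime.id.snd

theorem PTime.first (hver : Ver O W ℓ) {n : γ → List Unit} {L : γ → List ℕ}
    (hn : PTime O n) (hL : PTime O L) : PTime O (fun x => CKP.first W (n x) (L x)) := by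
  obtain ⟨PL, hPL⟩ := hL.size_le
  unfold CKP.first
  have h := PTime.foldl (l := fun x => (L x).reverse) (i := fun _ => (false, 0))
    (s := fun x t a => if W (n x).length a = true then (true, a) else t) (PTime.reverse hL)
    (PTime.const _) (PTime.ite (hver.ptime (hn.comp PTime.id.fst) PTime.id.snd.snd)
      ((PTime.const true).pair PTime.id.snd.snd) PTime.id.snd.fst) (PL + 10) ?_
  · exact h.of_eq fun x => List.foldl_reverse
  · intro x l' hl'
    have key : ∀ (B : ℕ) (l : List ℕ) (s : Bool × ℕ), (∀ y ∈ l, sz y ≤ B) →
        sz s ≤ B + 10 → sz (l.foldl (fun t a => if W (n x).length a = true then (true, a)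
          else t) s) ≤ B + 10 := by
      intro B l
      induction l with
      | nil => intro s _ h; exact h
      | cons y t ih =>
        intro s h1 h2
        rw [List.foldl_cons]
        refine ih _ (fun z hz => h1 z (List.mem_cons_of_mem _ hz)) ?_
        split
        · have h3 := h1 y List.mem_cons_self
          rw [sz_pair, sz_true]
          omega
        · exact h2
    have := key (sz (L x)) l' (false, 0)
      (fun y hy => sz_le_of_mem (List.mem_reverse.mp (hl'.subset hy))) (by
        have : sz ((false, 0) : Bool × ℕ) ≤ 10 := by decide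
        omega)
    have h4 := hPL x
    simp only [Polynomial.eval_add, Polynomial.eval_ofNat]
    omega

theorem sz_units (l : List Unit) : sz l = 2 * l.length + 1 := by
  induction l with
  | nil => rfl
  | cons a t ih =>
    rw [sz_cons, ih, List.length_cons]
    have : sz a = 1 := rfl
    omega

theorem units_eq (l : List Unit) : l = List.replicate l.length () := by
  induction l with
  | nil => rfl
  | cons a t ih => rw [List.length_cons, List.replicate_succ, ← ih]

theorem PTime.search (hver : Ver O W ℓ) (hf : PTime O f) (hpad : UPoly O pad) (hM : UPoly O M)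
    {T : γ → List (Bool × ℕ)} {N n : γ → List Unit}
    (hT : PTime O T) (hN : PTime O N) (hn : PTime O n) :
    PTime O (fun x => CKP.search O W ℓ pad M r k f (T x) (N x) (n x)) := by
  obtain ⟨Pl, hPl⟩ := hver.hl.bound
  obtain ⟨PM, hPM⟩ := hM.bound
  obtain ⟨Pn, hPn⟩ := hn.size_le
  unfold CKP.search
  refine PTime.first hver hn (PTime.snd ?_)
  refine PTime.foldl (l := fun x => List.replicate (ℓ (n x).length) ())
    (i := fun x => (List.replicate (ℓ (n x).length) (), [0]))
    (s := fun x s _ => CKP.level O W pad M r k f (T x) (N x) (n x) s) (hver.hl.comp hn)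
    ((hver.hl.comp hn).pair (PTime.const [0])) ?_
    (2 * Pl.comp Pn + 2 + ((PM.comp Pn + 1) * (4 * Pl.comp Pn + 2) + 1)) ?_
  · exact PTime.level hver hf hpad hM (hT.comp PTime.id.fst) (hN.comp PTime.id.fst)
      (hn.comp PTime.id.fst) PTime.id.snd.fst
  · intro x l' hl'
    obtain ⟨j, hj⟩ : ∃ j, ℓ (n x).length = j + l'.length := by
      have := hl'.length_le
      rw [List.length_replicate] at this
      exact ⟨ℓ (n x).length - l'.length, by omega⟩
    have h1 := fold_size (pad := pad) (M := M) (r := r) (k := k) (f := f) hver (T x) (N x)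
      (n x) l'.length j hj.symm
    rw [← units_eq l'] at h1
    obtain ⟨h2, h3, h4⟩ := h1
    generalize l'.foldl (fun s _ => CKP.level O W pad M r k f (T x) (N x) (n x) s)
      (List.replicate (ℓ (n x).length) (), [0]) = s at h2 h3 h4
    obtain ⟨s1, s2⟩ := s
    simp only at h2 h3 h4
    subst h2
    rw [sz_pair, sz_units, List.length_replicate]
    have hlen : (n x).length ≤ Pn.eval (sz x) := (length_le_sz _).trans (hPn x)
    have h5 : ℓ (n x).length ≤ Pl.eval (Pn.eval (sz x)) := (hPl _).trans (poly_mono Pl hlen)
    have h6 : M (n x).length ≤ PM.eval (Pn.eval (sz x)) := (hPM _).trans (poly_mono PM hlen)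
    have h7 := sz_list_le (s := 4 * Pl.eval (Pn.eval (sz x)) + 1) s2 (by
      intro c hc
      have h8 := sz_nat_le_of_lt (h3 c hc)
      omega)
    have h9 : s2.length * (4 * Pl.eval (Pn.eval (sz x)) + 1 + 1) ≤
        (PM.eval (Pn.eval (sz x)) + 1) * (4 * Pl.eval (Pn.eval (sz x)) + 2) :=
      Nat.mul_le_mul (by omega) (by omega)
    simp only [Polynomial.eval_add, Polynomial.eval_mul, Polynomial.eval_ofNat,
      Polynomial.eval_one, Polynomial.eval_comp]
    omega

theorem PTime.table (hver : Ver O W ℓ) (hf : PTime O f) (hpad : UPoly O pad) (hM : UPoly O M)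
    {N n : γ → List Unit} (hN : PTime O N) (hn : PTime O n) :
    PTime O (fun x => CKP.table O W ℓ pad M r k f (N x) (n x)) := by
  obtain ⟨Pl, hPl⟩ := hver.hl.bound
  obtain ⟨Pn, hPn⟩ := hn.size_le
  unfold CKP.table
  refine PTime.foldl (l := n) (i := fun _ => ([] : List (Bool × ℕ)))
    (s := fun x T _ => T ++ [CKP.search O W ℓ pad M r k f T (N x) (CKP.ulen T)]) hn (PTime.const _) ?_
    (Pn * (4 * Pl.comp Pn + 6) + 1) ?_
  · exact PTime.append PTime.id.snd.fst (PTime.cons (PTime.search hver hf hpad hM
      PTime.id.snd.fst (hN.comp PTime.id.fst) (PTime.ulen PTime.id.snd.fst)) (PTime.const []))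
  · intro x l' hl'
    rw [units_eq l']
    have hlen : l'.length ≤ Pn.eval (sz x) :=
      (hl'.length_le.trans (length_le_sz _)).trans (hPn x)
    have h1 := table_length (O := O) (W := W) (ℓ := ℓ) (pad := pad) (M := M) (r := r) (k := k)
      (f := f) (N x) l'.length
    have h2 : ∀ c ∈ CKP.table O W ℓ pad M r k f (N x) (List.replicate l'.length ()),
        sz c ≤ 4 * Pl.eval (Pn.eval (sz x)) + 5 := by
      intro c hc
      obtain ⟨i, hi, rfl⟩ := List.getElem_of_mem hc
      rw [h1] at hi
      have h3 := table_ent (O := O) (W := W) (ℓ := ℓ) (pad := pad) (M := M) (r := r) (k := k)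
        (f := f) (N x) l'.length i hi
      have h4 : CKP.ent (CKP.table O W ℓ pad M r k f (N x) (List.replicate l'.length ())) i =
          (CKP.table O W ℓ pad M r k f (N x) (List.replicate l'.length ()))[i]'(by
            rw [h1]; exact hi) := by
        unfold CKP.ent
        rw [List.getD_eq_getElem?_getD, List.getElem?_eq_getElem (by rw [h1]; exact hi),
          Option.getD_some]
      rw [← h4, h3]
      have h5 := search_lt (pad := pad) (M := M) (r := r) (k := k) (f := f) hver
        (CKP.table O W ℓ pad M r k f (N x) (List.replicate i ())) (N x) (List.replicate i ())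
      rw [List.length_replicate] at h5
      have h6 := sz_nat_le_of_lt h5
      have h7 := (num_bool_sz (solve O W ℓ pad M r k f (N x) (List.replicate i ())).1).2
      have h8 : sz (solve O W ℓ pad M r k f (N x) (List.replicate i ())) =
        sz (solve O W ℓ pad M r k f (N x) (List.replicate i ())).1 +
        sz (solve O W ℓ pad M r k f (N x) (List.replicate i ())).2 + 1 := rfl
      have h9 : ℓ i ≤ Pl.eval (Pn.eval (sz x)) := (hPl i).trans (poly_mono Pl (by omega))
      have h10 : (solve O W ℓ pad M r k f (N x) (List.replicate i ())).2 =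
        (CKP.search O W ℓ pad M r k f (CKP.table O W ℓ pad M r k f (N x)
          (List.replicate i ())) (N x) (List.replicate i ())).2 := rfl
      rw [← h10] at h6
      omega
    have h3 := sz_list_le _ h2
    rw [h1] at h3
    have h4 : l'.length * (4 * Pl.eval (Pn.eval (sz x)) + 5 + 1) ≤
        Pn.eval (sz x) * (4 * Pl.eval (Pn.eval (sz x)) + 6) := Nat.mul_le_mul hlen le_rfl
    simp only [Polynomial.eval_add, Polynomial.eval_mul, Polynomial.eval_ofNat,
      Polynomial.eval_one, Polynomial.eval_comp]
    refine le_trans h3 ?_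
    omega

theorem PTime.solve (hver : Ver O W ℓ) (hf : PTime O f) (hpad : UPoly O pad) (hM : UPoly O M)
    {N n : γ → List Unit} (hN : PTime O N) (hn : PTime O n) :
    PTime O (fun x => CKP.solve O W ℓ pad M r k f (N x) (n x)) := by
  unfold CKP.solve
  exact PTime.search hver hf hpad hM (PTime.table hver hf hpad hM hN hn) hN hn

end Pool.Agent.CKP
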